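import Mathlib

/-!
# Carousel densities: internal definitions (sign matrices, averages, positive sets)
-/

open Finset Filter Topology

namespace H51.Car

/-- Sign matrix of a tournament: `s u v = 1` if `u → v`, `-1` if `v → u`. -/
structure IsT {V : Type*} (s : V → V → ℤ) : Prop where
  skew : ∀ i j, s j i = - s i j
  pm : ∀ i j, i ≠ j → s i j = 1 ∨ s i j = -1

/-- Average of a real function on a finite type. -/
noncomputable def avg {α : Type*} [Fintype α] (f : α → ℝ) : ℝ := (∑ a, f a) / Fintype.card α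

/-- Indicator of a proposition. -/
noncomputable def ind (p : Prop) : ℝ := by classical exact if p then 1 else 0

/-- Probability of a property of a uniformly random element. -/
noncomputable def Pr {α : Type*} [Fintype α] (p : α → Prop) : ℝ := avg (fun a => ind (p a))

/-- `w` is a positive (left) kernel vector of the payoff matrix `M` on `S`. -/
def Ker {κ : Type*} (M : κ → κ → ℝ) (S : Finset κ) (w : κ → ℝ) : Prop :=
  (∀ i ∈ S, 0 < w i) ∧ ∀ j ∈ S, ∑ i ∈ S, w i * M i j = 0

/-- Positive sets. -/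
def Pos {κ : Type*} (M : κ → κ → ℝ) (S : Finset κ) : Prop := S.Nonempty ∧ ∃ w, Ker M S w

/-- Sign of the payoff of the kernel strategy of `S` against the column `b`. -/
noncomputable def sg {κ : Type*} (M : κ → κ → ℝ) (S : Finset κ) (b : κ → ℝ) : ℝ := by
  classical
  exact if ∃ w, Ker M S w ∧ 0 < ∑ i ∈ S, w i * b i then 1
    else if ∃ w, Ker M S w ∧ ∑ i ∈ S, w i * b i < 0 then -1 else 0

/-- Genericity: `M` is skew and nonsingular on all even subsets of `U`. -/
def Gen {κ : Type*} (M : κ → κ → ℝ) (U : Finset κ) : Prop :=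
  (∀ i ∈ U, ∀ j ∈ U, M j i = - M i j) ∧
  ∀ Z ⊆ U, Even Z.card → ∀ w : κ → ℝ, (∀ j ∈ Z, ∑ i ∈ Z, w i * M i j = 0) → ∀ i ∈ Z, w i = 0

/-- The standard alternating form of the carousel tournament: for `a < b` the sign is
`(-1)^(a+b)`. -/
def altS (r : ℕ) (a b : Fin r) : ℤ :=
  if a < b then (-1) ^ (a.val + b.val) else if b < a then -(-1) ^ (a.val + b.val) else 0

/-- A labelled tournament on `Fin r` is a carousel. -/
def IsAlt {r : ℕ} (B : Fin r → Fin r → ℤ) : Prop :=
  ∃ σ : Equiv.Perm (Fin r), ∀ a b, B (σ a) (σ b) = altS r a b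

/-- The set `S` of `r` indices spans a carousel; the enumeration `e` starts with `e 0`. -/
def AltEnum {κ : Type*} (r : ℕ) (B : κ → κ → ℤ) (e : Fin r → κ) : Prop :=
  Function.Injective e ∧ ∀ a b, B (e a) (e b) = altS r a b

/-- The set `S` of `r` indices spans a carousel. -/
def AltOn {κ : Type*} [DecidableEq κ] (r : ℕ) (B : κ → κ → ℤ) (S : Finset κ) : Prop :=
  ∃ e : Fin r → κ, AltEnum r B e ∧ Finset.univ.image e = S

/-- Probability that `r` random vertices span a carousel. -/
noncomputable def carP {V : Type*} [Fintype V] (s : V → V → ℤ) (r : ℕ) : ℝ :=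
  Pr (fun Y : Fin r → V => IsAlt (fun a b => s (Y a) (Y b)))

/-- `i, j, l` form a cyclic triangle after switching at `x`; equivalently the four vertices are
distinct and one of them is homogeneous to a cyclic triangle formed by the others. -/
def Bad {V : Type*} (s : V → V → ℤ) (x i j l : V) : Prop :=
  s x i * s x j * s i j = s x j * s x l * s j l ∧
  s x j * s x l * s j l = s x l * s x i * s l i ∧ s x i * s x j * s i j ≠ 0

/-- Probability of `Bad`. -/
noncomputable def badP {V : Type*} [Fintype V] (s : V → V → ℤ) : ℝ :=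
  Pr (fun Y : Fin 4 → V => Bad s (Y 0) (Y 1) (Y 2) (Y 3))

/-- Second moment of the normalised score difference. -/
noncomputable def bal {V : Type*} [Fintype V] (s : V → V → ℤ) : ℝ :=
  avg (fun x : V => (avg (fun y : V => (s x y : ℝ))) ^ 2)

/-- Probability of a labelled tournament. -/
noncomputable def lab {V : Type*} [Fintype V] (s : V → V → ℤ) {k : ℕ} (B : Fin k → Fin k → ℤ) : ℝ :=
  Pr (fun Y : Fin k → V => ∀ i j, s (Y i) (Y j) = B i j)

/-- Locally transitive labelled tournaments. -/
def LT {k : ℕ} (B : Fin k → Fin k → ℤ) : Prop := IsT B ∧ ∀ x i j l, ¬ Bad B x i j l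

/-- The limiting frequency of the labelled tournament `B` in locally transitive balanced
sequences. -/
noncomputable def cst {k : ℕ} (B : Fin k → Fin k → ℤ) : ℝ := by
  classical
  exact if LT B then 1 / (Nat.card {B' : Fin k → Fin k → ℤ // LT B'} : ℝ) else 0

/-- Real payoff matrix of a tuple of vertices. -/
def payT {V : Type*} (s : V → V → ℤ) {k : ℕ} (Y : Fin k → V) (i j : Fin k) : ℝ :=
  (s (Y i) (Y j) : ℝ)

/-- Probability that `k` random vertices are positive but do not span a carousel. -/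
noncomputable def posNotAlt {V : Type*} [Fintype V] (s : V → V → ℤ) (k : ℕ) : ℝ :=
  Pr (fun Y : Fin k → V => Pos (payT s Y) Finset.univ ∧ ¬ IsAlt (fun a b => s (Y a) (Y b)))

/-- Marks: two vertices interact iff their marks are `1` and `2`. -/
def hmk (a b : Fin 3) : ℝ := if (a = 1 ∧ b = 2) ∨ (a = 2 ∧ b = 1) then 1 else 0

/-- The perturbed payoff matrix. `x` is an ordinary vertex, `ξ` a virtual vertex (a shifted twin of
`x`), `l` are the marks, `B` the sign matrix in which `ξ` is an exact twin of `x`, `x → ξ`. -/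
noncomputable def DM {κ : Type*} [DecidableEq κ] (x ξ : κ) (B : κ → κ → ℤ) (l : κ → Fin 3)
    (δ θ : ℝ) (i j : κ) : ℝ :=
  if i = x ∨ j = x then (B i j : ℝ)
  else if i = ξ ∧ j = ξ then 0
  else if j = ξ then (B i j : ℝ) + θ
  else if i = ξ then (B i j : ℝ) - θ
  else (B i j : ℝ) - δ * hmk (l i) (l j) * ((B x i : ℝ) * (B x j : ℝ) * (B i j : ℝ))

/-- `ξ` is an exact twin of `x` with `x → ξ`. -/
def Twin {κ : Type*} (x ξ : κ) (B : κ → κ → ℤ) : Prop :=
  B x ξ = 1 ∧ ∀ i, i ≠ x → i ≠ ξ → B i ξ = B i x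

/-- For all small `δ > 0` and then for all `θ < 1/k` close to `1/k`. -/
def Ev (k : ℕ) (P : ℝ → ℝ → Prop) : Prop :=
  ∀ᶠ δ in 𝓝[>] (0 : ℝ), ∀ᶠ θ in 𝓝[<] (1 / (k : ℝ)), P δ θ

end H51.Car
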