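import Mathlib
import Pool.Agent.H51.Car.Core

/-!
# Symmetric games: unique optimal supports and the main identity
-/

open Finset Filter Topology

namespace H51.Car

/-! ### Existence of optimal strategies -/

theorem exists_opt_type {ι : Type*} [Fintype ι] [Nonempty ι] (M : ι → ι → ℝ)
    (hM : ∀ i j, M j i = - M i j) :
    ∃ w : ι → ℝ, (∀ i, 0 ≤ w i) ∧ ∑ i, w i = 1 ∧ ∀ j, 0 ≤ ∑ i, w i * M i j := by
  classical
  set f : (ι → ℝ) → ι → ℝ := fun w j => ∑ i, w i * M i j with hf
  set φ : (ι → ℝ) → ℝ := fun w => ∑ j, (max 0 (-(f w j))) ^ 2 with hφ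
  have hcf : ∀ j, Continuous fun w : ι → ℝ => f w j := by
    intro j
    simp only [hf]
    fun_prop
  have hc : Continuous φ := by
    simp only [hφ]
    refine continuous_finsetSum _ fun j _ => ?_
    have := hcf j
    fun_prop
  obtain ⟨w, hw, hmin⟩ := (isCompact_stdSimplex ℝ ι).exists_isMinOn
    (by
      obtain ⟨i⟩ := (inferInstance : Nonempty ι)
      exact ⟨Pi.single i 1, single_mem_stdSimplex ℝ i⟩) hc.continuousOn
  refine ⟨w, hw.1, hw.2, ?_⟩
  by_contra hneg
  push Not at hneg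
  obtain ⟨j0, hj0⟩ := hneg
  set p : ι → ℝ := fun j => max 0 (-(f w j)) with hp
  have hp0 : ∀ j, 0 ≤ p j := fun j => le_max_left _ _
  have hpj0 : 0 < p j0 := by
    simp only [hp, hf]
    exact lt_max_of_lt_right (by linarith)
  have hfp : ∀ j, p j * f w j = -(p j) ^ 2 := by
    intro j
    simp only [hp]
    rcases le_total 0 (f w j) with h | h
    · rw [max_eq_left (by linarith)]; ring
    · rw [max_eq_right (by linarith)]; ring
  have hsq : 0 < ∑ j, (p j) ^ 2 :=
    Finset.sum_pos' (fun j _ => sq_nonneg _) ⟨j0, mem_univ _, by positivity⟩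
  have hP : 0 < ∑ j, p j := Finset.sum_pos' (fun j _ => hp0 j) ⟨j0, mem_univ _, hpj0⟩
  -- the competitor
  set v : ι → ℝ := fun i => p i / ∑ j, p j with hv
  have hvs : v ∈ stdSimplex ℝ ι := by
    constructor
    · intro i; exact div_nonneg (hp0 i) hP.le
    · simp only [hv]
      rw [← Finset.sum_div]
      exact div_self hP.ne'
  have hpv : ∑ j, p j * f v j = 0 := by
    have h1 : ∑ j, p j * f v j = (∑ j, ∑ i, p j * p i * M i j) / ∑ j, p j := by
      simp only [hf, hv]
      rw [Finset.sum_div]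
      refine Finset.sum_congr rfl fun j _ => ?_
      rw [Finset.mul_sum, Finset.sum_div]
      refine Finset.sum_congr rfl fun i _ => ?_
      ring
    have h2 : ∑ j, ∑ i, p j * p i * M i j = - ∑ j, ∑ i, p j * p i * M i j := by
      conv_lhs => rw [Finset.sum_comm]
      rw [← Finset.sum_neg_distrib]
      refine Finset.sum_congr rfl fun j _ => ?_
      rw [← Finset.sum_neg_distrib]
      refine Finset.sum_congr rfl fun i _ => ?_
      rw [hM i j]; ring
    have h3 : ∑ j, ∑ i, p j * p i * M i j = 0 := by linarith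
    rw [h1, h3, zero_div]
  set b : ι → ℝ := fun j => f v j - f w j with hb
  have hlin : ∀ (t : ℝ) (j : ι), f (fun i => w i + t * (v i - w i)) j = f w j + t * b j := by
    intro t j
    simp only [hf, hb]
    rw [← Finset.sum_sub_distrib, Finset.mul_sum, ← Finset.sum_add_distrib]
    refine Finset.sum_congr rfl fun i _ => ?_
    ring
  have key : ∀ t : ℝ, 0 < t → t ≤ 1 →
      ∑ j, (p j) ^ 2 ≤ ∑ j, (p j - t * b j) ^ 2 := by
    intro t ht ht1
    have hmem : (fun i => w i + t * (v i - w i)) ∈ stdSimplex ℝ ι := by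
      constructor
      · intro i
        have h1 := hw.1 i
        have h2 := hvs.1 i
        nlinarith
      · have e1 : ∑ i, (w i + t * (v i - w i)) = ∑ i, w i + t * (∑ i, v i - ∑ i, w i) := by
          rw [← Finset.sum_sub_distrib, Finset.mul_sum, ← Finset.sum_add_distrib]
        rw [e1, hw.2, hvs.2]; ring
    have h1 : φ w ≤ φ (fun i => w i + t * (v i - w i)) := hmin hmem
    have h2 : φ (fun i => w i + t * (v i - w i)) ≤ ∑ j, (p j - t * b j) ^ 2 := by
      simp only [hφ]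
      refine Finset.sum_le_sum fun j _ => ?_
      rw [hlin t j]
      have h3 : max 0 (-(f w j + t * b j)) ≤ |p j - t * b j| := by
        apply max_le (abs_nonneg _)
        have : -(f w j) ≤ p j := le_max_right _ _
        calc -(f w j + t * b j) ≤ p j - t * b j := by linarith
          _ ≤ |p j - t * b j| := le_abs_self _
      calc (max 0 (-(f w j + t * b j))) ^ 2 ≤ |p j - t * b j| ^ 2 :=
            pow_le_pow_left₀ (le_max_left _ _) h3 2
        _ = (p j - t * b j) ^ 2 := sq_abs _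
    exact h1.trans h2
  have hexp : ∀ t : ℝ, ∑ j, (p j - t * b j) ^ 2 =
      ∑ j, (p j) ^ 2 - 2 * t * ∑ j, p j * b j + t ^ 2 * ∑ j, (b j) ^ 2 := by
    intro t
    rw [Finset.mul_sum, Finset.mul_sum, ← Finset.sum_sub_distrib, ← Finset.sum_add_distrib]
    refine Finset.sum_congr rfl fun j _ => ?_
    ring
  have hpb : ∑ j, p j * b j = ∑ j, (p j) ^ 2 := by
    have : ∑ j, p j * b j = ∑ j, p j * f v j - ∑ j, p j * f w j := by
      rw [← Finset.sum_sub_distrib]
      refine Finset.sum_congr rfl fun j _ => ?_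
      simp only [hb]; ring
    rw [this, hpv, Finset.sum_congr rfl (fun j _ => hfp j), Finset.sum_neg_distrib]
    ring
  set A := ∑ j, (p j) ^ 2 with hA
  set C := ∑ j, (b j) ^ 2 with hC
  have hC0 : 0 ≤ C := Finset.sum_nonneg fun j _ => sq_nonneg _
  have hineq : ∀ t : ℝ, 0 < t → t ≤ 1 → 2 * A ≤ t * C := by
    intro t ht ht1
    have := key t ht ht1
    rw [hexp t, hpb] at this
    nlinarith
  have hA0 : 0 < A := hsq
  have hCA : 0 < C := by
    have := hineq 1 one_pos le_rfl
    linarith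
  have h1 := hineq (min 1 (A / C)) (lt_min one_pos (div_pos hA0 hCA)) (min_le_left _ _)
  have h2 : min 1 (A / C) * C ≤ A := by
    calc min 1 (A / C) * C ≤ A / C * C := mul_le_mul_of_nonneg_right (min_le_right _ _) hC0
      _ = A := div_mul_cancel₀ _ hCA.ne'
  linarith

theorem exists_opt {κ : Type*} [DecidableEq κ] (M : κ → κ → ℝ) (U : Finset κ) (hU : U.Nonempty)
    (hM : ∀ i ∈ U, ∀ j ∈ U, M j i = - M i j) :
    ∃ w : κ → ℝ, (∀ i ∈ U, 0 ≤ w i) ∧ ∑ i ∈ U, w i = 1 ∧ ∀ j ∈ U, 0 ≤ ∑ i ∈ U, w i * M i j := by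
  have : Nonempty U := hU.to_subtype
  obtain ⟨w, h1, h2, h3⟩ := exists_opt_type (ι := U) (fun i j => M i j)
    (fun i j => hM i i.2 j j.2)
  refine ⟨fun i => if h : i ∈ U then w ⟨i, h⟩ else 0, ?_, ?_, ?_⟩
  · intro i hi
    simp only [hi, dif_pos]
    exact h1 _
  · rw [← Finset.sum_coe_sort U, ← h2]
    refine Finset.sum_congr rfl fun i _ => ?_
    simp
  · intro j hj
    have := h3 ⟨j, hj⟩
    rw [← Finset.sum_coe_sort U]
    refine le_of_le_of_eq this (Finset.sum_congr rfl fun i _ => ?_)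
    simp

/-! ### Basic facts on kernels of generic matrices -/

section
variable {κ : Type*} [DecidableEq κ] {M : κ → κ → ℝ} {U : Finset κ}

theorem Gen.mono (h : Gen M U) {U' : Finset κ} (hs : U' ⊆ U) : Gen M U' :=
  ⟨fun i hi j hj => h.1 i (hs hi) j (hs hj), fun Z hZ => h.2 Z (hZ.trans hs)⟩

theorem Gen.diag (h : Gen M U) {i : κ} (hi : i ∈ U) : M i i = 0 := by
  have := h.1 i hi i hi
  linarith

theorem Pos.odd (h : Gen M U) {S : Finset κ} (hS : S ⊆ U) (hP : Pos M S) : Odd S.card := by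
  rcases Nat.even_or_odd S.card with he | ho
  · exfalso
    obtain ⟨⟨i, hi⟩, w, hw1, hw2⟩ := hP
    have := h.2 S hS he w hw2 i hi
    have := hw1 i hi
    linarith
  · exact ho

/-- Two kernel vectors of an odd set are proportional. -/
theorem ker_unique (h : Gen M U) {S : Finset κ} (hS : S ⊆ U) (hP : Odd S.card) {w w' : κ → ℝ}
    (hw : ∀ j ∈ S, ∑ i ∈ S, w i * M i j = 0)
    (hw' : ∀ j ∈ S, ∑ i ∈ S, w' i * M i j = 0) {i0 : κ} (hi0 : i0 ∈ S) (h0 : w' i0 ≠ 0) :
    ∀ i ∈ S, w i = w i0 / w' i0 * w' i := by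
  set c := w i0 / w' i0 with hc
  have hE : Even (S.erase i0).card := by
    rw [Finset.card_erase_of_mem hi0]
    obtain ⟨m, hm⟩ := hP
    exact ⟨m, by omega⟩
  have hz : w i0 - c * w' i0 = 0 := by rw [hc, div_mul_cancel₀ _ h0]; ring
  have := h.2 (S.erase i0) ((Finset.erase_subset _ _).trans hS) hE (fun i => w i - c * w' i)
    (by
      intro j hj
      have hjS := Finset.mem_of_mem_erase hj
      have h1 := hw j hjS
      have h2 := hw' j hjS
      have h3 : ∑ i ∈ S, (w i - c * w' i) * M i j = 0 := by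
        have : ∑ i ∈ S, (w i - c * w' i) * M i j =
            ∑ i ∈ S, w i * M i j - c * ∑ i ∈ S, w' i * M i j := by
          rw [Finset.mul_sum, ← Finset.sum_sub_distrib]
          refine Finset.sum_congr rfl fun i _ => ?_
          ring
        rw [this, h1, h2]; ring
      rw [← Finset.add_sum_erase S _ hi0, hz, zero_mul, zero_add] at h3
      exact h3)
  intro i hi
  by_cases hii : i = i0
  · subst hii
    rw [hc, div_mul_cancel₀ _ h0]
  · have := this i (Finset.mem_erase.2 ⟨hii, hi⟩)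
    linarith

/-- Outside vertices never tie. -/
theorem payoff_ne_zero (h : Gen M U) {S : Finset κ} (hS : S ⊆ U) {w : κ → ℝ}
    (hne : S.Nonempty) (hw : Ker M S w) {x : κ} (hx : x ∈ U) (hxS : x ∉ S) :
    ∑ i ∈ S, w i * M i x ≠ 0 := by
  intro h0
  have hodd := Pos.odd h hS ⟨hne, w, hw⟩
  have hE : Even (insert x S).card := by
    rw [Finset.card_insert_of_notMem hxS]
    exact hodd.add_one
  have := h.2 (insert x S) (Finset.insert_subset hx hS) hE (fun i => if i = x then 0 else w i)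
    (by
      intro j hj
      rw [Finset.sum_insert hxS]
      simp only [if_true, zero_mul, zero_add]
      have : ∑ i ∈ S, (if i = x then 0 else w i) * M i j = ∑ i ∈ S, w i * M i j := by
        refine Finset.sum_congr rfl fun i hi => ?_
        have hix : i ≠ x := fun e => hxS (e ▸ hi)
        rw [if_neg hix]
      rw [this]
      rcases Finset.mem_insert.1 hj with e | hjS
      · rw [e, h0]
      · exact hw.2 j hjS)
  obtain ⟨i, hi⟩ := hne
  have h1 := this i (Finset.mem_insert_of_mem hi)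
  have hix : i ≠ x := fun e => hxS (e ▸ hi)
  rw [if_neg hix] at h1
  have := hw.1 i hi
  linarith

/-- The sign `sg` computed from any kernel vector. -/
theorem sg_eq_one_of_pos (h : Gen M U) {S : Finset κ} (hS : S ⊆ U) {w : κ → ℝ} (hw : Ker M S w)
    {b : κ → ℝ} (hb : 0 < ∑ i ∈ S, w i * b i) : sg M S b = 1 := by
  unfold sg
  rw [if_pos ⟨w, hw, hb⟩]

theorem ker_prop (h : Gen M U) {S : Finset κ} (hS : S ⊆ U) (hne : S.Nonempty) {w w' : κ → ℝ}
    (hw : Ker M S w) (hw' : Ker M S w') (b : κ → ℝ) :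
    ∃ c : ℝ, 0 < c ∧ ∑ i ∈ S, w i * b i = c * ∑ i ∈ S, w' i * b i := by
  obtain ⟨i0, hi0⟩ := hne
  have hodd := Pos.odd h hS ⟨⟨i0, hi0⟩, w, hw⟩
  have h1 := ker_unique h hS hodd hw.2 hw'.2 hi0 (hw'.1 i0 hi0).ne'
  refine ⟨w i0 / w' i0, div_pos (hw.1 i0 hi0) (hw'.1 i0 hi0), ?_⟩
  rw [Finset.mul_sum]
  refine Finset.sum_congr rfl fun i hi => ?_
  rw [h1 i hi]; ring

theorem sg_eq_neg_one_of_neg (h : Gen M U) {S : Finset κ} (hS : S ⊆ U) (hne : S.Nonempty)
    {w : κ → ℝ} (hw : Ker M S w) {b : κ → ℝ} (hb : ∑ i ∈ S, w i * b i < 0) : sg M S b = -1 := by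
  unfold sg
  rw [if_neg, if_pos ⟨w, hw, hb⟩]
  rintro ⟨w', hw', hb'⟩
  obtain ⟨c, hc, he⟩ := ker_prop h hS hne hw hw' b
  have : 0 < c * ∑ i ∈ S, w' i * b i := mul_pos hc hb'
  linarith

theorem sg_cases (M : κ → κ → ℝ) (S : Finset κ) (b : κ → ℝ) :
    sg M S b = 1 ∨ sg M S b = -1 ∨ sg M S b = 0 := by
  unfold sg
  split_ifs <;> simp

theorem sg_abs_le (M : κ → κ → ℝ) (S : Finset κ) (b : κ → ℝ) : |sg M S b| ≤ 1 := by
  rcases sg_cases M S b with h | h | h <;> rw [h] <;> norm_num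

theorem sg_pm (h : Gen M U) {S : Finset κ} (hS : S ⊆ U) (hP : Pos M S) {x : κ} (hx : x ∈ U)
    (hxS : x ∉ S) :
    sg M S (fun i => M i x) = 1 ∨ sg M S (fun i => M i x) = -1 := by
  obtain ⟨hne, w, hw⟩ := hP
  rcases lt_or_gt_of_ne (payoff_ne_zero h hS hne hw hx hxS) with h1 | h1
  · right; exact sg_eq_neg_one_of_neg h hS hne hw h1
  · left; exact sg_eq_one_of_pos h hS hw h1

/-- Unique support theorem, existence. -/
theorem exists_support (h : Gen M U) (hU : U.Nonempty) :
    ∃ S ⊆ U, Pos M S ∧ ∀ x ∈ U \ S, sg M S (fun i => M i x) = 1 := by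
  obtain ⟨w, h1, h2, h3⟩ := exists_opt M U hU h.1
  set S := U.filter (fun i => 0 < w i) with hSdef
  have hS : S ⊆ U := Finset.filter_subset _ _
  have hout : ∀ i ∈ U, i ∉ S → w i = 0 := by
    intro i hi hiS
    by_contra hne
    exact hiS (Finset.mem_filter.2 ⟨hi, lt_of_le_of_ne (h1 i hi) (Ne.symm hne)⟩)
  have hsum : ∀ b : κ → ℝ, ∑ i ∈ U, w i * b i = ∑ i ∈ S, w i * b i := by
    intro b
    symm
    refine Finset.sum_subset hS fun i hi hiS => ?_
    rw [hout i hi hiS, zero_mul]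
  have hne : S.Nonempty := by
    by_contra hemp
    rw [Finset.not_nonempty_iff_eq_empty] at hemp
    have := hsum (fun _ => 1)
    simp only [mul_one] at this
    rw [h2, hemp] at this
    simp at this
  -- complementary slackness
  have htot : ∑ j ∈ U, w j * ∑ i ∈ U, w i * M i j = 0 := by
    have e1 : ∑ j ∈ U, w j * ∑ i ∈ U, w i * M i j = ∑ j ∈ U, ∑ i ∈ U, w j * w i * M i j := by
      refine Finset.sum_congr rfl fun j _ => ?_
      rw [Finset.mul_sum]
      refine Finset.sum_congr rfl fun i _ => ?_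
      ring
    have e2 : ∑ j ∈ U, ∑ i ∈ U, w j * w i * M i j = - ∑ j ∈ U, ∑ i ∈ U, w j * w i * M i j := by
      conv_lhs => rw [Finset.sum_comm]
      rw [← Finset.sum_neg_distrib]
      refine Finset.sum_congr rfl fun j hj => ?_
      rw [← Finset.sum_neg_distrib]
      refine Finset.sum_congr rfl fun i hi => ?_
      rw [h.1 i hi j hj]; ring
    rw [e1]; linarith
  have hzero : ∀ j ∈ S, ∑ i ∈ S, w i * M i j = 0 := by
    intro j hj
    have hjU := hS hj
    have hnn : ∀ j ∈ U, 0 ≤ w j * ∑ i ∈ U, w i * M i j := fun j hj =>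
      mul_nonneg (h1 j hj) (h3 j hj)
    have := (Finset.sum_eq_zero_iff_of_nonneg hnn).1 htot j hjU
    have hwj : 0 < w j := (Finset.mem_filter.1 hj).2
    rcases mul_eq_zero.1 this with h4 | h4
    · linarith
    · rw [← hsum]; exact h4
  have hKer : Ker M S w := ⟨fun i hi => (Finset.mem_filter.1 hi).2, hzero⟩
  refine ⟨S, hS, ⟨hne, w, hKer⟩, ?_⟩
  intro x hx
  rw [Finset.mem_sdiff] at hx
  have h4 := h3 x hx.1
  rw [hsum] at h4
  have h5 := payoff_ne_zero h hS hne hKer hx.1 hx.2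
  exact sg_eq_one_of_pos h hS hKer (lt_of_le_of_ne h4 (Ne.symm h5))

/-- Unique support theorem, uniqueness. -/
theorem support_unique (h : Gen M U) {S S' : Finset κ} (hS : S ⊆ U) (hS' : S' ⊆ U)
    (hP : Pos M S) (hP' : Pos M S') (h1 : ∀ x ∈ U \ S, sg M S (fun i => M i x) = 1)
    (h1' : ∀ x ∈ U \ S', sg M S' (fun i => M i x) = 1) : S = S' := by
  obtain ⟨hne, w, hw⟩ := hP
  obtain ⟨hne', w', hw'⟩ := hP'
  -- payoffs are nonnegative everywhere, positive outside the support
  have hf : ∀ x ∈ U, x ∉ S → 0 < ∑ i ∈ S, w i * M i x := by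
    intro x hx hxS
    rcases lt_or_gt_of_ne (payoff_ne_zero h hS hne hw hx hxS) with h2 | h2
    · have := sg_eq_neg_one_of_neg h hS hne hw h2
      rw [h1 x (Finset.mem_sdiff.2 ⟨hx, hxS⟩)] at this
      norm_num at this
    · exact h2
  have hf' : ∀ x ∈ U, x ∉ S' → 0 < ∑ i ∈ S', w' i * M i x := by
    intro x hx hxS
    rcases lt_or_gt_of_ne (payoff_ne_zero h hS' hne' hw' hx hxS) with h2 | h2
    · have := sg_eq_neg_one_of_neg h hS' hne' hw' h2
      rw [h1' x (Finset.mem_sdiff.2 ⟨hx, hxS⟩)] at this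
      norm_num at this
    · exact h2
  have hn : ∀ x ∈ U, 0 ≤ ∑ i ∈ S, w i * M i x := by
    intro x hx
    by_cases hxS : x ∈ S
    · exact (hw.2 x hxS).ge
    · exact (hf x hx hxS).le
  have hn' : ∀ x ∈ U, 0 ≤ ∑ i ∈ S', w' i * M i x := by
    intro x hx
    by_cases hxS : x ∈ S'
    · exact (hw'.2 x hxS).ge
    · exact (hf' x hx hxS).le
  have hanti : ∑ x ∈ S', w' x * ∑ i ∈ S, w i * M i x = - ∑ i ∈ S, w i * ∑ x ∈ S', w' x * M x i := by
    simp only [Finset.mul_sum]
    rw [Finset.sum_comm, ← Finset.sum_neg_distrib]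
    refine Finset.sum_congr rfl fun i hi => ?_
    rw [← Finset.sum_neg_distrib]
    refine Finset.sum_congr rfl fun x hx => ?_
    rw [h.1 i (hS hi) x (hS' hx)]; ring
  have hA : 0 ≤ ∑ x ∈ S', w' x * ∑ i ∈ S, w i * M i x :=
    Finset.sum_nonneg fun x hx => mul_nonneg (hw'.1 x hx).le (hn x (hS' hx))
  have hB : 0 ≤ ∑ i ∈ S, w i * ∑ x ∈ S', w' x * M x i :=
    Finset.sum_nonneg fun i hi => mul_nonneg (hw.1 i hi).le (hn' i (hS hi))
  have hA0 : ∑ x ∈ S', w' x * ∑ i ∈ S, w i * M i x = 0 := by linarith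
  have hB0 : ∑ i ∈ S, w i * ∑ x ∈ S', w' x * M x i = 0 := by linarith
  have hsub : S' ⊆ S := by
    intro x hx
    by_contra hxS
    have := (Finset.sum_eq_zero_iff_of_nonneg (fun x hx => mul_nonneg (hw'.1 x hx).le
      (hn x (hS' hx)))).1 hA0 x hx
    have h2 := mul_pos (hw'.1 x hx) (hf x (hS' hx) hxS)
    linarith
  have hsub' : S ⊆ S' := by
    intro x hx
    by_contra hxS
    have := (Finset.sum_eq_zero_iff_of_nonneg (fun x hx => mul_nonneg (hw.1 x hx).le
      (hn' x (hS hx)))).1 hB0 x hx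
    have h2 := mul_pos (hw.1 x hx) (hf' x (hS hx) hxS)
    linarith
  exact Finset.Subset.antisymm hsub' hsub

/-- The support identity. -/
theorem support_sum (h : Gen M U) (hU : U.Nonempty) :
    ∑ S ∈ U.powerset, ind (Pos M S) * ∏ x ∈ U \ S, ((1 + sg M S (fun i => M i x)) / 2) = 1 := by
  obtain ⟨S0, hS0, hP0, hs0⟩ := exists_support h hU
  rw [Finset.sum_eq_single S0]
  · have : ∏ x ∈ U \ S0, ((1 + sg M S0 (fun i => M i x)) / 2) = 1 := by
      refine Finset.prod_eq_one fun x hx => ?_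
      rw [hs0 x hx]; norm_num
    rw [this, ind, if_pos hP0, mul_one]
  · intro S hS hne
    rw [Finset.mem_powerset] at hS
    by_cases hP : Pos M S
    · have : ∃ x ∈ U \ S, sg M S (fun i => M i x) ≠ 1 := by
        by_contra hcon
        push Not at hcon
        exact hne (support_unique h hS hS0 hP hP0 hcon hs0)
      obtain ⟨x, hx, hx1⟩ := this
      have hx' := Finset.mem_sdiff.1 hx
      have h2 : sg M S (fun i => M i x) = -1 := by
        rcases sg_pm h hS hP hx'.1 hx'.2 with h3 | h3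
        · exact absurd h3 hx1
        · exact h3
      rw [Finset.prod_eq_zero hx (by rw [h2]; norm_num), mul_zero]
    · rw [ind, if_neg hP, zero_mul]
  · intro hS
    exact absurd (Finset.mem_powerset.2 hS0) hS

end

/-! ### Inversion -/

section
variable {κ : Type*} [DecidableEq κ]

/-- The local term of the main identity. -/
noncomputable def aT (M : κ → κ → ℝ) (U : Finset κ) : ℝ :=
  ∑ S ∈ U.powerset, ind (Pos M S) * 2 ^ S.card * ∏ x ∈ U \ S, sg M S (fun i => M i x)

theorem sum_powerset_powerset (U : Finset κ) (F : Finset κ → Finset κ → ℝ) :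
    ∑ W ∈ U.powerset, ∑ S ∈ W.powerset, F S (W \ S) =
      ∑ S ∈ U.powerset, ∑ R ∈ (U \ S).powerset, F S R := by
  rw [Finset.sum_sigma', Finset.sum_sigma']
  refine Finset.sum_bij' (fun p _ => ⟨p.2, p.1 \ p.2⟩) (fun p _ => ⟨p.1 ∪ p.2, p.1⟩) ?_ ?_ ?_ ?_ ?_
  · rintro ⟨W, S⟩ h
    simp only [Finset.mem_sigma, Finset.mem_powerset] at h ⊢
    exact ⟨h.2.trans h.1, Finset.sdiff_subset_sdiff h.1 le_rfl⟩
  · rintro ⟨S, R⟩ h
    simp only [Finset.mem_sigma, Finset.mem_powerset] at h ⊢
    exact ⟨Finset.union_subset h.1 (h.2.trans Finset.sdiff_subset), Finset.subset_union_left⟩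
  · rintro ⟨W, S⟩ h
    simp only [Finset.mem_sigma, Finset.mem_powerset] at h
    simp only [Finset.union_sdiff_of_subset h.2]
  · rintro ⟨S, R⟩ h
    simp only [Finset.mem_sigma, Finset.mem_powerset] at h
    have hd : Disjoint S R := (Finset.disjoint_sdiff (s := S) (t := U)).mono_right h.2
    simp only [Finset.union_sdiff_cancel_left hd]
  · rintro ⟨W, S⟩ h
    rfl

theorem sum_aT {M : κ → κ → ℝ} {U : Finset κ} (h : Gen M U) (hU : U.Nonempty) :
    ∑ W ∈ U.powerset, aT M W = 2 ^ U.card := by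
  unfold aT
  refine (sum_powerset_powerset U (fun S R => ind (Pos M S) * 2 ^ S.card *
      ∏ x ∈ R, sg M S (fun i => M i x))).trans ?_
  have e2 : ∀ S ∈ U.powerset, ∑ R ∈ (U \ S).powerset, ind (Pos M S) * 2 ^ S.card *
      ∏ x ∈ R, sg M S (fun i => M i x) =
      2 ^ U.card * (ind (Pos M S) * ∏ x ∈ U \ S, ((1 + sg M S (fun i => M i x)) / 2)) := by
    intro S hS
    rw [Finset.mem_powerset] at hS
    rw [← Finset.mul_sum, ← Finset.prod_one_add, Finset.prod_div_distrib, Finset.prod_const,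
      Finset.card_sdiff_of_subset hS]
    have hc : S.card ≤ U.card := Finset.card_le_card hS
    have h2 : (2 : ℝ) ^ U.card = 2 ^ S.card * 2 ^ (U.card - S.card) := by
      rw [← pow_add]; congr 1; omega
    rw [h2]
    field_simp
  rw [Finset.sum_congr rfl e2, ← Finset.mul_sum, support_sum h hU, mul_one]

theorem sum_sign_powerset {U : Finset κ} (hU : U.Nonempty) :
    ∑ W ∈ U.powerset, (1 - (-1 : ℝ) ^ W.card) = 2 ^ U.card := by
  rw [Finset.sum_sub_distrib]
  have h1 : ∑ W ∈ U.powerset, (1 : ℝ) = 2 ^ U.card := by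
    rw [Finset.sum_const, Finset.card_powerset]; simp
  have h2 : ∑ W ∈ U.powerset, (-1 : ℝ) ^ W.card = 0 := by
    have := Finset.sum_powerset_neg_one_pow_card (x := U)
    have h3 : (∑ W ∈ U.powerset, (-1 : ℤ) ^ W.card) = 0 := by
      rw [this, if_neg hU.ne_empty]
    have h4 : ((∑ W ∈ U.powerset, (-1 : ℤ) ^ W.card : ℤ) : ℝ) = 0 := by rw [h3]; simp
    push_cast at h4
    exact h4
  rw [h1, h2]; ring

/-- The main identity. -/
theorem dagger (M : κ → κ → ℝ) (U : Finset κ) (hU : Gen M U) :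
    ∑ S ∈ U.powerset, ind (Pos M S) * 2 ^ S.card * ∏ x ∈ U \ S, sg M S (fun i => M i x)
      = 1 - (-1) ^ U.card := by
  change aT M U = 1 - (-1) ^ U.card
  induction U using Finset.strongInduction with
  | H U ih =>
    rcases Finset.eq_empty_or_nonempty U with he | hne
    · subst he
      unfold aT
      simp [ind, Pos]
    · have h1 := sum_aT hU hne
      have h2 := sum_sign_powerset hne
      rw [← Finset.add_sum_erase _ _ (Finset.mem_powerset_self U)] at h1 h2
      have h3 : ∑ W ∈ U.powerset.erase U, aT M W =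
          ∑ W ∈ U.powerset.erase U, (1 - (-1 : ℝ) ^ W.card) := by
        refine Finset.sum_congr rfl fun W hW => ?_
        rw [Finset.mem_erase, Finset.mem_powerset] at hW
        exact ih W (Finset.ssubset_iff_subset_ne.2 ⟨hW.2, hW.1⟩) (hU.mono hW.2)
      rw [h3] at h1
      linarith

end

end H51.Car
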