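import Mathlib
import Pool.Agent.H51.Car.Game

/-!
# Averages over random tuples and the averaged main identity
-/

open Finset Filter Topology

namespace H51.Car

section avg
variable {α β : Type*} [Fintype α] [Fintype β]

theorem avg_add (f g : α → ℝ) : avg (fun a => f a + g a) = avg f + avg g := by
  unfold avg
  rw [Finset.sum_add_distrib, add_div]

theorem avg_sub (f g : α → ℝ) : avg (fun a => f a - g a) = avg f - avg g := by
  unfold avg
  rw [Finset.sum_sub_distrib, sub_div]

theorem avg_const_mul (c : ℝ) (f : α → ℝ) : avg (fun a => c * f a) = c * avg f := by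
  unfold avg
  rw [← Finset.mul_sum, mul_div_assoc]

theorem avg_mul_const (c : ℝ) (f : α → ℝ) : avg (fun a => f a * c) = avg f * c := by
  unfold avg
  rw [← Finset.sum_mul, div_mul_eq_mul_div]

theorem avg_const [Nonempty α] (c : ℝ) : avg (fun _ : α => c) = c := by
  unfold avg
  rw [Finset.sum_const, nsmul_eq_mul, Finset.card_univ, mul_comm, mul_div_assoc,
    div_self (by exact_mod_cast Fintype.card_ne_zero), mul_one]

theorem avg_mono {f g : α → ℝ} (h : ∀ a, f a ≤ g a) : avg f ≤ avg g := by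
  unfold avg
  exact div_le_div_of_nonneg_right (Finset.sum_le_sum fun a _ => h a) (Nat.cast_nonneg _)

theorem avg_nonneg {f : α → ℝ} (h : ∀ a, 0 ≤ f a) : 0 ≤ avg f := by
  unfold avg
  exact div_nonneg (Finset.sum_nonneg fun a _ => h a) (Nat.cast_nonneg _)

theorem avg_neg (f : α → ℝ) : avg (fun a => - f a) = - avg f := by
  unfold avg
  rw [Finset.sum_neg_distrib, neg_div]

theorem abs_avg_le_avg (f : α → ℝ) : |avg f| ≤ avg (fun a => |f a|) := by
  unfold avg
  rw [abs_div, Nat.abs_cast]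
  exact div_le_div_of_nonneg_right (Finset.abs_sum_le_sum_abs _ _) (Nat.cast_nonneg _)

theorem abs_avg_le {f : α → ℝ} {C : ℝ} (hC : 0 ≤ C) (h : ∀ a, |f a| ≤ C) : |avg f| ≤ C := by
  rcases isEmpty_or_nonempty α with he | hne
  · unfold avg; simp [hC]
  · calc |avg f| ≤ avg (fun a => |f a|) := abs_avg_le_avg f
      _ ≤ avg (fun _ : α => C) := avg_mono h
      _ = C := avg_const C

theorem avg_sum {ι : Type*} (s : Finset ι) (f : ι → α → ℝ) :
    avg (fun a => ∑ i ∈ s, f i a) = ∑ i ∈ s, avg (f i) := by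
  unfold avg
  rw [Finset.sum_comm, Finset.sum_div]

theorem avg_equiv (e : α ≃ β) (f : β → ℝ) : avg (fun a => f (e a)) = avg f := by
  unfold avg
  rw [Equiv.sum_comp e f, Fintype.card_congr e]

theorem avg_prod (f : α × β → ℝ) : avg f = avg (fun a => avg (fun b => f (a, b))) := by
  unfold avg
  rw [Fintype.sum_prod_type, Fintype.card_prod, ← Finset.sum_div, div_div, Nat.cast_mul,
    mul_comm (Fintype.card α : ℝ)]

theorem avg_comm (f : α → β → ℝ) :
    avg (fun a => avg (fun b => f a b)) = avg (fun b => avg (fun a => f a b)) := by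
  unfold avg
  simp only [← Finset.sum_div]
  rw [Finset.sum_comm, div_div, div_div, mul_comm]

theorem ind_nonneg (p : Prop) : 0 ≤ ind p := by
  unfold ind; split_ifs <;> norm_num

theorem ind_le_one (p : Prop) : ind p ≤ 1 := by
  unfold ind; split_ifs <;> norm_num

theorem ind_pos_iff {p : Prop} (h : p) : ind p = 1 := by
  unfold ind; rw [if_pos h]

theorem ind_neg {p : Prop} (h : ¬ p) : ind p = 0 := by
  unfold ind; rw [if_neg h]

theorem ind_mono {p q : Prop} (h : p → q) : ind p ≤ ind q := by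
  by_cases hp : p
  · rw [ind_pos_iff hp, ind_pos_iff (h hp)]
  · rw [ind_neg hp]; exact ind_nonneg q

theorem ind_or_le (p q : Prop) : ind (p ∨ q) ≤ ind p + ind q := by
  by_cases hp : p
  · rw [ind_pos_iff hp, ind_pos_iff (Or.inl hp)]
    linarith [ind_nonneg q]
  · by_cases hq : q
    · rw [ind_pos_iff hq, ind_pos_iff (Or.inr hq)]
      linarith [ind_nonneg p]
    · rw [ind_neg hp, ind_neg hq, ind_neg (by tauto)]; norm_num

theorem ind_and (p q : Prop) : ind (p ∧ q) = ind p * ind q := by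
  by_cases hp : p
  · by_cases hq : q
    · rw [ind_pos_iff hp, ind_pos_iff hq, ind_pos_iff ⟨hp, hq⟩]; norm_num
    · rw [ind_neg hq, ind_neg (by tauto)]; norm_num
  · rw [ind_neg hp, ind_neg (by tauto)]; norm_num

theorem ind_not (p : Prop) : ind (¬ p) = 1 - ind p := by
  by_cases hp : p
  · rw [ind_pos_iff hp, ind_neg (by tauto)]; norm_num
  · rw [ind_neg hp, ind_pos_iff hp]; norm_num

theorem ind_congr {p q : Prop} (h : p ↔ q) : ind p = ind q := by
  rw [propext h]

theorem Pr_nonneg (p : α → Prop) : 0 ≤ Pr p := avg_nonneg fun a => ind_nonneg _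

theorem Pr_mono {p q : α → Prop} (h : ∀ a, p a → q a) : Pr p ≤ Pr q :=
  avg_mono fun a => ind_mono (h a)

theorem Pr_or_le (p q : α → Prop) : Pr (fun a => p a ∨ q a) ≤ Pr p + Pr q := by
  unfold Pr
  rw [← avg_add]
  exact avg_mono fun a => ind_or_le _ _

theorem Pr_le_one (p : α → Prop) : Pr p ≤ 1 := by
  rcases isEmpty_or_nonempty α with he | hne
  · unfold Pr avg; simp
  · calc Pr p ≤ avg (fun _ : α => (1 : ℝ)) := avg_mono fun a => ind_le_one _
      _ = 1 := avg_const 1

theorem Pr_exists_le {ι : Type*} (s : Finset ι) (p : ι → α → Prop) :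
    Pr (fun a => ∃ i ∈ s, p i a) ≤ ∑ i ∈ s, Pr (p i) := by
  unfold Pr
  rw [← avg_sum]
  refine avg_mono fun a => ?_
  by_cases h : ∃ i ∈ s, p i a
  · obtain ⟨i, hi, hp⟩ := h
    rw [ind_pos_iff ⟨i, hi, hp⟩]
    calc (1 : ℝ) = ind (p i a) := (ind_pos_iff hp).symm
      _ ≤ ∑ i ∈ s, ind (p i a) :=
        Finset.single_le_sum (f := fun i => ind (p i a)) (fun j _ => ind_nonneg _) hi
  · rw [ind_neg h]
    exact Finset.sum_nonneg fun i _ => ind_nonneg _

end avg

section tuples
variable {κ V : Type*} [Fintype κ] [DecidableEq κ] [Fintype V]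

/-- Resampling one coordinate. -/
theorem avg_update (z : κ) (F : (κ → V) → ℝ) :
    avg (fun Y : κ → V => avg (fun v : V => F (Function.update Y z v))) = avg F := by
  rcases isEmpty_or_nonempty V with he | hne
  · have hF : ∀ Y : κ → V, False := fun Y => he.elim (Y z)
    unfold avg
    have : IsEmpty (κ → V) := ⟨hF⟩
    simp
  · have e1 : avg (fun p : (κ → V) × V => F (Function.update p.1 z p.2)) =
        avg (fun p : (κ → V) × V => F p.1) := by
      let e : (κ → V) × V ≃ (κ → V) × V :=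
        { toFun := fun p => (Function.update p.1 z p.2, p.1 z)
          invFun := fun p => (Function.update p.1 z p.2, p.1 z)
          left_inv := by rintro ⟨Y, v⟩; simp
          right_inv := by rintro ⟨Y, v⟩; simp }
      exact avg_equiv e (fun p => F p.1)
    rw [avg_prod, avg_prod] at e1
    rw [e1]
    congr 1
    funext Y
    exact avg_const (α := V) (F Y)

/-- Independence: the coordinates in `Z` can be averaged separately. -/
theorem avg_factor (Z : Finset κ) (F : (κ → V) → ℝ) (G : (κ → V) → V → ℝ)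
    (hF : ∀ Y, ∀ z ∈ Z, ∀ v, F (Function.update Y z v) = F Y)
    (hG : ∀ Y, ∀ z ∈ Z, ∀ v, G (Function.update Y z v) = G Y) :
    avg (fun Y => F Y * ∏ z ∈ Z, G Y (Y z)) = avg (fun Y => F Y * (avg (G Y)) ^ Z.card) := by
  induction Z using Finset.induction_on generalizing F with
  | empty => simp
  | insert z0 Z' hz0 ih =>
    rw [← avg_update z0]
    have e1 : ∀ Y : κ → V, avg (fun v : V => F (Function.update Y z0 v) *
        ∏ z ∈ insert z0 Z', G (Function.update Y z0 v) (Function.update Y z0 v z)) =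
        (F Y * avg (G Y)) * ∏ z ∈ Z', G Y (Y z) := by
      intro Y
      have e2 : ∀ v, F (Function.update Y z0 v) *
        ∏ z ∈ insert z0 Z', G (Function.update Y z0 v) (Function.update Y z0 v z) =
        G Y v * (F Y * ∏ z ∈ Z', G Y (Y z)) := by
        intro v
        rw [hF Y z0 (Finset.mem_insert_self _ _), hG Y z0 (Finset.mem_insert_self _ _),
          Finset.prod_insert hz0, Function.update_self]
        have : ∏ z ∈ Z', G Y (Function.update Y z0 v z) = ∏ z ∈ Z', G Y (Y z) := by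
          refine Finset.prod_congr rfl fun z hz => ?_
          have hne : z ≠ z0 := fun e => hz0 (e ▸ hz)
          rw [Function.update_of_ne hne]
        rw [this]; ring
      simp only [e2]
      rw [avg_mul_const]; ring
    simp only [e1]
    rw [ih (fun Y => F Y * avg (G Y))]
    · congr 1
      funext Y
      rw [Finset.card_insert_of_notMem hz0, pow_succ]; ring
    · intro Y z hz v
      rw [hF Y z (Finset.mem_insert_of_mem hz), hG Y z (Finset.mem_insert_of_mem hz)]
    · intro Y z hz v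
      rw [hG Y z (Finset.mem_insert_of_mem hz)]

end tuples

section congr
variable {κ : Type*}

theorem Ker_congr {M M' : κ → κ → ℝ} {S : Finset κ} (h : ∀ i ∈ S, ∀ j ∈ S, M i j = M' i j)
    (w : κ → ℝ) : Ker M S w ↔ Ker M' S w := by
  unfold Ker
  refine and_congr Iff.rfl ?_
  refine forall_congr' fun j => forall_congr' fun hj => ?_
  rw [Finset.sum_congr rfl fun i hi => by rw [h i hi j hj]]

theorem Pos_congr {M M' : κ → κ → ℝ} {S : Finset κ} (h : ∀ i ∈ S, ∀ j ∈ S, M i j = M' i j) :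
    Pos M S ↔ Pos M' S := by
  unfold Pos
  refine and_congr Iff.rfl (exists_congr fun w => Ker_congr h w)

theorem sg_congr {M M' : κ → κ → ℝ} {S : Finset κ} {b b' : κ → ℝ}
    (h : ∀ i ∈ S, ∀ j ∈ S, M i j = M' i j) (hb : ∀ i ∈ S, b i = b' i) :
    sg M S b = sg M' S b' := by
  unfold sg
  have e : ∀ w : κ → ℝ, ∑ i ∈ S, w i * b i = ∑ i ∈ S, w i * b' i := fun w =>
    Finset.sum_congr rfl fun i hi => by rw [hb i hi]
  have e1 : (∃ w, Ker M S w ∧ 0 < ∑ i ∈ S, w i * b i) ↔
      (∃ w, Ker M' S w ∧ 0 < ∑ i ∈ S, w i * b' i) :=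
    exists_congr fun w => by rw [Ker_congr h w, e w]
  have e2 : (∃ w, Ker M S w ∧ ∑ i ∈ S, w i * b i < 0) ↔
      (∃ w, Ker M' S w ∧ ∑ i ∈ S, w i * b' i < 0) :=
    exists_congr fun w => by rw [Ker_congr h w, e w]
  by_cases c1 : ∃ w, Ker M S w ∧ 0 < ∑ i ∈ S, w i * b i
  · rw [if_pos c1, if_pos (e1.1 c1)]
  · rw [if_neg c1, if_neg (fun h => c1 (e1.2 h))]
    by_cases c2 : ∃ w, Ker M S w ∧ ∑ i ∈ S, w i * b i < 0
    · rw [if_pos c2, if_pos (e2.1 c2)]
    · rw [if_neg c2, if_neg (fun h => c2 (e2.2 h))]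

end congr

section main
variable {κ V : Type*} [Fintype κ] [DecidableEq κ] [Fintype V]

/-- Conditional mean of the sign of `S` against a random vertex. -/
noncomputable def Hh (Mat : (κ → V) → κ → κ → ℝ) (col : (κ → V) → V → κ → ℝ) (S : Finset κ)
    (Y : κ → V) : ℝ := avg (fun v => sg (Mat Y) S (col Y v))

theorem Hh_abs_le (Mat : (κ → V) → κ → κ → ℝ) (col : (κ → V) → V → κ → ℝ) (S : Finset κ)
    (Y : κ → V) : |Hh Mat col S Y| ≤ 1 :=
  abs_avg_le zero_le_one fun _ => sg_abs_le _ _ _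

/-- The averaged term of `S` in the identity for `U`; `I` is the set of averaged indices. -/
noncomputable def term (Mat : (κ → V) → κ → κ → ℝ) (col : (κ → V) → V → κ → ℝ) (I U S : Finset κ) :
    ℝ :=
  avg (fun Y => ind (Pos (Mat Y) S) * (∏ z ∈ (U \ S) \ I, sg (Mat Y) S (fun i => Mat Y i z)) *
    (Hh Mat col S Y) ^ ((U \ S) ∩ I).card)

theorem avg_term (Mat : (κ → V) → κ → κ → ℝ) (col : (κ → V) → V → κ → ℝ) (I U S : Finset κ)
    (h1 : ∀ Y, ∀ z ∈ I, ∀ i, i ≠ z → Mat Y i z = col Y (Y z) i)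
    (h2 : ∀ Y, ∀ z ∈ I, ∀ v i j, i ≠ z → j ≠ z → Mat (Function.update Y z v) i j = Mat Y i j)
    (h3 : ∀ Y, ∀ z ∈ I, ∀ v u i, i ≠ z → col (Function.update Y z v) u i = col Y u i) :
    avg (fun Y => ind (Pos (Mat Y) S) * ∏ x ∈ U \ S, sg (Mat Y) S (fun i => Mat Y i x)) =
      term Mat col I U S := by
  unfold term Hh
  rw [← avg_factor ((U \ S) ∩ I)
    (fun Y => ind (Pos (Mat Y) S) * (∏ z ∈ (U \ S) \ I, sg (Mat Y) S (fun i => Mat Y i z)))
    (fun Y v => sg (Mat Y) S (col Y v))]
  · congr 1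
    funext Y
    have e1 : ∏ x ∈ U \ S, sg (Mat Y) S (fun i => Mat Y i x) =
        (∏ z ∈ (U \ S) \ I, sg (Mat Y) S (fun i => Mat Y i z)) *
        ∏ z ∈ (U \ S) ∩ I, sg (Mat Y) S (fun i => Mat Y i z) := by
      rw [← Finset.prod_union]
      · congr 1
        rw [Finset.sdiff_union_inter]
      · exact Finset.disjoint_sdiff_inter _ _
    have e2 : ∏ z ∈ (U \ S) ∩ I, sg (Mat Y) S (fun i => Mat Y i z) =
        ∏ z ∈ (U \ S) ∩ I, sg (Mat Y) S (col Y (Y z)) := by
      refine Finset.prod_congr rfl fun z hz => ?_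
      rw [Finset.mem_inter, Finset.mem_sdiff] at hz
      refine sg_congr (fun i _ j _ => rfl) fun i hi => ?_
      exact h1 Y z hz.2 i (fun e => hz.1.2 (e ▸ hi))
    rw [e1, e2]; ring
  · intro Y z hz v
    rw [Finset.mem_inter, Finset.mem_sdiff] at hz
    have hne : ∀ i ∈ S, i ≠ z := fun i hi e => hz.1.2 (e ▸ hi)
    have hM : ∀ i ∈ S, ∀ j ∈ S, Mat (Function.update Y z v) i j = Mat Y i j := fun i hi j hj =>
      h2 Y z hz.2 v i j (hne i hi) (hne j hj)
    rw [ind_congr (Pos_congr hM)]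
    congr 1
    refine Finset.prod_congr rfl fun z' hz' => ?_
    rw [Finset.mem_sdiff] at hz'
    have hzz : z' ≠ z := fun e => hz'.2 (e ▸ hz.2)
    exact sg_congr hM fun i hi => h2 Y z hz.2 v i z' (hne i hi) hzz
  · intro Y z hz v
    rw [Finset.mem_inter, Finset.mem_sdiff] at hz
    have hne : ∀ i ∈ S, i ≠ z := fun i hi e => hz.1.2 (e ▸ hi)
    funext u
    exact sg_congr (fun i hi j hj => h2 Y z hz.2 v i j (hne i hi) (hne j hj))
      (fun i hi => h3 Y z hz.2 v u i (hne i hi))

/-- The averaged main identity. -/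
theorem avg_dagger (Mat : (κ → V) → κ → κ → ℝ) (col : (κ → V) → V → κ → ℝ) (I U : Finset κ)
    (h1 : ∀ Y, ∀ z ∈ I, ∀ i, i ≠ z → Mat Y i z = col Y (Y z) i)
    (h2 : ∀ Y, ∀ z ∈ I, ∀ v i j, i ≠ z → j ≠ z → Mat (Function.update Y z v) i j = Mat Y i j)
    (h3 : ∀ Y, ∀ z ∈ I, ∀ v u i, i ≠ z → col (Function.update Y z v) u i = col Y u i)
    [Nonempty V] :
    |∑ S ∈ U.powerset, 2 ^ S.card * term Mat col I U S - (1 - (-1) ^ U.card)| ≤
      (3 ^ U.card + 2) * Pr (fun Y => ¬ Gen (Mat Y) U) := by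
  set D : (κ → V) → ℝ := fun Y => ∑ S ∈ U.powerset, ind (Pos (Mat Y) S) * 2 ^ S.card *
    ∏ x ∈ U \ S, sg (Mat Y) S (fun i => Mat Y i x) with hD
  have e1 : ∑ S ∈ U.powerset, 2 ^ S.card * term Mat col I U S = avg D := by
    rw [hD, avg_sum]
    refine Finset.sum_congr rfl fun S _ => ?_
    rw [← avg_term Mat col I U S h1 h2 h3, ← avg_const_mul]
    congr 1
    funext Y
    ring
  have e2 : avg D - (1 - (-1) ^ U.card) = avg (fun Y => D Y - (1 - (-1) ^ U.card)) := by
    rw [avg_sub, avg_const]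
  rw [e1, e2]
  calc |avg (fun Y => D Y - (1 - (-1) ^ U.card))| ≤
        avg (fun Y => |D Y - (1 - (-1) ^ U.card)|) := abs_avg_le_avg _
    _ ≤ avg (fun Y => (3 ^ U.card + 2) * ind (¬ Gen (Mat Y) U)) := by
        refine avg_mono fun Y => ?_
        by_cases hG : Gen (Mat Y) U
        · rw [ind_neg (by tauto)]
          have : D Y = 1 - (-1) ^ U.card := dagger (Mat Y) U hG
          rw [this]; simp
        · rw [ind_pos_iff hG, mul_one]
          have hb : |D Y| ≤ 3 ^ U.card := by
            calc |D Y| ≤ ∑ S ∈ U.powerset, |ind (Pos (Mat Y) S) * 2 ^ S.card *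
                  ∏ x ∈ U \ S, sg (Mat Y) S (fun i => Mat Y i x)| :=
                  Finset.abs_sum_le_sum_abs _ _
              _ ≤ ∑ S ∈ U.powerset, 2 ^ S.card := by
                  refine Finset.sum_le_sum fun S _ => ?_
                  rw [abs_mul, abs_mul, Finset.abs_prod]
                  have a1 : |ind (Pos (Mat Y) S)| ≤ 1 := by
                    rw [abs_of_nonneg (ind_nonneg _)]; exact ind_le_one _
                  have a2 : ∏ x ∈ U \ S, |sg (Mat Y) S (fun i => Mat Y i x)| ≤ 1 :=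
                    Finset.prod_le_one (fun x _ => abs_nonneg _) fun x _ => sg_abs_le _ _ _
                  have a3 : 0 ≤ ∏ x ∈ U \ S, |sg (Mat Y) S (fun i => Mat Y i x)| :=
                    Finset.prod_nonneg fun x _ => abs_nonneg _
                  have a4 : |(2 : ℝ) ^ S.card| = 2 ^ S.card := abs_of_nonneg (by positivity)
                  rw [a4]
                  have a5 : (0 : ℝ) < 2 ^ S.card := by positivity
                  calc |ind (Pos (Mat Y) S)| * 2 ^ S.card *
                        ∏ x ∈ U \ S, |sg (Mat Y) S (fun i => Mat Y i x)| ≤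
                        1 * 2 ^ S.card * 1 := by
                        apply mul_le_mul _ a2 a3 (by positivity)
                        exact mul_le_mul_of_nonneg_right a1 a5.le
                    _ = 2 ^ S.card := by ring
              _ = 3 ^ U.card := by
                  have := Finset.sum_pow_mul_eq_add_pow (2 : ℝ) 1 U
                  simp only [one_pow, mul_one] at this
                  rw [this]; norm_num
          have hs : |(1 - (-1) ^ U.card : ℝ)| ≤ 2 := by
            rcases neg_one_pow_eq_or ℝ U.card with h | h <;> rw [h] <;> norm_num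
          calc |D Y - (1 - (-1) ^ U.card)| ≤ |D Y| + |(1 - (-1) ^ U.card : ℝ)| := abs_sub _ _
            _ ≤ 3 ^ U.card + 2 := add_le_add hb hs
    _ = (3 ^ U.card + 2) * Pr (fun Y => ¬ Gen (Mat Y) U) := by
        rw [avg_const_mul]; rfl

theorem term_nonneg (Mat : (κ → V) → κ → κ → ℝ) (col : (κ → V) → V → κ → ℝ) (I U S : Finset κ)
    (hI : U \ S ⊆ I) (hE : Even (U \ S).card) : 0 ≤ term Mat col I U S := by
  unfold term
  have e1 : (U \ S) \ I = ∅ := Finset.sdiff_eq_empty_iff_subset.2 hI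
  have e2 : (U \ S) ∩ I = U \ S := Finset.inter_eq_left.2 hI
  rw [e1, e2]
  refine avg_nonneg fun Y => ?_
  simp only [Finset.prod_empty, mul_one]
  exact mul_nonneg (ind_nonneg _) (hE.pow_nonneg _)

theorem term_abs_le (Mat : (κ → V) → κ → κ → ℝ) (col : (κ → V) → V → κ → ℝ) (I U S : Finset κ)
    (hI : ((U \ S) ∩ I).Nonempty) :
    |term Mat col I U S| ≤ avg (fun Y => ind (Pos (Mat Y) S) * |Hh Mat col S Y|) := by
  unfold term
  refine (abs_avg_le_avg _).trans (avg_mono fun Y => ?_)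
  rw [abs_mul, abs_mul, Finset.abs_prod, abs_of_nonneg (ind_nonneg _), abs_pow]
  have a2 : ∏ x ∈ (U \ S) \ I, |sg (Mat Y) S (fun i => Mat Y i x)| ≤ 1 :=
    Finset.prod_le_one (fun x _ => abs_nonneg _) fun x _ => sg_abs_le _ _ _
  have a3 : 0 ≤ ∏ x ∈ (U \ S) \ I, |sg (Mat Y) S (fun i => Mat Y i x)| :=
    Finset.prod_nonneg fun x _ => abs_nonneg _
  have a4 : |Hh Mat col S Y| ^ ((U \ S) ∩ I).card ≤ |Hh Mat col S Y| :=
    pow_le_of_le_one (abs_nonneg _) (Hh_abs_le _ _ _ _) (Finset.card_pos.2 hI).ne'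
  calc ind (Pos (Mat Y) S) * (∏ x ∈ (U \ S) \ I, |sg (Mat Y) S (fun i => Mat Y i x)|) *
        |Hh Mat col S Y| ^ ((U \ S) ∩ I).card
      ≤ ind (Pos (Mat Y) S) * 1 * |Hh Mat col S Y| := by
        apply mul_le_mul _ a4 (pow_nonneg (abs_nonneg _) _)
          (mul_nonneg (ind_nonneg _) zero_le_one)
        exact mul_le_mul_of_nonneg_left a2 (ind_nonneg _)
    _ = ind (Pos (Mat Y) S) * |Hh Mat col S Y| := by ring

end main

end H51.Car
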