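import Mathlib
import Pool.Agent.H51.Car.Core

/-!
# Even tournament matrices are nonsingular
-/

open Finset Filter Topology

namespace H51.Car

theorem det_ne_zero_of_even {ι : Type*} [Fintype ι] [DecidableEq ι] (B : ι → ι → ℤ) (hB : IsT B)
    (hE : Even (Fintype.card ι)) : (Matrix.of fun i j => (B i j : ℝ)).det ≠ 0 := by
  set A : Matrix ι ι ℤ := Matrix.of fun i j => B i j with hA
  have hreal : (Matrix.of fun i j => (B i j : ℝ)) = A.map (Int.castRingHom ℝ) := by
    ext i j; simp [hA]
  have hdet : (A.map (Int.castRingHom ℝ)).det = ((A.det : ℤ) : ℝ) := by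
    have := (RingHom.map_det (Int.castRingHom ℝ) A).symm
    simpa using this
  rw [hreal, hdet]
  have h2 : A.det ≠ 0 := by
    intro h0
    have h3 : (A.map (Int.castRingHom (ZMod 2))).det = 0 := by
      have := (RingHom.map_det (Int.castRingHom (ZMod 2)) A).symm
      rw [h0] at this
      simpa using this
    have h4 : A.map (Int.castRingHom (ZMod 2)) = Matrix.of (fun i j : ι => if i = j then (0 : ZMod 2) else 1) := by
      ext i j
      simp only [Matrix.map_apply, hA, Matrix.of_apply]
      by_cases hij : i = j
      · subst hij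
        have : B i i = 0 := by have := hB.skew i i; omega
        simp [this]
      · rw [if_neg hij]
        rcases hB.pm i j hij with h | h <;> rw [h]
        · simp
        · simp
    rw [h4] at h3
    set Jm : Matrix ι ι (ZMod 2) := Matrix.of (fun i j : ι => if i = j then (0 : ZMod 2) else 1) with hJ
    have h5 : Jm * Jm = 1 := by
      set J : Matrix ι ι (ZMod 2) := Matrix.of (fun _ _ : ι => (1 : ZMod 2)) with hJJ
      have hJm : Jm = J - 1 := by
        ext i j
        simp only [hJ, hJJ, Matrix.of_apply, Matrix.sub_apply, Matrix.one_apply]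
        by_cases hij : i = j <;> simp [hij]
      have hJ2 : J * J = 0 := by
        ext i j
        rw [Matrix.mul_apply]
        simp only [hJJ, Matrix.of_apply, mul_one, Matrix.zero_apply]
        rw [Finset.sum_const, Finset.card_univ, nsmul_eq_mul, mul_one]
        obtain ⟨m, hm⟩ := hE
        rw [hm]
        push_cast
        have h2 : (2 : ZMod 2) = 0 := by decide
        linear_combination (m : ZMod 2) * h2
      have hJa : J + J = 0 := by
        ext i j
        simp only [hJJ, Matrix.add_apply, Matrix.of_apply, Matrix.zero_apply]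
        decide
      rw [hJm]
      have : (J - 1) * (J - 1) = J * J - (J + J) + 1 := by
        rw [sub_mul, mul_sub, mul_one, one_mul]; abel
      rw [this, hJ2, hJa]; simp
    have h6 : Jm.det * Jm.det = 1 := by
      rw [← Matrix.det_mul, h5, Matrix.det_one]
    rw [h3] at h6
    simp at h6
  exact_mod_cast h2

/-- Nonsingularity of a matrix on a finset from the determinant of the restriction. -/
theorem ker_zero_of_det {κ : Type*} [DecidableEq κ] (M : κ → κ → ℝ) (Z : Finset κ)
    (h : (Matrix.of fun i j : Z => M i j).det ≠ 0) (w : κ → ℝ)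
    (hw : ∀ j ∈ Z, ∑ i ∈ Z, w i * M i j = 0) : ∀ i ∈ Z, w i = 0 := by
  have h1 : Matrix.vecMul (fun i : Z => w i) (Matrix.of fun i j : Z => M i j) = 0 := by
    funext j
    simp only [Matrix.vecMul, dotProduct, Matrix.of_apply, Pi.zero_apply]
    rw [← hw j j.2, ← Finset.sum_coe_sort Z]
  have h2 := Matrix.eq_zero_of_vecMul_eq_zero h h1
  intro i hi
  exact congrFun h2 ⟨i, hi⟩

theorem gen_isT {κ : Type*} [Fintype κ] [DecidableEq κ] (B : κ → κ → ℤ) (hB : IsT B) :
    Gen (fun i j => (B i j : ℝ)) univ := by
  refine ⟨fun i _ j _ => by simp only [hB.skew i j]; push_cast; ring, ?_⟩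
  intro Z _ hZ w hw
  refine ker_zero_of_det _ Z ?_ w hw
  have hB' : IsT (fun i j : Z => B i j) :=
    ⟨fun i j => hB.skew i j, fun i j hij => hB.pm i j (fun h => hij (Subtype.ext h))⟩
  have := det_ne_zero_of_even (fun i j : Z => B i j) hB' (by rw [Fintype.card_coe]; exact hZ)
  exact this

end H51.Car
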