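import Mathlib
import Pool.Agent.H51.Car.Avg
import Pool.Agent.H51.Car.Odd

/-!
# Sequences of hosts: limits of the terms of the averaged identity
-/

open Finset Filter Topology

namespace H51.Car

/-! ### Elementary limits -/

/-- A finite sum of nonnegative functions tending to `0`: each of them tends to `0`. -/
theorem tendsto_each {ι : Type*} (A : Finset ι) (f : ι → ℕ → ℝ) (h0 : ∀ i ∈ A, ∀ᶠ m in atTop, 0 ≤ f i m)
    (h : Tendsto (fun m => ∑ i ∈ A, f i m) atTop (𝓝 0)) (i : ι) (hi : i ∈ A) :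
    Tendsto (f i) atTop (𝓝 0) := by
  refine tendsto_of_tendsto_of_tendsto_of_le_of_le' tendsto_const_nhds h (h0 i hi) ?_
  have hall : ∀ᶠ m in atTop, ∀ j ∈ A, 0 ≤ f j m := by
    rw [Filter.eventually_all_finset]
    exact h0
  filter_upwards [hall] with m hm
  exact Finset.single_le_sum (f := fun j => f j m) hm hi

/-- If `avg (F * H^p) → 0` with `p > 0` even then `avg (F * |H|) → 0`. -/
theorem tendsto_avg_abs {α : ℕ → Type*} [∀ m, Fintype (α m)] (F H : ∀ m, α m → ℝ)
    (hF0 : ∀ m a, 0 ≤ F m a) (hF1 : ∀ m a, F m a ≤ 1) (p : ℕ) (hp : Even p) (hp0 : 0 < p)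
    (h : Tendsto (fun m => avg (fun a => F m a * H m a ^ p)) atTop (𝓝 0)) :
    Tendsto (fun m => avg (fun a => F m a * |H m a|)) atTop (𝓝 0) := by
  have hnn : ∀ m, 0 ≤ avg (fun a => F m a * |H m a|) := fun m =>
    avg_nonneg fun a => mul_nonneg (hF0 m a) (abs_nonneg _)
  rw [Metric.tendsto_atTop]
  intro ε hε
  set e := ε / 2 with he
  have he0 : 0 < e := by positivity
  have hbound : ∀ m, avg (fun a => F m a * |H m a|) ≤
      e + (1 / e ^ (p - 1)) * avg (fun a => F m a * H m a ^ p) := by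
    intro m
    rcases isEmpty_or_nonempty (α m) with hem | hne
    · unfold avg
      simp
      positivity
    · have e1 : e + (1 / e ^ (p - 1)) * avg (fun a => F m a * H m a ^ p) =
          avg (fun a => e + (1 / e ^ (p - 1)) * (F m a * H m a ^ p)) := by
        rw [avg_add, avg_const, avg_const_mul]
      rw [e1]
      refine avg_mono fun a => ?_
      by_cases hle : |H m a| ≤ e
      · have h1 : F m a * |H m a| ≤ 1 * e := mul_le_mul (hF1 m a) hle (abs_nonneg _) zero_le_one
        have h2 : 0 ≤ 1 / e ^ (p - 1) * (F m a * H m a ^ p) :=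
          mul_nonneg (by positivity) (mul_nonneg (hF0 m a) (hp.pow_nonneg _))
        linarith
      · push Not at hle
        have h1 : |H m a| ≤ (1 / e ^ (p - 1)) * H m a ^ p := by
          rw [← hp.pow_abs]
          have h3 : e ^ (p - 1) ≤ |H m a| ^ (p - 1) := pow_le_pow_left₀ he0.le hle.le _
          have h4 : |H m a| ^ p = |H m a| * |H m a| ^ (p - 1) := by
            rw [← pow_succ']; congr 1; omega
          rw [h4, one_div, inv_mul_eq_div, le_div_iff₀ (by positivity)]
          exact mul_le_mul_of_nonneg_left h3 (abs_nonneg _)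
        have h5 : F m a * |H m a| ≤ F m a * ((1 / e ^ (p - 1)) * H m a ^ p) :=
          mul_le_mul_of_nonneg_left h1 (hF0 m a)
        have h6 : F m a * ((1 / e ^ (p - 1)) * H m a ^ p) =
          1 / e ^ (p - 1) * (F m a * H m a ^ p) := by ring
        linarith
  have h2 : Tendsto (fun m => (1 / e ^ (p - 1)) * avg (fun a => F m a * H m a ^ p)) atTop (𝓝 0) := by
    have := h.const_mul (1 / e ^ (p - 1))
    rwa [mul_zero] at this
  obtain ⟨M, hM⟩ := (Metric.tendsto_atTop.1 h2) e he0
  refine ⟨M, fun m hm => ?_⟩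
  have h3 := hM m hm
  rw [Real.dist_eq, sub_zero] at h3 ⊢
  rw [abs_of_nonneg (hnn m)]
  have h4 := hbound m
  have h5 := le_abs_self ((1 / e ^ (p - 1)) * avg (fun a => F m a * H m a ^ p))
  linarith

/-- A sequence of hosts. -/
structure Host (κ : Type) [DecidableEq κ] where
  V : ℕ → Type
  fV : ∀ m, Fintype (V m)
  neV : ∀ᶠ m in atTop, Nonempty (V m)
  I : Finset κ
  Mat : ∀ m, (κ → V m) → κ → κ → ℝ
  col : ∀ m, (κ → V m) → V m → κ → ℝ
  h1 : ∀ m Y, ∀ z ∈ I, ∀ i, i ≠ z → Mat m Y i z = col m Y (Y z) i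
  h2 : ∀ m Y, ∀ z ∈ I, ∀ v i j, i ≠ z → j ≠ z → Mat m (Function.update Y z v) i j = Mat m Y i j
  h3 : ∀ m Y, ∀ z ∈ I, ∀ v u i, i ≠ z → col m (Function.update Y z v) u i = col m Y u i

attribute [instance] Host.fV

namespace Host

variable {κ : Type} [Fintype κ] [DecidableEq κ] (H : Host κ)

/-- the term of `S` in the identity for `U` -/
noncomputable def t (U S : Finset κ) (m : ℕ) : ℝ := term (H.Mat m) (H.col m) H.I U S

/-- first absolute moment of the conditional mean -/
noncomputable def E (S : Finset κ) (m : ℕ) : ℝ :=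
  avg (fun Y : κ → H.V m => ind (Pos (H.Mat m Y) S) * |Hh (H.Mat m) (H.col m) S Y|)

/-- probability of positivity -/
noncomputable def P (S : Finset κ) (m : ℕ) : ℝ := Pr (fun Y : κ → H.V m => Pos (H.Mat m Y) S)

/-- probability of non-genericity -/
noncomputable def g (U : Finset κ) (m : ℕ) : ℝ := Pr (fun Y : κ → H.V m => ¬ Gen (H.Mat m Y) U)

theorem sum_t (U : Finset κ) (hg : Tendsto (H.g U) atTop (𝓝 0)) :
    Tendsto (fun m => ∑ S ∈ U.powerset, 2 ^ S.card * H.t U S m) atTop
      (𝓝 (1 - (-1) ^ U.card)) := by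
  rw [tendsto_iff_norm_sub_tendsto_zero]
  have h1 : Tendsto (fun m => (3 ^ U.card + 2) * H.g U m) atTop (𝓝 0) := by
    have := hg.const_mul ((3 : ℝ) ^ U.card + 2)
    rwa [mul_zero] at this
  refine tendsto_of_tendsto_of_tendsto_of_le_of_le' tendsto_const_nhds h1
    (Filter.Eventually.of_forall fun m => norm_nonneg _) ?_
  filter_upwards [H.neV] with m hm
  rw [Real.norm_eq_abs]
  exact avg_dagger (H.Mat m) (H.col m) H.I U (H.h1 m) (H.h2 m) (H.h3 m)

theorem abs_t_le (U S : Finset κ) (m : ℕ) : |H.t U S m| ≤ H.P S m := by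
  unfold t term P Pr
  refine (abs_avg_le_avg _).trans (avg_mono fun Y => ?_)
  rw [abs_mul, abs_mul, Finset.abs_prod, abs_of_nonneg (ind_nonneg _), abs_pow]
  have a2 : ∏ x ∈ (U \ S) \ H.I, |sg (H.Mat m Y) S (fun i => H.Mat m Y i x)| ≤ 1 :=
    Finset.prod_le_one (fun x _ => abs_nonneg _) fun x _ => sg_abs_le _ _ _
  have a3 : 0 ≤ ∏ x ∈ (U \ S) \ H.I, |sg (H.Mat m Y) S (fun i => H.Mat m Y i x)| :=
    Finset.prod_nonneg fun x _ => abs_nonneg _
  have a4 : |Hh (H.Mat m) (H.col m) S Y| ^ ((U \ S) ∩ H.I).card ≤ 1 :=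
    pow_le_one₀ (abs_nonneg _) (Hh_abs_le _ _ _ _)
  calc _ ≤ ind (Pos (H.Mat m Y) S) * 1 * 1 := by
        apply mul_le_mul _ a4 (pow_nonneg (abs_nonneg _) _)
          (mul_nonneg (ind_nonneg _) zero_le_one)
        exact mul_le_mul_of_nonneg_left a2 (ind_nonneg _)
    _ = _ := by ring

/-- sets that are never positive for generic payoffs -/
theorem P_le_g (U S : Finset κ) (h : ∀ m Y, Gen (H.Mat m Y) U → ¬ Pos (H.Mat m Y) S) (m : ℕ) :
    H.P S m ≤ H.g U m :=
  Pr_mono fun Y hP hG => h m Y hG hP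

theorem t_tendsto_of_P (U S : Finset κ) (h : Tendsto (H.P S) atTop (𝓝 0)) :
    Tendsto (H.t U S) atTop (𝓝 0) := by
  rw [tendsto_zero_iff_abs_tendsto_zero]
  exact tendsto_of_tendsto_of_tendsto_of_le_of_le tendsto_const_nhds h
    (fun m => abs_nonneg _) (fun m => H.abs_t_le U S m)

theorem P_tendsto_of_g (U S : Finset κ) (hg : Tendsto (H.g U) atTop (𝓝 0))
    (h : ∀ m Y, Gen (H.Mat m Y) U → ¬ Pos (H.Mat m Y) S) : Tendsto (H.P S) atTop (𝓝 0) :=
  tendsto_of_tendsto_of_tendsto_of_le_of_le tendsto_const_nhds hg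
    (fun m => Pr_nonneg _) (fun m => H.P_le_g U S h m)

theorem P_even (U S : Finset κ) (hS : S ⊆ U) (hE : Even S.card)
    (hg : Tendsto (H.g U) atTop (𝓝 0)) : Tendsto (H.P S) atTop (𝓝 0) := by
  refine H.P_tendsto_of_g U S hg fun m Y hG hP => ?_
  exact (Nat.not_odd_iff_even.2 hE) (Pos.odd hG hS hP)

theorem t_even (U S : Finset κ) (hS : S ⊆ U) (hE : Even S.card)
    (hg : Tendsto (H.g U) atTop (𝓝 0)) : Tendsto (H.t U S) atTop (𝓝 0) :=
  H.t_tendsto_of_P U S (H.P_even U S hS hE hg)

theorem t_self (U : Finset κ) (m : ℕ) : H.t U U m = H.P U m := by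
  unfold t term P Pr
  simp

theorem t_nonneg (U S : Finset κ) (hI : U \ S ⊆ H.I) (hU : Odd U.card) (hS : Odd S.card)
    (hSU : S ⊆ U) (m : ℕ) : 0 ≤ H.t U S m := by
  refine term_nonneg _ _ _ _ _ hI ?_
  rw [Finset.card_sdiff_of_subset hSU]
  exact Nat.Odd.sub_odd hU hS

theorem t_tendsto_of_E (U S : Finset κ) (hI : ((U \ S) ∩ H.I).Nonempty)
    (h : Tendsto (H.E S) atTop (𝓝 0)) : Tendsto (H.t U S) atTop (𝓝 0) := by
  rw [tendsto_zero_iff_abs_tendsto_zero]
  exact tendsto_of_tendsto_of_tendsto_of_le_of_le tendsto_const_nhds h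
    (fun m => abs_nonneg _) (fun m => term_abs_le _ _ _ _ _ hI)

theorem E_of_t (U S : Finset κ) (hI : U \ S ⊆ H.I) (hU : Odd U.card) (hS : Odd S.card)
    (hSU : S ⊂ U) (h : Tendsto (H.t U S) atTop (𝓝 0)) : Tendsto (H.E S) atTop (𝓝 0) := by
  have hE : Even (U \ S).card := by
    rw [Finset.card_sdiff_of_subset hSU.1]
    exact Nat.Odd.sub_odd hU hS
  have hpos : 0 < (U \ S).card :=
    Finset.card_pos.2 (Finset.sdiff_nonempty.2 hSU.2)
  have e1 : (U \ S) \ H.I = ∅ := Finset.sdiff_eq_empty_iff_subset.2 hI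
  have e2 : (U \ S) ∩ H.I = U \ S := Finset.inter_eq_left.2 hI
  refine tendsto_avg_abs (α := fun m => (κ → H.V m)) (fun m Y => ind (Pos (H.Mat m Y) S))
    (fun m Y => Hh (H.Mat m) (H.col m) S Y) (fun m Y => ind_nonneg _) (fun m Y => ind_le_one _)
    (U \ S).card hE hpos ?_
  refine h.congr fun m => ?_
  unfold t term
  rw [e1, e2]
  simp

/-- If all terms but one tend to zero, the last one is determined. -/
theorem single (U S0 : Finset κ) (hU : Odd U.card) (hg : Tendsto (H.g U) atTop (𝓝 0))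
    (hS0 : S0 ⊆ U) (h : ∀ S ⊆ U, S ≠ S0 → Odd S.card → Tendsto (H.t U S) atTop (𝓝 0)) :
    Tendsto (fun m => 2 ^ S0.card * H.t U S0 m) atTop (𝓝 2) := by
  have h1 := H.sum_t U hg
  rw [hU.neg_one_pow] at h1
  have h2 : Tendsto (fun m => ∑ S ∈ U.powerset.erase S0, 2 ^ S.card * H.t U S m) atTop (𝓝 0) := by
    have : (0 : ℝ) = ∑ S ∈ U.powerset.erase S0, 2 ^ S.card * 0 := by simp
    rw [this]
    refine tendsto_finsetSum _ fun S hS => ?_
    rw [Finset.mem_erase, Finset.mem_powerset] at hS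
    rcases Nat.even_or_odd S.card with he | ho
    · exact (H.t_even U S hS.2 he hg).const_mul _
    · exact (h S hS.2 hS.1 ho).const_mul _
  have h3 := h1.sub h2
  refine (h3.congr fun m => ?_).trans (by norm_num)
  rw [← Finset.add_sum_erase _ _ (Finset.mem_powerset.2 hS0)]
  ring

theorem P_tendsto (U : Finset κ) (hU : Odd U.card) (hg : Tendsto (H.g U) atTop (𝓝 0))
    (h : ∀ S ⊂ U, Odd S.card → Tendsto (H.t U S) atTop (𝓝 0)) :
    Tendsto (H.P U) atTop (𝓝 ((1 / 2) ^ (U.card - 1))) := by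
  have h1 := H.single U U hU hg Subset.rfl
    (fun S hS hne ho => h S (Finset.ssubset_iff_subset_ne.2 ⟨hS, hne⟩) ho)
  have h2 := h1.const_mul ((1 / 2 : ℝ) ^ U.card)
  have e1 : (1 / 2 : ℝ) ^ U.card * 2 = (1 / 2) ^ (U.card - 1) := by
    have : U.card = (U.card - 1) + 1 := by
      have := hU.pos; omega
    conv_lhs => rw [this, pow_succ]
    ring
  rw [e1] at h2
  refine h2.congr fun m => ?_
  rw [H.t_self, ← mul_assoc, ← mul_pow]
  norm_num

/-- The equality case: if `P U` is asymptotically at least `2^(1-|U|)` and all other terms are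
asymptotically nonnegative, then all of them tend to `0`. -/
theorem conclude (U : Finset κ) (hU : Odd U.card) (hg : Tendsto (H.g U) atTop (𝓝 0))
    (h : ∀ S ⊂ U, Odd S.card → Tendsto (H.t U S) atTop (𝓝 0) ∨ ∀ m, 0 ≤ H.t U S m)
    (e : ℕ → ℝ) (he : Tendsto e atTop (𝓝 ((1 / 2) ^ (U.card - 1))))
    (hle : ∀ᶠ m in atTop, e m ≤ H.P U m) :
    ∀ S ⊂ U, Odd S.card → Tendsto (H.t U S) atTop (𝓝 0) := by
  classical
  have h1 := H.sum_t U hg
  rw [hU.neg_one_pow] at h1
  -- modified family of nonnegative functions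
  set f : Finset κ → ℕ → ℝ := fun S m =>
    if S = U then 2 ^ U.card * (H.P U m - e m)
    else if Odd S.card ∧ ∀ m, 0 ≤ H.t U S m then 2 ^ S.card * H.t U S m else 0 with hf
  have hsum : Tendsto (fun m => ∑ S ∈ U.powerset, f S m) atTop (𝓝 0) := by
    have h2 : Tendsto (fun m => ∑ S ∈ U.powerset, (2 ^ S.card * H.t U S m - f S m)) atTop
        (𝓝 (∑ S ∈ U.powerset, if S = U then 2 else 0)) := by
      refine tendsto_finsetSum _ fun S hS => ?_
      rw [Finset.mem_powerset] at hS
      by_cases hSU : S = U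
      · rw [if_pos hSU]
        have : Tendsto (fun m => 2 ^ U.card * e m) atTop (𝓝 (2 ^ U.card * (1 / 2) ^ (U.card - 1))) :=
          he.const_mul _
        have e1 : (2 : ℝ) ^ U.card * (1 / 2) ^ (U.card - 1) = 2 := by
          have : U.card = (U.card - 1) + 1 := by
            have := hU.pos; omega
          conv_lhs => rw [this, pow_succ, Nat.add_sub_cancel]
          rw [mul_assoc, mul_comm (2 : ℝ) _, ← mul_assoc, ← mul_pow]
          norm_num
        rw [e1] at this
        refine this.congr fun m => ?_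
        simp only [hf, hSU, if_true]
        rw [H.t_self]; ring
      · rw [if_neg hSU]
        have hSS : S ⊂ U := Finset.ssubset_iff_subset_ne.2 ⟨hS, hSU⟩
        by_cases hc : Odd S.card ∧ ∀ m, 0 ≤ H.t U S m
        · refine tendsto_const_nhds.congr fun m => ?_
          simp only [hf]
          rw [if_neg hSU, if_pos hc]; ring
        · have ht : Tendsto (H.t U S) atTop (𝓝 0) := by
            rcases Nat.even_or_odd S.card with hev | ho
            · exact H.t_even U S hS hev hg
            · rcases h S hSS ho with h3 | h3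
              · exact h3
              · exact absurd ⟨ho, h3⟩ hc
          have := ht.const_mul ((2 : ℝ) ^ S.card)
          rw [mul_zero] at this
          refine this.congr fun m => ?_
          simp only [hf]
          rw [if_neg hSU, if_neg hc]; ring
    rw [Finset.sum_ite_eq' U.powerset U] at h2
    simp only [Finset.mem_powerset_self, if_true] at h2
    have h3 := h1.sub h2
    refine (h3.congr fun m => ?_).trans (by norm_num)
    rw [← Finset.sum_sub_distrib]
    refine Finset.sum_congr rfl fun S _ => ?_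
    ring
  have hnn : ∀ S ∈ U.powerset, ∀ᶠ m in atTop, 0 ≤ f S m := by
    intro S _
    by_cases hSU : S = U
    · filter_upwards [hle] with m hm
      simp only [hf, hSU, if_true]
      have : 0 ≤ H.P U m - e m := by linarith
      positivity
    · by_cases hc : Odd S.card ∧ ∀ m, 0 ≤ H.t U S m
      · filter_upwards with m
        simp only [hf]
        rw [if_neg hSU, if_pos hc]
        exact mul_nonneg (by positivity) (hc.2 m)
      · filter_upwards with m
        simp only [hf]
        rw [if_neg hSU, if_neg hc]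
  intro S hSS ho
  rcases h S hSS ho with h3 | h3
  · exact h3
  · have h4 := tendsto_each U.powerset f hnn hsum S (Finset.mem_powerset.2 hSS.1)
    have h5 : Tendsto (fun m => 2 ^ S.card * H.t U S m) atTop (𝓝 0) := by
      refine h4.congr fun m => ?_
      simp only [hf]
      rw [if_neg (Finset.ssubset_iff_subset_ne.1 hSS).2, if_pos ⟨ho, h3⟩]
    have h6 := h5.const_mul ((1 / 2 : ℝ) ^ S.card)
    rw [mul_zero] at h6
    refine h6.congr fun m => ?_
    rw [← mul_assoc, ← mul_pow]
    norm_num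

end Host

end H51.Car
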