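import Mathlib
import Pool.Agent.H51.Car.Host

/-!
# The base host: the inequality and its equality case
-/

open Finset Filter Topology

namespace H51.Car

/-! ### Tuples -/

section tuples
variable {κ V : Type*} [Fintype κ] [DecidableEq κ] [Fintype V]

theorem Pr_eq_pair {i j : κ} (hij : i ≠ j) :
    Pr (fun Y : κ → V => Y i = Y j) ≤ 1 / (Fintype.card V : ℝ) := by
  unfold Pr
  rw [← avg_update i]
  have e1 : ∀ Y : κ → V, avg (fun v : V => ind (Function.update Y i v i = Function.update Y i v j)) =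
      1 / (Fintype.card V : ℝ) := by
    intro Y
    have e2 : ∀ v : V, ind (Function.update Y i v i = Function.update Y i v j) = ind (v = Y j) := by
      intro v
      rw [Function.update_self, Function.update_of_ne hij.symm]
    simp only [e2]
    unfold avg
    congr 1
    rw [Finset.sum_eq_single (Y j)]
    · exact ind_pos_iff rfl
    · intro v _ hv; exact ind_neg hv
    · intro h; exact absurd (Finset.mem_univ _) h
  simp only [e1]
  rcases isEmpty_or_nonempty (κ → V) with he | hne
  · unfold avg; simp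
  · rw [avg_const]

theorem Pr_notInj :
    Pr (fun Y : κ → V => ¬ Function.Injective Y) ≤
      (Fintype.card κ : ℝ) ^ 2 / (Fintype.card V : ℝ) := by
  have h1 : Pr (fun Y : κ → V => ¬ Function.Injective Y) ≤
      Pr (fun Y : κ → V => ∃ p : κ × κ, p ∈ (Finset.univ : Finset κ).offDiag ∧ Y p.1 = Y p.2) := by
    refine Pr_mono fun Y hY => ?_
    unfold Function.Injective at hY
    push Not at hY
    obtain ⟨a, b, h, hne⟩ := hY
    exact ⟨(a, b), Finset.mem_offDiag.2 ⟨Finset.mem_univ _, Finset.mem_univ _, hne⟩, h⟩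
  refine h1.trans ((Pr_exists_le _ (fun (p : κ × κ) (Y : κ → V) => Y p.1 = Y p.2)).trans ?_)
  calc ∑ p ∈ (Finset.univ : Finset κ).offDiag, Pr (fun Y : κ → V => Y p.1 = Y p.2)
      ≤ ∑ p ∈ (Finset.univ : Finset κ).offDiag, 1 / (Fintype.card V : ℝ) := by
        refine Finset.sum_le_sum fun p hp => ?_
        exact Pr_eq_pair (Finset.mem_offDiag.1 hp).2.2
    _ = ((Finset.univ : Finset κ).offDiag.card : ℝ) / (Fintype.card V : ℝ) := by
        rw [Finset.sum_const, nsmul_eq_mul, mul_one_div]
    _ ≤ (Fintype.card κ : ℝ) ^ 2 / (Fintype.card V : ℝ) := by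
        apply div_le_div_of_nonneg_right _ (Nat.cast_nonneg _)
        rw [Finset.offDiag_card, Finset.card_univ, sq]
        have : Fintype.card κ * Fintype.card κ - Fintype.card κ ≤ Fintype.card κ * Fintype.card κ :=
          Nat.sub_le _ _
        exact_mod_cast this

theorem avg_pull {ι : Type*} [Fintype ι] [DecidableEq ι] [Nonempty V] (e : ι → κ)
    (he : Function.Injective e) (F : (ι → V) → ℝ) :
    avg (fun Y : κ → V => F (fun i => Y (e i))) = avg F := by
  classical
  let E1 := Equiv.piEquivPiSubtypeProd (fun k => k ∈ Set.range e) (fun _ : κ => V)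
  have h1 : avg (fun Y : κ → V => F (fun i => Y (e i))) =
      avg (fun p : ({k // k ∈ Set.range e} → V) × ({k // ¬ k ∈ Set.range e} → V) =>
        F (fun i => p.1 ⟨e i, i, rfl⟩)) := by
    rw [← avg_equiv E1]
    rfl
  rw [h1, avg_prod]
  simp only [avg_const]
  let E2 : ι ≃ Set.range e := Equiv.ofInjective e he
  have h2 := avg_equiv (Equiv.arrowCongr E2 (Equiv.refl V)).symm F
  rw [← h2]
  congr 1

end tuples

theorem sg_singleton {κ : Type*} (M : κ → κ → ℝ) (i0 : κ) (h : M i0 i0 = 0) (b : κ → ℝ) :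
    sg M {i0} b = if 0 < b i0 then 1 else if b i0 < 0 then -1 else 0 := by
  have hk : Ker M {i0} (fun _ => 1) := by
    refine ⟨fun _ _ => one_pos, fun j hj => ?_⟩
    rw [Finset.mem_singleton] at hj
    rw [Finset.sum_singleton, hj, h, mul_zero]
  have e1 : (∃ w, Ker M {i0} w ∧ 0 < ∑ i ∈ {i0}, w i * b i) ↔ 0 < b i0 := by
    constructor
    · rintro ⟨w, hw, hlt⟩
      rw [Finset.sum_singleton] at hlt
      have := hw.1 i0 (Finset.mem_singleton_self _)
      exact (mul_pos_iff_of_pos_left this).1 hlt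
    · intro hb
      exact ⟨_, hk, by rw [Finset.sum_singleton, one_mul]; exact hb⟩
  have e2 : (∃ w, Ker M {i0} w ∧ ∑ i ∈ {i0}, w i * b i < 0) ↔ b i0 < 0 := by
    constructor
    · rintro ⟨w, hw, hlt⟩
      rw [Finset.sum_singleton] at hlt
      have := hw.1 i0 (Finset.mem_singleton_self _)
      by_contra hc
      push Not at hc
      have := mul_nonneg this.le hc
      linarith
    · intro hb
      exact ⟨_, hk, by rw [Finset.sum_singleton, one_mul]; exact hb⟩
  unfold sg
  by_cases c1 : 0 < b i0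
  · rw [if_pos (e1.2 c1), if_pos c1]
  · rw [if_neg (fun h => c1 (e1.1 h)), if_neg c1]
    by_cases c2 : b i0 < 0
    · rw [if_pos (e2.2 c2), if_pos c2]
    · rw [if_neg (fun h => c2 (e2.1 h)), if_neg c2]

/-! ### Sums over the alternating tournament -/

theorem alt_sum_aux (b : ℕ) : ∀ r : ℕ, 2 * ∑ a ∈ Finset.range r,
    (if a < b then (-1 : ℤ) ^ (a + b) else if b < a then -(-1) ^ (a + b) else 0) =
    if r ≤ b then (-1) ^ b * (1 - (-1) ^ r) else (-1) ^ b * (1 + (-1) ^ r) := by
  intro r
  induction r with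
  | zero => simp
  | succ r ih =>
    rw [Finset.sum_range_succ, mul_add, ih]
    have hb : ((-1 : ℤ) ^ b) * (-1) ^ b = 1 := by rw [← mul_pow]; simp
    rcases lt_trichotomy r b with h | h | h
    · rw [if_pos h.le, if_pos h, if_pos (by omega : r + 1 ≤ b), pow_add, pow_succ]
      ring
    · subst h
      rw [if_pos le_rfl, if_neg (lt_irrefl _), if_neg (lt_irrefl _), if_neg (by omega : ¬ r + 1 ≤ r), pow_succ]
      ring
    · rw [if_neg (by omega : ¬ r ≤ b), if_neg (by omega : ¬ r < b), if_pos h,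
        if_neg (by omega : ¬ r + 1 ≤ b), pow_add, pow_succ]
      ring

theorem alt_col_sum {r : ℕ} (hr : Odd r) (b : Fin r) : ∑ a, altS r a b = 0 := by
  have h1 : ∑ a : Fin r, altS r a b = ∑ a ∈ Finset.range r,
    (if a < b.val then (-1 : ℤ) ^ (a + b.val) else if b.val < a then -(-1) ^ (a + b.val) else 0) := by
    rw [Finset.sum_range]
    refine Finset.sum_congr rfl fun a _ => ?_
    unfold altS
    simp only [Fin.lt_def]
  have h2 := alt_sum_aux b.val r
  rw [if_neg (by have := b.isLt; omega), hr.neg_one_pow, ← h1] at h2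
  have : 2 * ∑ a : Fin r, altS r a b = 0 := by rw [h2]; ring
  omega

theorem IsAlt.ker {r : ℕ} (hr : Odd r) {B : Fin r → Fin r → ℤ} (h : IsAlt B) :
    Ker (fun i j => (B i j : ℝ)) univ (fun _ => 1) := by
  obtain ⟨σ, hσ⟩ := h
  refine ⟨fun i _ => one_pos, fun j _ => ?_⟩
  have h1 : ∑ i, B i j = 0 := by
    rw [← Equiv.sum_comp σ]
    obtain ⟨b, rfl⟩ := σ.surjective j
    rw [Finset.sum_congr rfl fun a _ => hσ a b]
    exact alt_col_sum hr b
  simp only [one_mul]
  exact_mod_cast h1

theorem IsAlt.pos {r : ℕ} (hr : Odd r) {B : Fin r → Fin r → ℤ} (h : IsAlt B) :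
    Pos (fun i j => (B i j : ℝ)) univ := by
  refine ⟨⟨⟨0, hr.pos⟩, Finset.mem_univ _⟩, _, h.ker hr⟩

/-! ### Transport of positivity -/

theorem Ker_image {κ ι : Type*} [Fintype ι] [DecidableEq κ] (M : κ → κ → ℝ) (e : ι → κ)
    (he : Function.Injective e) (w : κ → ℝ) :
    Ker M (univ.image e) w ↔ Ker (fun a b => M (e a) (e b)) univ (fun a => w (e a)) := by
  unfold Ker
  constructor
  · rintro ⟨h1, h2⟩
    refine ⟨fun i _ => h1 _ (Finset.mem_image_of_mem _ (Finset.mem_univ _)), fun j _ => ?_⟩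
    have := h2 (e j) (Finset.mem_image_of_mem _ (Finset.mem_univ _))
    rwa [Finset.sum_image (fun a _ b _ h => he h)] at this
  · rintro ⟨h1, h2⟩
    constructor
    · intro i hi
      obtain ⟨a, _, rfl⟩ := Finset.mem_image.1 hi
      exact h1 a (Finset.mem_univ _)
    · intro j hj
      obtain ⟨b, _, rfl⟩ := Finset.mem_image.1 hj
      rw [Finset.sum_image (fun a _ b _ h => he h)]
      exact h2 b (Finset.mem_univ _)

theorem Pos_image {κ ι : Type*} [Fintype ι] [DecidableEq κ] (M : κ → κ → ℝ) (e : ι → κ)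
    (he : Function.Injective e) :
    Pos M (univ.image e) ↔ Pos (fun a b => M (e a) (e b)) univ := by
  classical
  unfold Pos
  constructor
  · rintro ⟨h1, w, h2⟩
    refine ⟨?_, _, (Ker_image M e he w).1 h2⟩
    obtain ⟨x, hx⟩ := h1
    obtain ⟨a, _, _⟩ := Finset.mem_image.1 hx
    exact ⟨a, Finset.mem_univ _⟩
  · rintro ⟨⟨a, ha⟩, w, h2⟩
    refine ⟨⟨e a, Finset.mem_image_of_mem _ ha⟩, fun k => if h : ∃ a, e a = k then w h.choose else 0, ?_⟩
    rw [Ker_image M e he]
    have : (fun a => (if h : ∃ a', e a' = e a then w h.choose else 0)) = w := by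
      funext a
      have hex : ∃ a', e a' = e a := ⟨a, rfl⟩
      rw [dif_pos hex]
      congr 1
      exact he hex.choose_spec
    rw [this]
    exact h2

theorem IsT.pull {V κ : Type*} {s : V → V → ℤ} (hs : IsT s) {Y : κ → V}
    (hY : Function.Injective Y) : IsT (fun i j => s (Y i) (Y j)) :=
  ⟨fun i j => hs.skew _ _, fun i j hij => hs.pm _ _ fun h => hij (hY h)⟩

theorem IsT.self {V : Type*} {s : V → V → ℤ} (hs : IsT s) (v : V) : s v v = 0 := by
  have := hs.skew v v; omega

theorem card_div_tendsto (c : ℝ) {n : ℕ → ℕ} (hn : Tendsto n atTop atTop) :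
    Tendsto (fun m => c / (n m : ℝ)) atTop (𝓝 0) :=
  Filter.Tendsto.const_div_atTop (tendsto_natCast_atTop_atTop.comp hn) c

/-! ### The base host -/

section base
variable (κ : Type) [Fintype κ] [DecidableEq κ] (n : ℕ → ℕ) (hn : Tendsto n atTop atTop)
  (s : ∀ m, Fin (n m) → Fin (n m) → ℤ)

/-- The unperturbed host. -/
noncomputable def baseHost : Host κ where
  V m := Fin (n m)
  fV m := inferInstance
  neV := by
    filter_upwards [hn.eventually_gt_atTop 0] with m hm
    exact ⟨⟨0, hm⟩⟩
  I := univ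
  Mat m Y i j := (s m (Y i) (Y j) : ℝ)
  col m Y v i := (s m (Y i) v : ℝ)
  h1 := fun m Y z _ i _ => rfl
  h2 := fun m Y z _ v i j hi hj => by
    rw [Function.update_of_ne hi, Function.update_of_ne hj]
  h3 := fun m Y z _ v u i hi => by rw [Function.update_of_ne hi]

theorem baseHost_E_eq (S : Finset κ) (m : ℕ) : (baseHost κ n hn s).E S m =
    avg (fun Y : κ → Fin (n m) => ind (Pos (fun i j => (s m (Y i) (Y j) : ℝ)) S) *
      |avg (fun v => sg (fun i j => (s m (Y i) (Y j) : ℝ)) S (fun i => (s m (Y i) v : ℝ)))|) := rfl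

variable (hs : ∀ m, IsT (s m))
include hs

theorem base_g (U : Finset κ) : Tendsto ((baseHost κ n hn s).g U) atTop (𝓝 0) := by
  have h1 := card_div_tendsto ((Fintype.card κ : ℝ) ^ 2) hn
  refine tendsto_of_tendsto_of_tendsto_of_le_of_le tendsto_const_nhds h1
    (fun m => Pr_nonneg _) (fun m => ?_)
  have h2 : (baseHost κ n hn s).g U m ≤
      Pr (fun Y : κ → Fin (n m) => ¬ Function.Injective Y) := by
    refine Pr_mono fun Y hY hinj => hY ?_
    exact (gen_isT _ ((hs m).pull hinj)).mono (Finset.subset_univ _)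
  refine h2.trans ?_
  have := Pr_notInj (κ := κ) (V := Fin (n m))
  rwa [Fintype.card_fin] at this

/-- Equality case, first moments. -/
theorem base_E (U : Finset κ) (hU : Odd U.card) (e : ℕ → ℝ)
    (he : Tendsto e atTop (𝓝 ((1 / 2) ^ (U.card - 1))))
    (hle : ∀ᶠ m in atTop, e m ≤ (baseHost κ n hn s).P U m) (S : Finset κ) (hS : S ⊂ U)
    (ho : Odd S.card) : Tendsto ((baseHost κ n hn s).E S) atTop (𝓝 0) := by
  set H := baseHost κ n hn s with hH
  have hg := base_g κ n hn s hs U
  have h1 := H.conclude U hU hg (fun S hS ho => Or.inr fun m =>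
    H.t_nonneg U S (Finset.subset_univ _) hU ho hS.1 m) e he hle S hS ho
  exact H.E_of_t U S (Finset.subset_univ _) hU ho hS h1

theorem base_P (U : Finset κ) (hU : Odd U.card)
    (h : ∀ S ⊂ U, Odd S.card → Tendsto ((baseHost κ n hn s).E S) atTop (𝓝 0)) :
    Tendsto ((baseHost κ n hn s).P U) atTop (𝓝 ((1 / 2) ^ (U.card - 1))) := by
  set H := baseHost κ n hn s with hH
  have hg := base_g κ n hn s hs U
  refine H.P_tendsto U hU hg fun S hS ho => ?_
  refine H.t_tendsto_of_E U S ?_ (h S hS ho)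
  have : H.I = univ := rfl
  rw [this, Finset.inter_univ]
  exact Finset.sdiff_nonempty.2 hS.2

end base

/-- Probability that a random `r`-tuple is positive. -/
noncomputable def posP {V : Type*} [Fintype V] (s : V → V → ℤ) (r : ℕ) : ℝ :=
  Pr (fun Y : Fin r → V => Pos (payT s Y) univ)

theorem posP_eq {V κ : Type*} [Fintype V] [Nonempty V] [Fintype κ] [DecidableEq κ]
    (s : V → V → ℤ) {r : ℕ} (e : Fin r → κ) (he : Function.Injective e) :
    Pr (fun Y : κ → V => Pos (fun i j => (s (Y i) (Y j) : ℝ)) (univ.image e)) = posP s r := by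
  unfold posP Pr
  rw [← avg_pull e he (fun Y => ind (Pos (payT s Y) univ))]
  congr 1
  funext Y
  exact ind_congr (Pos_image _ e he)

theorem carP_le_posP {V : Type*} [Fintype V] (s : V → V → ℤ) {r : ℕ} (hr : Odd r) :
    carP s r ≤ posP s r := by
  refine Pr_mono fun Y h => ?_
  exact h.pos hr

theorem posNotAlt_eq {V : Type*} [Fintype V] (s : V → V → ℤ) {r : ℕ} (hr : Odd r) :
    posNotAlt s r = posP s r - carP s r := by
  unfold posNotAlt posP carP Pr
  rw [← avg_sub]
  congr 1
  funext Y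
  rw [ind_and, ind_not]
  by_cases h : IsAlt (fun a b => s (Y a) (Y b))
  · have h2 : Pos (payT s Y) univ := h.pos hr
    rw [ind_pos_iff h, ind_pos_iff h2]; ring
  · rw [ind_neg h]; ring

/-- T0: the inequality, for the probability of positive tuples. -/
theorem posP_le (N : ℕ) (hodd : Odd N) : ∃ C : ℝ, ∀ (n : ℕ) (s : Fin n → Fin n → ℤ), 0 < n →
    IsT s → posP s N ≤ (1 / 2) ^ (N - 1) + C / n := by
  refine ⟨(3 ^ N + 2 + 4 ^ N) * N ^ 2, ?_⟩
  intro n s hn hs
  have : Nonempty (Fin n) := ⟨⟨0, hn⟩⟩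
  set Mat : (Fin N → Fin n) → Fin N → Fin N → ℝ := fun Y i j => (s (Y i) (Y j) : ℝ) with hMat
  set col : (Fin N → Fin n) → Fin n → Fin N → ℝ := fun Y v i => (s (Y i) v : ℝ) with hcol
  have hd := avg_dagger Mat col univ univ (fun Y z _ i _ => rfl)
    (fun Y z _ v i j hi hj => by
      simp only [hMat]; rw [Function.update_of_ne hi, Function.update_of_ne hj])
    (fun Y z _ v u i hi => by simp only [hcol]; rw [Function.update_of_ne hi])
  set g := Pr (fun Y : Fin N → Fin n => ¬ Gen (Mat Y) univ) with hg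
  have hg1 : g ≤ (N : ℝ) ^ 2 / n := by
    have h2 : g ≤ Pr (fun Y : Fin N → Fin n => ¬ Function.Injective Y) := by
      refine Pr_mono fun Y hY hinj => hY ?_
      exact gen_isT _ (hs.pull hinj)
    refine h2.trans ?_
    have := Pr_notInj (κ := Fin N) (V := Fin n)
    rwa [Fintype.card_fin, Fintype.card_fin] at this
  have hg0 : 0 ≤ g := Pr_nonneg _
  rw [Finset.card_univ, Fintype.card_fin, hodd.neg_one_pow] at hd
  have hterm : ∀ S : Finset (Fin N), -g ≤ term Mat col univ univ S := by
    intro S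
    rcases Nat.even_or_odd S.card with he | ho
    · have h1 : |term Mat col univ univ S| ≤ g := by
        unfold term
        refine (abs_avg_le_avg _).trans (avg_mono fun Y => ?_)
        by_cases hG : Gen (Mat Y) univ
        · have : ¬ Pos (Mat Y) S := fun hP =>
            (Nat.not_odd_iff_even.2 he) (Pos.odd hG (Finset.subset_univ _) hP)
          rw [ind_neg this, zero_mul, zero_mul, abs_zero]
          exact ind_nonneg _
        · rw [ind_pos_iff (p := ¬ Gen (Mat Y) univ) hG, abs_mul, abs_mul, Finset.abs_prod,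
            abs_of_nonneg (ind_nonneg _), abs_pow]
          have a1 : ind (Pos (Mat Y) S) ≤ 1 := ind_le_one _
          have a2 : ∏ x ∈ (univ \ S) \ univ, |sg (Mat Y) S (fun i => Mat Y i x)| ≤ 1 :=
            Finset.prod_le_one (fun x _ => abs_nonneg _) fun x _ => sg_abs_le _ _ _
          have a3 : 0 ≤ ∏ x ∈ (univ \ S) \ univ, |sg (Mat Y) S (fun i => Mat Y i x)| :=
            Finset.prod_nonneg fun x _ => abs_nonneg _
          have a4 : |Hh Mat col S Y| ^ ((univ \ S) ∩ univ).card ≤ 1 :=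
            pow_le_one₀ (abs_nonneg _) (Hh_abs_le _ _ _ _)
          calc _ ≤ (1 : ℝ) * 1 * 1 := by
                apply mul_le_mul _ a4 (pow_nonneg (abs_nonneg _) _) (by norm_num)
                exact mul_le_mul a1 a2 a3 zero_le_one
            _ = 1 := by norm_num
      have := abs_le.1 h1
      linarith [this.1]
    · have h1 : 0 ≤ term Mat col univ univ S := by
        refine term_nonneg _ _ _ _ _ (Finset.subset_univ _) ?_
        rw [Finset.card_sdiff_of_subset (Finset.subset_univ _), Finset.card_univ, Fintype.card_fin]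
        exact Nat.Odd.sub_odd hodd ho
      linarith
  have hself : term Mat col univ univ univ = posP s N := by
    unfold term posP Pr
    simp
    rfl
  rw [← Finset.add_sum_erase _ _ (Finset.mem_powerset_self univ), hself, Finset.card_univ,
    Fintype.card_fin] at hd
  have hrest : -(4 ^ N * g) ≤ ∑ S ∈ (univ : Finset (Fin N)).powerset.erase univ,
      2 ^ S.card * term Mat col univ univ S := by
    have h1 : ∑ S ∈ (univ : Finset (Fin N)).powerset.erase univ, (-(2 ^ N * g)) ≤
        ∑ S ∈ (univ : Finset (Fin N)).powerset.erase univ,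
          2 ^ S.card * term Mat col univ univ S := by
      refine Finset.sum_le_sum fun S _ => ?_
      have h2 := hterm S
      have h3 : (2 : ℝ) ^ S.card ≤ 2 ^ N := by
        apply pow_le_pow_right₀ one_le_two
        have := Finset.card_le_univ S
        rwa [Fintype.card_fin] at this
      have h4 : (0 : ℝ) < 2 ^ S.card := by positivity
      nlinarith
    refine le_trans ?_ h1
    rw [Finset.sum_const, nsmul_eq_mul]
    have h5 : (((univ : Finset (Fin N)).powerset.erase univ).card : ℝ) ≤ 2 ^ N := by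
      have : ((univ : Finset (Fin N)).powerset.erase univ).card ≤ 2 ^ N := by
        refine (Finset.card_le_card (Finset.erase_subset _ _)).trans ?_
        rw [Finset.card_powerset, Finset.card_univ, Fintype.card_fin]
      exact_mod_cast this
    have h6 : (4 : ℝ) ^ N = 2 ^ N * 2 ^ N := by rw [← mul_pow]; norm_num
    rw [h6]
    have h7 : (0 : ℝ) ≤ 2 ^ N * g := by positivity
    nlinarith
  have hmain : 2 ^ N * posP s N ≤ 2 + (3 ^ N + 2 + 4 ^ N) * g := by
    have := (abs_le.1 hd).2
    linarith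
  have h2N : (0 : ℝ) < 2 ^ N := by positivity
  have hN : (2 : ℝ) ^ N * (1 / 2) ^ (N - 1) = 2 := by
    have : N = (N - 1) + 1 := by have := hodd.pos; omega
    conv_lhs => rw [this, pow_succ, Nat.add_sub_cancel]
    rw [mul_assoc, mul_comm (2 : ℝ) _, ← mul_assoc, ← mul_pow]
    norm_num
  have h8 : posP s N ≤ (1 / 2) ^ (N - 1) + (3 ^ N + 2 + 4 ^ N) * g := by
    have h9 : 2 ^ N * posP s N ≤ 2 ^ N * ((1 / 2) ^ (N - 1) + (3 ^ N + 2 + 4 ^ N) * g) := by
      rw [mul_add, hN]
      refine hmain.trans ?_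
      have h10 : (1 : ℝ) ≤ 2 ^ N := one_le_pow₀ one_le_two
      have h11 : 0 ≤ (3 ^ N + 2 + 4 ^ N : ℝ) * g := by positivity
      nlinarith
    exact le_of_mul_le_mul_left h9 h2N
  refine h8.trans ?_
  have h12 : (3 ^ N + 2 + 4 ^ N : ℝ) * g ≤ (3 ^ N + 2 + 4 ^ N) * ((N : ℝ) ^ 2 / n) :=
    mul_le_mul_of_nonneg_left hg1 (by positivity)
  rw [mul_div_assoc]
  linarith

theorem carP_le (N : ℕ) (hodd : Odd N) : ∃ C : ℝ, ∀ (n : ℕ) (s : Fin n → Fin n → ℤ), 0 < n →
    IsT s → carP s N ≤ (1 / 2) ^ (N - 1) + C / n := by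
  obtain ⟨C, hC⟩ := posP_le N hodd
  exact ⟨C, fun n s hn hs => (carP_le_posP s hodd).trans (hC n s hn hs)⟩

/-! ### Consequences of equality -/

section seq
variable (n : ℕ → ℕ) (hn : Tendsto n atTop atTop) (s : ∀ m, Fin (n m) → Fin (n m) → ℤ)
  (hs : ∀ m, IsT (s m))

include hn hs

theorem posP_tendsto_of_car (N : ℕ) (hodd : Odd N)
    (h : Tendsto (fun m => carP (s m) N) atTop (𝓝 ((1 / 2) ^ (N - 1)))) :
    Tendsto (fun m => posP (s m) N) atTop (𝓝 ((1 / 2) ^ (N - 1))) := by
  obtain ⟨C, hC⟩ := posP_le N hodd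
  have h1 : Tendsto (fun m => (1 / 2 : ℝ) ^ (N - 1) + C / n m) atTop (𝓝 ((1 / 2) ^ (N - 1))) := by
    have := (card_div_tendsto C hn).const_add ((1 / 2 : ℝ) ^ (N - 1))
    rwa [add_zero] at this
  refine tendsto_of_tendsto_of_tendsto_of_le_of_le' h h1
    (Filter.Eventually.of_forall fun m => carP_le_posP _ hodd) ?_
  filter_upwards [hn.eventually_gt_atTop 0] with m hm
  exact hC (n m) (s m) hm (hs m)

theorem posNotAlt_of_car (N : ℕ) (hodd : Odd N)
    (h : Tendsto (fun m => carP (s m) N) atTop (𝓝 ((1 / 2) ^ (N - 1)))) :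
    Tendsto (fun m => posNotAlt (s m) N) atTop (𝓝 0) := by
  have h1 := (posP_tendsto_of_car n hn s hs N hodd h).sub h
  rw [sub_self] at h1
  refine h1.congr fun m => ?_
  rw [posNotAlt_eq _ hodd]

/-- All proper odd subsets have vanishing conditional means. -/
theorem base_E_of_car (N : ℕ) (hodd : Odd N)
    (h : Tendsto (fun m => carP (s m) N) atTop (𝓝 ((1 / 2) ^ (N - 1)))) (S : Finset (Fin N))
    (hS : S ⊂ univ) (ho : Odd S.card) :
    Tendsto ((baseHost (Fin N) n hn s).E S) atTop (𝓝 0) := by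
  refine base_E (Fin N) n hn s hs univ (by rwa [Finset.card_univ, Fintype.card_fin])
    (fun m => carP (s m) N) (by rwa [Finset.card_univ, Fintype.card_fin])
    (Filter.Eventually.of_forall fun m => ?_) S hS ho
  exact carP_le_posP _ hodd

theorem posP_tendsto_lower (N : ℕ) (hodd : Odd N)
    (h : Tendsto (fun m => carP (s m) N) atTop (𝓝 ((1 / 2) ^ (N - 1)))) (r : ℕ) (hr : Odd r)
    (hrN : r ≤ N) : Tendsto (fun m => posP (s m) r) atTop (𝓝 ((1 / 2) ^ (r - 1))) := by
  rcases hrN.eq_or_lt with he | hlt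
  · subst he
    exact posP_tendsto_of_car n hn s hs r hodd h
  · set e : Fin r → Fin N := Fin.castLE hrN with he
    have hinj : Function.Injective e := Fin.castLE_injective hrN
    have hcard : (univ.image e).card = r := by
      rw [Finset.card_image_of_injective _ hinj, Finset.card_univ, Fintype.card_fin]
    have h1 := base_P (Fin N) n hn s hs (univ.image e) (by rwa [hcard]) (fun S hS ho =>
      base_E_of_car n hn s hs N hodd h S (lt_of_lt_of_le hS (Finset.subset_univ _)) ho)
    rw [hcard] at h1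
    refine h1.congr' ?_
    filter_upwards [hn.eventually_gt_atTop 0] with m hm
    have : Nonempty (Fin (n m)) := ⟨⟨0, hm⟩⟩
    exact posP_eq (s m) e hinj

theorem bal_of_car (N : ℕ) (hodd : Odd N) (h3 : 3 ≤ N)
    (h : Tendsto (fun m => carP (s m) N) atTop (𝓝 ((1 / 2) ^ (N - 1)))) :
    Tendsto (fun m => bal (s m)) atTop (𝓝 0) := by
  have hN0 : 0 < N := by omega
  set i0 : Fin N := ⟨0, hN0⟩ with hi0
  have h1 := base_E_of_car n hn s hs N hodd h {i0} (by
    rw [Finset.ssubset_univ_iff]
    intro hc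
    have := congrArg Finset.card hc
    rw [Finset.card_singleton, Finset.card_univ, Fintype.card_fin] at this
    omega) (by rw [Finset.card_singleton]; exact odd_one)
  refine tendsto_of_tendsto_of_tendsto_of_le_of_le' tendsto_const_nhds h1
    (Filter.Eventually.of_forall fun m => avg_nonneg fun x => sq_nonneg _) ?_
  filter_upwards [hn.eventually_gt_atTop 0] with m hm
  have : Nonempty (Fin (n m)) := ⟨⟨0, hm⟩⟩
  rw [baseHost_E_eq]
  have hdiag : ∀ Y : Fin N → Fin (n m), ((s m (Y i0) (Y i0) : ℤ) : ℝ) = 0 := fun Y => by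
    rw [(hs m).self]; simp
  have hpos : ∀ Y : Fin N → Fin (n m), Pos (fun i j => (s m (Y i) (Y j) : ℝ)) {i0} := by
    intro Y
    refine ⟨Finset.singleton_nonempty _, fun _ => 1, fun i _ => one_pos, fun j hj => ?_⟩
    rw [Finset.mem_singleton] at hj
    subst hj
    rw [Finset.sum_singleton, one_mul]
    exact hdiag Y
  have hsg : ∀ (Y : Fin N → Fin (n m)) (v : Fin (n m)),
      sg (fun i j => (s m (Y i) (Y j) : ℝ)) {i0} (fun i => (s m (Y i) v : ℝ)) =
      (s m (Y i0) v : ℝ) := by
    intro Y v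
    rw [sg_singleton _ _ (hdiag Y)]
    by_cases hv : Y i0 = v
    · subst hv
      rw [(hs m).self]
      simp
    · rcases (hs m).pm _ _ hv with h2 | h2
      · rw [h2]; simp
      · rw [h2]; norm_num
  have e1 : (avg fun Y : Fin N → Fin (n m) => ind (Pos (fun i j => (s m (Y i) (Y j) : ℝ)) {i0}) *
      |avg (fun v => sg (fun i j => (s m (Y i) (Y j) : ℝ)) {i0} (fun i => (s m (Y i) v : ℝ)))|) =
      avg (fun Y : Fin N → Fin (n m) => |avg (fun v => (s m (Y i0) v : ℝ))|) := by
    congr 1
    funext Y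
    rw [ind_pos_iff (hpos Y), one_mul]
    congr 2
    funext v
    exact hsg Y v
  rw [e1]
  have e2 := avg_pull (V := Fin (n m)) (κ := Fin N) (ι := Unit) (fun _ => i0)
    (fun a b _ => rfl) (fun Z => |avg (fun v => (s m (Z ()) v : ℝ))|)
  rw [e2]
  have e3 : avg (fun Z : Unit → Fin (n m) => |avg (fun v => (s m (Z ()) v : ℝ))|) =
      avg (fun x : Fin (n m) => |avg (fun v => (s m x v : ℝ))|) := by
    have := avg_equiv (Equiv.funUnique Unit (Fin (n m)))
      (fun x : Fin (n m) => |avg (fun v => (s m x v : ℝ))|)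
    rw [← this]
    rfl
  rw [e3]
  unfold bal
  refine avg_mono fun x => ?_
  have h4 : |avg (fun v => (s m x v : ℝ))| ≤ 1 := by
    refine abs_avg_le zero_le_one fun v => ?_
    by_cases hv : x = v
    · subst hv; rw [(hs m).self]; simp
    · rcases (hs m).pm _ _ hv with h2 | h2 <;> rw [h2] <;> simp
  rw [← sq_abs]
  have h5 := abs_nonneg (avg (fun v => (s m x v : ℝ)))
  nlinarith

end seq

end H51.Car
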