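import Mathlib

/-!
# Densities in tournaments, limits of tournaments, carousel tournaments

Definitions for the problem MP_380f92_co.
-/

open Finset Filter Topology

namespace H51.Car

/-- A tournament on the vertex set `Fin n`; `beats i j` means that there is an arc `i → j`. -/
structure Tour (n : ℕ) where
  beats : Fin n → Fin n → Prop
  irrefl : ∀ i, ¬ beats i i
  total : ∀ i j, i ≠ j → (beats i j ↔ ¬ beats j i)

/-- `A` is a set of vertices of `U` which induces a subtournament isomorphic to `T`. -/
def IsCopy {k n : ℕ} (T : Tour k) (U : Tour n) (A : Finset (Fin n)) : Prop :=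
  ∃ f : Fin k → Fin n, Function.Injective f ∧ Finset.univ.image f = A ∧
    ∀ i j, T.beats i j ↔ U.beats (f i) (f j)

/-- The unlabelled induced density `p(T,U)`: the fraction of the `n.choose k` sets of `k` vertices
of `U` which induce a subtournament isomorphic to `T`. -/
noncomputable def dens {k n : ℕ} (T : Tour k) (U : Tour n) : ℝ := by
  classical
  exact ((Finset.univ.filter (IsCopy T U)).card : ℝ) / (n.choose k : ℝ)

/-- `φ` is the limit of a convergent sequence of tournaments (of strictly increasing orders). -/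
def IsLimit (φ : (k : ℕ) → Tour k → ℝ) : Prop :=
  ∃ (N : ℕ → ℕ) (U : ∀ m, Tour (N m)), StrictMono N ∧
    ∀ (k : ℕ) (T : Tour k), Tendsto (fun m => dens T (U m)) atTop (𝓝 (φ k T))

/-- The carousel tournament `R_{2n+1}`: arcs `x → x + i` modulo `2n+1` for `i = 1, …, n`. -/
def carousel (n : ℕ) : Tour (2 * n + 1) where
  beats x y := ∃ i, 1 ≤ i ∧ i ≤ n ∧ (x.val + i) % (2 * n + 1) = y.val
  irrefl := by
    rintro x ⟨i, h1, h2, h3⟩
    have hx := x.isLt
    by_cases h : x.val + i < 2 * n + 1
    · rw [Nat.mod_eq_of_lt h] at h3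
      omega
    · have : (x.val + i) % (2 * n + 1) = x.val + i - (2 * n + 1) := by
        rw [Nat.mod_eq_sub_mod (by omega), Nat.mod_eq_of_lt (by omega)]
      omega
  total := by
    intro x y hxy
    have hx := x.isLt
    have hy := y.isLt
    have hne : x.val ≠ y.val := fun h => hxy (Fin.ext h)
    have key : ∀ a b : ℕ, a < 2 * n + 1 → b < 2 * n + 1 →
        ((∃ i, 1 ≤ i ∧ i ≤ n ∧ (a + i) % (2 * n + 1) = b) ↔
          ((a < b ∧ b ≤ a + n) ∨ (b < a ∧ b + (2 * n + 1) ≤ a + n))) := by
      intro a b ha hb
      constructor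
      · rintro ⟨i, h1, h2, h3⟩
        by_cases h : a + i < 2 * n + 1
        · rw [Nat.mod_eq_of_lt h] at h3
          left; omega
        · have : (a + i) % (2 * n + 1) = a + i - (2 * n + 1) := by
            rw [Nat.mod_eq_sub_mod (by omega), Nat.mod_eq_of_lt (by omega)]
          right; omega
      · rintro (⟨h1, h2⟩ | ⟨h1, h2⟩)
        · exact ⟨b - a, by omega, by omega, by
            rw [Nat.add_sub_cancel' (by omega)]; exact Nat.mod_eq_of_lt hb⟩
        · refine ⟨b + (2 * n + 1) - a, by omega, by omega, ?_⟩
          rw [Nat.add_sub_cancel' (by omega), Nat.add_mod_right]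
          exact Nat.mod_eq_of_lt hb
    rw [key _ _ hx hy, key _ _ hy hx]
    omega

end H51.Car
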