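import Mathlib
import Pool.Agent.H51.Car.Core
import Pool.Agent.H52.Car.Avg

/-!
# Five vertices: the extremal density of the carousel on 5 vertices forces local transitivity
-/

open Finset Filter Topology

namespace H51.Car

open H52.CarAvg

namespace P2a

section basic

variable {V : Type*}

theorem zero {s : V → V → ℤ} (hs : IsT s) (i : V) : s i i = 0 := by
  have := hs.skew i i
  omega

theorem abs_s_le {s : V → V → ℤ} (hs : IsT s) (i j : V) : |s i j| ≤ 1 := by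
  by_cases h : i = j
  · subst h; rw [zero hs]; norm_num
  · rcases hs.pm i j h with h1 | h1 <;> rw [h1] <;> norm_num

/-- Product of the signs of the arcs from the `i`-th vertex of a 5-tuple. -/
def C (s : V → V → ℤ) (Y : Fin 5 → V) (i : Fin 5) : ℤ :=
  ∏ j : Fin 5, if j = i then 1 else s (Y i) (Y j)

theorem C_perm (s : V → V → ℤ) (Y : Fin 5 → V) (σ : Equiv.Perm (Fin 5)) (i : Fin 5) :
    C s (Y ∘ σ) i = C s Y (σ i) := by
  unfold C
  rw [← Equiv.prod_comp σ (fun j => if j = σ i then 1 else s (Y (σ i)) (Y j))]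
  refine Finset.prod_congr rfl fun j _ => ?_
  simp only [Function.comp, σ.injective.eq_iff]

theorem abs_C {s : V → V → ℤ} (hs : IsT s) (Y : Fin 5 → V) (i : Fin 5) : |C s Y i| ≤ 1 := by
  unfold C
  rw [Finset.abs_prod]
  refine Finset.prod_le_one (fun j _ => abs_nonneg _) fun j _ => ?_
  split_ifs
  · norm_num
  · exact abs_s_le hs _ _

theorem C_pm {s : V → V → ℤ} (hs : IsT s) (Y : Fin 5 → V) (hY : Function.Injective Y)
    (i : Fin 5) : C s Y i = 1 ∨ C s Y i = -1 := by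
  have h : C s Y i ^ 2 = 1 := by
    unfold C
    rw [← Finset.prod_pow]
    refine Finset.prod_eq_one fun j _ => ?_
    split_ifs with h
    · norm_num
    · rcases hs.pm (Y i) (Y j) (fun h' => h (hY h'.symm)) with h1 | h1 <;> rw [h1] <;> norm_num
  exact mul_self_eq_one_iff.mp (by rw [← sq]; exact h)

theorem C_prod {s : V → V → ℤ} (hs : IsT s) (Y : Fin 5 → V) (hY : Function.Injective Y) :
    C s Y 0 * C s Y 1 * C s Y 2 * C s Y 3 * C s Y 4 = 1 := by
  have sq : ∀ i j : Fin 5, i ≠ j → s (Y i) (Y j) ^ 2 = 1 := by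
    intro i j hij
    rcases hs.pm (Y i) (Y j) (fun h' => hij (hY h')) with h1 | h1 <;> rw [h1] <;> norm_num
  have e0 : C s Y 0 = s (Y 0) (Y 1) * s (Y 0) (Y 2) * s (Y 0) (Y 3) * s (Y 0) (Y 4) := by
    unfold C; rw [Fin.prod_univ_five]; simp
  have e1 : C s Y 1 = s (Y 1) (Y 0) * s (Y 1) (Y 2) * s (Y 1) (Y 3) * s (Y 1) (Y 4) := by
    unfold C; rw [Fin.prod_univ_five]; simp
  have e2 : C s Y 2 = s (Y 2) (Y 0) * s (Y 2) (Y 1) * s (Y 2) (Y 3) * s (Y 2) (Y 4) := by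
    unfold C; rw [Fin.prod_univ_five]; simp
  have e3 : C s Y 3 = s (Y 3) (Y 0) * s (Y 3) (Y 1) * s (Y 3) (Y 2) * s (Y 3) (Y 4) := by
    unfold C; rw [Fin.prod_univ_five]; simp
  have e4 : C s Y 4 = s (Y 4) (Y 0) * s (Y 4) (Y 1) * s (Y 4) (Y 2) * s (Y 4) (Y 3) := by
    unfold C; rw [Fin.prod_univ_five]; simp
  rw [e0, e1, e2, e3, e4, hs.skew (Y 0) (Y 1), hs.skew (Y 0) (Y 2), hs.skew (Y 0) (Y 3),
    hs.skew (Y 0) (Y 4), hs.skew (Y 1) (Y 2), hs.skew (Y 1) (Y 3), hs.skew (Y 1) (Y 4),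
    hs.skew (Y 2) (Y 3), hs.skew (Y 2) (Y 4), hs.skew (Y 3) (Y 4)]
  have h01 := sq 0 1 (by decide)
  have h02 := sq 0 2 (by decide)
  have h03 := sq 0 3 (by decide)
  have h04 := sq 0 4 (by decide)
  have h12 := sq 1 2 (by decide)
  have h13 := sq 1 3 (by decide)
  have h14 := sq 1 4 (by decide)
  have h23 := sq 2 3 (by decide)
  have h24 := sq 2 4 (by decide)
  have h34 := sq 3 4 (by decide)
  generalize s (Y 0) (Y 1) = a01 at *
  generalize s (Y 0) (Y 2) = a02 at *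
  generalize s (Y 0) (Y 3) = a03 at *
  generalize s (Y 0) (Y 4) = a04 at *
  generalize s (Y 1) (Y 2) = a12 at *
  generalize s (Y 1) (Y 3) = a13 at *
  generalize s (Y 1) (Y 4) = a14 at *
  generalize s (Y 2) (Y 3) = a23 at *
  generalize s (Y 2) (Y 4) = a24 at *
  generalize s (Y 3) (Y 4) = a34 at *
  calc a01 * a02 * a03 * a04 * (-a01 * a12 * a13 * a14) * (-a02 * -a12 * a23 * a24) *
        (-a03 * -a13 * -a23 * a34) * (-a04 * -a14 * -a24 * -a34)
      = a01 ^ 2 * a02 ^ 2 * a03 ^ 2 * a04 ^ 2 * a12 ^ 2 * a13 ^ 2 * a14 ^ 2 * a23 ^ 2 *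
        a24 ^ 2 * a34 ^ 2 := by ring
    _ = 1 := by rw [h01, h02, h03, h04, h12, h13, h14, h23, h24, h34]; norm_num

/-- The pairs `i < j` in `Fin 5`. -/
def P5 : Finset (Fin 5 × Fin 5) := Finset.univ.filter (fun p => p.1 < p.2)

theorem P5_card : P5.card = 10 := by decide

theorem key_ineq (c0 c1 c2 c3 c4 : ℤ) (h0 : c0 = 1 ∨ c0 = -1) (h1 : c1 = 1 ∨ c1 = -1)
    (h2 : c2 = 1 ∨ c2 = -1) (h3 : c3 = 1 ∨ c3 = -1) (h4 : c4 = 1 ∨ c4 = -1)
    (hp : c0 * c1 * c2 * c3 * c4 = 1) :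
    0 ≤ 1 + (c0 + c1 + c2 + c3 + c4) + (c0 * c1 + c0 * c2 + c0 * c3 + c0 * c4 + c1 * c2 +
      c1 * c3 + c1 * c4 + c2 * c3 + c2 * c4 + c3 * c4) := by
  rcases h0 with rfl | rfl <;> rcases h1 with rfl | rfl <;> rcases h2 with rfl | rfl <;>
    rcases h3 with rfl | rfl <;> rcases h4 with rfl | rfl <;> first | (norm_num; done) | (exfalso; norm_num at hp)

theorem sum_P5 (f : Fin 5 → Fin 5 → ℤ) : ∑ p ∈ P5, f p.1 p.2 =
    f 0 1 + f 0 2 + f 0 3 + f 0 4 + f 1 2 + f 1 3 + f 1 4 + f 2 3 + f 2 4 + f 3 4 := by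
  have : P5 = {(0, 1), (0, 2), (0, 3), (0, 4), (1, 2), (1, 3), (1, 4), (2, 3), (2, 4), (3, 4)} := by
    decide
  rw [this]
  repeat rw [Finset.sum_insert (by decide)]
  rw [Finset.sum_singleton]
  ring

/-- Injective and all products equal to one. -/
def AllOne (s : V → V → ℤ) (Y : Fin 5 → V) : Prop :=
  Function.Injective Y ∧ ∀ i, C s Y i = 1

theorem pointwise {s : V → V → ℤ} (hs : IsT s) (Y : Fin 5 → V) :
    16 * ind (AllOne s Y) ≤ 1 + ∑ i : Fin 5, (C s Y i : ℝ) +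
      ∑ p ∈ P5, (C s Y p.1 * C s Y p.2 : ℝ) + 16 * ind (¬ Function.Injective Y) := by
  have hcast : (∑ p ∈ P5, (C s Y p.1 * C s Y p.2 : ℝ)) =
      ((∑ p ∈ P5, (C s Y p.1 * C s Y p.2) : ℤ) : ℝ) := by push_cast; rfl
  have hcast' : (∑ i : Fin 5, (C s Y i : ℝ)) = ((∑ i : Fin 5, C s Y i : ℤ) : ℝ) := by
    push_cast; rfl
  by_cases hY : Function.Injective Y
  · rw [ind_of_not (not_not.mpr hY)]
    by_cases hall : ∀ i, C s Y i = 1
    · rw [ind_of ⟨hY, hall⟩]
      rw [hcast, hcast', sum_P5 (fun i j => C s Y i * C s Y j), Fin.sum_univ_five]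
      simp only [hall]
      norm_num
    · rw [ind_of_not (fun h => hall h.2)]
      have h := key_ineq _ _ _ _ _ (C_pm hs Y hY 0) (C_pm hs Y hY 1) (C_pm hs Y hY 2)
        (C_pm hs Y hY 3) (C_pm hs Y hY 4) (C_prod hs Y hY)
      rw [hcast, hcast', sum_P5 (fun i j => C s Y i * C s Y j), Fin.sum_univ_five]
      have h' : (0 : ℝ) ≤ ((1 + (C s Y 0 + C s Y 1 + C s Y 2 + C s Y 3 + C s Y 4) +
        (C s Y 0 * C s Y 1 + C s Y 0 * C s Y 2 + C s Y 0 * C s Y 3 + C s Y 0 * C s Y 4 +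
        C s Y 1 * C s Y 2 + C s Y 1 * C s Y 3 + C s Y 1 * C s Y 4 + C s Y 2 * C s Y 3 +
        C s Y 2 * C s Y 4 + C s Y 3 * C s Y 4) : ℤ) : ℝ) := by exact_mod_cast h
      push_cast at h' ⊢
      linarith
  · rw [ind_of_not (fun h => hY h.1), ind_of hY]
    have hC : ∀ i, |(C s Y i : ℝ)| ≤ 1 := by
      intro i
      have := abs_C hs Y i
      exact_mod_cast this
    have h1 : |∑ i : Fin 5, (C s Y i : ℝ)| ≤ 5 := by
      calc |∑ i : Fin 5, (C s Y i : ℝ)| ≤ ∑ i : Fin 5, |(C s Y i : ℝ)| :=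
            Finset.abs_sum_le_sum_abs _ _
        _ ≤ ∑ _i : Fin 5, (1 : ℝ) := Finset.sum_le_sum fun i _ => hC i
        _ = 5 := by simp
    have h2 : |∑ p ∈ P5, (C s Y p.1 * C s Y p.2 : ℝ)| ≤ 10 := by
      calc |∑ p ∈ P5, (C s Y p.1 * C s Y p.2 : ℝ)| ≤ ∑ p ∈ P5, |(C s Y p.1 * C s Y p.2 : ℝ)| :=
            Finset.abs_sum_le_sum_abs _ _
        _ ≤ ∑ _p ∈ P5, (1 : ℝ) := by
            refine Finset.sum_le_sum fun p _ => ?_
            rw [abs_mul]
            exact mul_le_one₀ (hC _) (abs_nonneg _) (hC _)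
        _ = 10 := by rw [Finset.sum_const, P5_card]; norm_num
    have h3 := abs_le.mp h1
    have h4 := abs_le.mp h2
    linarith [h3.1, h4.1]

end basic

section avgs

variable {V : Type*} [Fintype V]

/-- Normalised score difference. -/
noncomputable def D (s : V → V → ℤ) (x : V) : ℝ := avg (fun y : V => (s x y : ℝ))

/-- Correlation of three vertices. -/
noncomputable def h3 (s : V → V → ℤ) (a b c : V) : ℝ :=
  avg (fun x : V => (s x a : ℝ) * (s x b : ℝ) * (s x c : ℝ))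

/-- Second moment of `h3`. -/
noncomputable def H2 (s : V → V → ℤ) : ℝ :=
  avg (fun a => avg (fun b => avg (fun c => (h3 s a b c) ^ 2)))

theorem bal_eq (s : V → V → ℤ) : bal s = avg (fun x => (D s x) ^ 2) := rfl

omit [Fintype V] in
theorem abs_s {s : V → V → ℤ} (hs : IsT s) (i j : V) : |(s i j : ℝ)| ≤ 1 := by
  have := abs_s_le hs i j
  exact_mod_cast this

theorem abs_D {s : V → V → ℤ} (hs : IsT s) (x : V) : |D s x| ≤ 1 := by
  unfold D
  refine (abs_avg_le _).trans (avg_le_const (by norm_num) fun y => abs_s hs x y)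

theorem avg_C_zero {s : V → V → ℤ} (hs : IsT s) :
    avg (fun Y : Fin 5 → V => (C s Y 0 : ℝ)) ≤ bal s := by
  rw [avg_fin5]
  have h1 : ∀ a b c d e : V, ((C s ![a, b, c, d, e] 0 : ℤ) : ℝ) =
      (s a b : ℝ) * (s a c : ℝ) * (s a d : ℝ) * (s a e : ℝ) := by
    intro a b c d e
    unfold C
    rw [Fin.prod_univ_five]
    simp
  simp only [h1]
  have h2 : ∀ a : V, avg (fun b => avg (fun c => avg (fun d => avg (fun e =>
      (s a b : ℝ) * (s a c : ℝ) * (s a d : ℝ) * (s a e : ℝ))))) = (D s a) ^ 4 := by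
    intro a
    simp only [avg_mul_left, avg_mul_right]
    unfold D
    ring
  simp only [h2]
  rw [bal_eq]
  refine avg_mono fun a => ?_
  have h := abs_D hs a
  have h' : (D s a) ^ 2 ≤ 1 := by
    rw [← sq_abs]; exact pow_le_one₀ (abs_nonneg _) h
  nlinarith [sq_nonneg (D s a)]

theorem avg_C_i {s : V → V → ℤ} (hs : IsT s) (i : Fin 5) :
    avg (fun Y : Fin 5 → V => (C s Y i : ℝ)) ≤ bal s := by
  have h : avg (fun Y : Fin 5 → V => (C s Y i : ℝ)) = avg (fun Y : Fin 5 → V => (C s Y 0 : ℝ)) := by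
    rw [← avg_perm (Equiv.swap 0 i) (fun Y : Fin 5 → V => (C s Y 0 : ℝ))]
    refine avg_congr fun Y => ?_
    rw [C_perm, Equiv.swap_apply_left]
  rw [h]
  exact avg_C_zero hs

theorem avg_C_34 [Nonempty V] {s : V → V → ℤ} (hs : IsT s) :
    avg (fun Y : Fin 5 → V => (C s Y 3 * C s Y 4 : ℝ)) ≤ - H2 s + 1 / (Fintype.card V : ℝ) := by
  rw [avg_fin5]
  have h1 : ∀ a b c y z : V, ((C s ![a, b, c, y, z] 3 : ℤ) : ℝ) * ((C s ![a, b, c, y, z] 4 : ℤ) : ℝ)
      ≤ - (((s y a : ℝ) * (s y b : ℝ) * (s y c : ℝ)) * ((s z a : ℝ) * (s z b : ℝ) * (s z c : ℝ)))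
        + ind (y = z) := by
    intro a b c y z
    have e3 : C s ![a, b, c, y, z] 3 = s y a * s y b * s y c * s y z := by
      unfold C; rw [Fin.prod_univ_five]; simp
    have e4 : C s ![a, b, c, y, z] 4 = s z a * s z b * s z c * s z y := by
      unfold C; rw [Fin.prod_univ_five]; simp
    rw [e3, e4]
    by_cases hyz : y = z
    · subst hyz
      rw [ind_of rfl, zero hs y]
      have h := abs_s hs y a
      have h' := abs_s hs y b
      have h'' := abs_s hs y c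
      have hp : |(s y a : ℝ) * (s y b : ℝ) * (s y c : ℝ)| ≤ 1 := by
        rw [abs_mul, abs_mul]
        exact mul_le_one₀ (mul_le_one₀ h (abs_nonneg _) h') (abs_nonneg _) h''
      have hq : ((s y a : ℝ) * (s y b : ℝ) * (s y c : ℝ)) *
          ((s y a : ℝ) * (s y b : ℝ) * (s y c : ℝ)) ≤ 1 := by
        have := pow_le_one₀ (n := 2) (abs_nonneg _) hp
        rw [sq_abs] at this
        nlinarith
      push_cast
      linarith
    · rw [ind_of_not hyz]
      have hsq : (s y z : ℝ) * (s z y : ℝ) = -1 := by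
        rw [hs.skew y z]
        rcases hs.pm y z hyz with h | h <;> rw [h] <;> norm_num
      push_cast
      have : (s y a : ℝ) * (s y b : ℝ) * (s y c : ℝ) * (s y z : ℝ) *
          ((s z a : ℝ) * (s z b : ℝ) * (s z c : ℝ) * (s z y : ℝ)) =
          ((s y a : ℝ) * (s y b : ℝ) * (s y c : ℝ)) * ((s z a : ℝ) * (s z b : ℝ) * (s z c : ℝ)) *
          ((s y z : ℝ) * (s z y : ℝ)) := by ring
      rw [this, hsq]
      linarith
  refine (avg_mono fun a => avg_mono fun b => avg_mono fun c => avg_mono fun y =>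
    avg_mono fun z => h1 a b c y z).trans (le_of_eq ?_)
  have h2 : ∀ a b c : V, avg (fun y => avg (fun z =>
      - (((s y a : ℝ) * (s y b : ℝ) * (s y c : ℝ)) * ((s z a : ℝ) * (s z b : ℝ) * (s z c : ℝ)))
        + ind (y = z))) = - (h3 s a b c) ^ 2 + 1 / (Fintype.card V : ℝ) := by
    intro a b c
    simp only [avg_add, avg_neg, avg_mul_left, avg_ind_eq]
    rw [avg_mul_right, avg_const]
    unfold h3
    ring
  simp only [h2]
  simp only [avg_add, avg_neg, avg_const]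
  rfl

theorem exists_perm (i j : Fin 5) (hij : i ≠ j) : ∃ σ : Equiv.Perm (Fin 5), σ 3 = i ∧ σ 4 = j := by
  set τ : Equiv.Perm (Fin 5) := Equiv.swap 3 i with hτ
  set k := τ⁻¹ j with hk
  have hτ3 : τ 3 = i := Equiv.swap_apply_left 3 i
  have hτk : τ k = j := by rw [hk]; simp
  have hk3 : k ≠ 3 := by
    intro h
    rw [h, hτ3] at hτk
    exact hij hτk
  refine ⟨τ * Equiv.swap 4 k, ?_, ?_⟩
  · rw [Equiv.Perm.mul_apply, Equiv.swap_apply_of_ne_of_ne (by decide) hk3.symm, hτ3]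
  · rw [Equiv.Perm.mul_apply, Equiv.swap_apply_left, hτk]

theorem avg_C_ij [Nonempty V] {s : V → V → ℤ} (hs : IsT s) (i j : Fin 5) (hij : i ≠ j) :
    avg (fun Y : Fin 5 → V => (C s Y i * C s Y j : ℝ)) ≤ - H2 s + 1 / (Fintype.card V : ℝ) := by
  obtain ⟨σ, h3, h4⟩ := exists_perm i j hij
  have h : avg (fun Y : Fin 5 → V => (C s Y i * C s Y j : ℝ))
      = avg (fun Y : Fin 5 → V => (C s Y 3 * C s Y 4 : ℝ)) := by
    rw [← avg_perm σ (fun Y : Fin 5 → V => (C s Y 3 * C s Y 4 : ℝ))]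
    refine avg_congr fun Y => ?_
    rw [C_perm, C_perm, h3, h4]
  rw [h]
  exact avg_C_34 hs

theorem avg_allOne [Nonempty V] {s : V → V → ℤ} (hs : IsT s) :
    16 * avg (fun Y : Fin 5 → V => ind (AllOne s Y)) + 10 * H2 s ≤
      1 + 5 * bal s + 410 / (Fintype.card V : ℝ) := by
  have h1 := avg_mono (pointwise (V := V) hs)
  rw [avg_mul_left] at h1
  simp only [avg_add, avg_mul_left, avg_sum] at h1
  rw [avg_const] at h1
  have h2 : ∑ i : Fin 5, avg (fun Y : Fin 5 → V => (C s Y i : ℝ)) ≤ 5 * bal s := by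
    calc ∑ i : Fin 5, avg (fun Y : Fin 5 → V => (C s Y i : ℝ)) ≤ ∑ _i : Fin 5, bal s :=
          Finset.sum_le_sum fun i _ => avg_C_i hs i
      _ = 5 * bal s := by simp
  have h3 : ∑ p ∈ P5, avg (fun Y : Fin 5 → V => (C s Y p.1 * C s Y p.2 : ℝ))
      ≤ 10 * (- H2 s + 1 / (Fintype.card V : ℝ)) := by
    calc ∑ p ∈ P5, avg (fun Y : Fin 5 → V => (C s Y p.1 * C s Y p.2 : ℝ))
        ≤ ∑ _p ∈ P5, (- H2 s + 1 / (Fintype.card V : ℝ)) := by
          refine Finset.sum_le_sum fun p hp => avg_C_ij hs p.1 p.2 ?_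
          exact ne_of_lt (Finset.mem_filter.mp hp).2
      _ = 10 * (- H2 s + 1 / (Fintype.card V : ℝ)) := by
          rw [Finset.sum_const, P5_card, nsmul_eq_mul]; norm_num
  have h4 := Pr_not_inj (V := V) (ι := Fin 5)
  rw [Fintype.card_fin] at h4
  have h5 : 410 / (Fintype.card V : ℝ) = 10 * (1 / (Fintype.card V : ℝ)) +
      16 * (((5 : ℕ) : ℝ) ^ 2 / (Fintype.card V : ℝ)) := by
    push_cast; ring
  rw [h5]
  linarith

end avgs

section five

theorem altS_sum : ∀ a : Fin 5, ∑ b : Fin 5, altS 5 a b = 0 := by decide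

theorem altS_prod : ∀ a : Fin 5, ∏ b : Fin 5, (if b = a then 1 else altS 5 a b) = 1 := by decide

theorem altS_ne : ∀ a b : Fin 5, a ≠ b → altS 5 a b ≠ 0 := by decide

theorem alt_sum {B : Fin 5 → Fin 5 → ℤ} (h : IsAlt B) (i : Fin 5) : ∑ j, B i j = 0 := by
  obtain ⟨σ, hσ⟩ := h
  have h1 : ∑ j, B i j = ∑ b, B (σ (σ.symm i)) (σ b) := by
    rw [Equiv.apply_symm_apply, Equiv.sum_comp σ (fun j => B i j)]
  rw [h1]
  simp only [hσ]
  exact altS_sum _

theorem alt_prod {B : Fin 5 → Fin 5 → ℤ} (h : IsAlt B) (i : Fin 5) :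
    ∏ j, (if j = i then 1 else B i j) = 1 := by
  obtain ⟨σ, hσ⟩ := h
  have h1 : ∏ j, (if j = i then 1 else B i j)
      = ∏ b, (if b = σ.symm i then 1 else B (σ (σ.symm i)) (σ b)) := by
    rw [Equiv.apply_symm_apply, ← Equiv.prod_comp σ (fun j => if j = i then 1 else B i j)]
    refine Finset.prod_congr rfl fun b _ => ?_
    have : (σ b = i) ↔ (b = σ.symm i) := by
      rw [Equiv.eq_symm_apply]
    simp only [this]
  rw [h1]
  simp only [hσ]
  exact altS_prod _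

theorem alt_ne {B : Fin 5 → Fin 5 → ℤ} (h : IsAlt B) (i j : Fin 5) (hij : i ≠ j) : B i j ≠ 0 := by
  obtain ⟨σ, hσ⟩ := h
  have h1 := hσ (σ.symm i) (σ.symm j)
  rw [Equiv.apply_symm_apply, Equiv.apply_symm_apply] at h1
  rw [h1]
  exact altS_ne _ _ (fun h' => hij (σ.symm.injective h'))

variable {V : Type*}

theorem inj_of {s : V → V → ℤ} (hs : IsT s) (Y : Fin 5 → V)
    (h : ∀ i j : Fin 5, i < j → s (Y i) (Y j) ≠ 0) : Function.Injective Y := by
  intro i j hij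
  rcases lt_trichotomy i j with h1 | h1 | h1
  · exact absurd (by rw [hij]; exact zero hs _) (h i j h1)
  · exact h1
  · exact absurd (by rw [hij]; exact zero hs _) (h j i h1)

theorem alt_allOne {s : V → V → ℤ} (hs : IsT s) (Y : Fin 5 → V)
    (h : IsAlt (fun a b => s (Y a) (Y b))) : AllOne s Y := by
  refine ⟨inj_of hs Y fun i j hij => alt_ne h i j (ne_of_lt hij), fun i => ?_⟩
  exact alt_prod h i

/-- Cyclic triangle. -/
def Cyc (s : V → V → ℤ) (a b c : V) : Prop := s a b = 1 ∧ s b c = 1 ∧ s c a = 1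

/-- `y` beats `a, b, c`. -/
def Up (s : V → V → ℤ) (y a b c : V) : Prop := s y a = 1 ∧ s y b = 1 ∧ s y c = 1

/-- `y` is beaten by `a, b, c`. -/
def Dn (s : V → V → ℤ) (y a b c : V) : Prop := s y a = -1 ∧ s y b = -1 ∧ s y c = -1

/-- The configuration X00 or X02. -/
def XX (s : V → V → ℤ) (Y : Fin 5 → V) (e : ℤ) : Prop :=
  Cyc s (Y 0) (Y 1) (Y 2) ∧ Up s (Y 3) (Y 0) (Y 1) (Y 2) ∧ Dn s (Y 4) (Y 0) (Y 1) (Y 2) ∧
    s (Y 3) (Y 4) = e

theorem XX_vals {s : V → V → ℤ} (hs : IsT s) (Y : Fin 5 → V) (e : ℤ) (h : XX s Y e) :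
    s (Y 0) (Y 1) = 1 ∧ s (Y 1) (Y 0) = -1 ∧ s (Y 1) (Y 2) = 1 ∧ s (Y 2) (Y 1) = -1 ∧
    s (Y 2) (Y 0) = 1 ∧ s (Y 0) (Y 2) = -1 ∧ s (Y 3) (Y 0) = 1 ∧ s (Y 0) (Y 3) = -1 ∧
    s (Y 3) (Y 1) = 1 ∧ s (Y 1) (Y 3) = -1 ∧ s (Y 3) (Y 2) = 1 ∧ s (Y 2) (Y 3) = -1 ∧
    s (Y 4) (Y 0) = -1 ∧ s (Y 0) (Y 4) = 1 ∧ s (Y 4) (Y 1) = -1 ∧ s (Y 1) (Y 4) = 1 ∧
    s (Y 4) (Y 2) = -1 ∧ s (Y 2) (Y 4) = 1 ∧ s (Y 3) (Y 4) = e ∧ s (Y 4) (Y 3) = -e := by
  obtain ⟨⟨h1, h2, h3⟩, ⟨h4, h5, h6⟩, ⟨h7, h8, h9⟩, h10⟩ := h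
  refine ⟨h1, ?_, h2, ?_, h3, ?_, h4, ?_, h5, ?_, h6, ?_, h7, ?_, h8, ?_, h9, ?_, h10, ?_⟩
  · rw [hs.skew (Y 0) (Y 1), h1]
  · rw [hs.skew (Y 1) (Y 2), h2]
  · rw [hs.skew (Y 2) (Y 0), h3]
  · rw [hs.skew (Y 3) (Y 0), h4]
  · rw [hs.skew (Y 3) (Y 1), h5]
  · rw [hs.skew (Y 3) (Y 2), h6]
  · rw [hs.skew (Y 4) (Y 0), h7]; norm_num
  · rw [hs.skew (Y 4) (Y 1), h8]; norm_num
  · rw [hs.skew (Y 4) (Y 2), h9]; norm_num
  · rw [hs.skew (Y 3) (Y 4), h10]

theorem XX_allOne {s : V → V → ℤ} (hs : IsT s) (Y : Fin 5 → V) (h : XX s Y 1) : AllOne s Y := by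
  obtain ⟨a01, a10, a12, a21, a20, a02, a30, a03, a31, a13, a32, a23, a40, a04, a41, a14, a42,
    a24, a34, a43⟩ := XX_vals hs Y 1 h
  constructor
  · refine inj_of hs Y fun i j hij => ?_
    fin_cases i <;> fin_cases j <;>
      first
        | exact absurd hij (by decide)
        | (simp only [Fin.zero_eta, Fin.mk_one, Fin.reduceFinMk, Fin.isValue, a01, a02, a03, a04, a12, a13, a14, a23, a24, a34]; norm_num)
  · intro i
    unfold C
    rw [Fin.prod_univ_five]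
    fin_cases i <;>
      simp [a01, a10, a12, a21, a20, a02, a30, a03, a31, a13, a32, a23, a40, a04, a41, a14, a42,
        a24, a34, a43]

theorem XX_not_alt {s : V → V → ℤ} (hs : IsT s) (Y : Fin 5 → V) (e : ℤ) (he : e = 1 ∨ e = -1)
    (h : XX s Y e) : ¬ IsAlt (fun a b => s (Y a) (Y b)) := by
  intro hA
  obtain ⟨a01, a10, a12, a21, a20, a02, a30, a03, a31, a13, a32, a23, a40, a04, a41, a14, a42,
    a24, a34, a43⟩ := XX_vals hs Y e h
  have h3 := alt_sum hA 3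
  rw [Fin.sum_univ_five] at h3
  simp only [a30, a31, a32, a34, zero hs] at h3
  rcases he with rfl | rfl <;> norm_num at h3

theorem XX_pos {s : V → V → ℤ} (hs : IsT s) (Y : Fin 5 → V) (h : XX s Y (-1)) :
    Pos (payT s Y) Finset.univ := by
  obtain ⟨a01, a10, a12, a21, a20, a02, a30, a03, a31, a13, a32, a23, a40, a04, a41, a14, a42,
    a24, a34, a43⟩ := XX_vals hs Y (-1) h
  refine ⟨Finset.univ_nonempty, ![1, 1, 1, 3, 3], ?_, ?_⟩
  · intro i _
    fin_cases i <;> simp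
  · intro j _
    rw [Fin.sum_univ_five]
    unfold payT
    fin_cases j <;>
      simp [a01, a10, a12, a21, a20, a02, a30, a03, a31, a13, a32, a23, a40, a04, a41, a14, a42,
        a24, a34, a43, zero hs] <;> norm_num

theorem split_XX {s : V → V → ℤ} (hs : IsT s) (Y : Fin 5 → V) :
    ind (Cyc s (Y 0) (Y 1) (Y 2)) * (ind (Up s (Y 3) (Y 0) (Y 1) (Y 2)) *
      ind (Dn s (Y 4) (Y 0) (Y 1) (Y 2))) ≤ ind (XX s Y 1) + ind (XX s Y (-1)) := by
  rw [← ind_and, ← ind_and]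
  refine le_trans (ind_mono fun h => ?_) (ind_or_le _ _)
  obtain ⟨h1, h2, h3⟩ := h
  have hne : Y 3 ≠ Y 4 := by
    intro h'
    have h4 := h2.1
    have h5 := h3.1
    rw [h', h5] at h4
    norm_num at h4
  rcases hs.pm _ _ hne with h4 | h4
  · exact Or.inl ⟨h1, h2, h3, h4⟩
  · exact Or.inr ⟨h1, h2, h3, h4⟩

theorem diff_ind {s : V → V → ℤ} (hs : IsT s) (a b c : V) (h : Cyc s a b c) (y : V) :
    ind (Up s y a b c) - ind (Dn s y a b c) =
      ((s y a : ℝ) + (s y b : ℝ) + (s y c : ℝ) + (s y a : ℝ) * (s y b : ℝ) * (s y c : ℝ)) / 4 := by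
  obtain ⟨h1, h2, h3⟩ := h
  have h1' : s b a = -1 := by rw [hs.skew a b, h1]
  have h2' : s c b = -1 := by rw [hs.skew b c, h2]
  have h3' : s a c = -1 := by rw [hs.skew c a, h3]
  by_cases ha : y = a
  · subst ha
    rw [ind_of_not, ind_of_not, zero hs, h1, h3']
    · push_cast; ring
    · rintro ⟨h, _, _⟩; rw [zero hs] at h; norm_num at h
    · rintro ⟨h, _, _⟩; rw [zero hs] at h; norm_num at h
  by_cases hb : y = b
  · subst hb
    rw [ind_of_not, ind_of_not, zero hs, h1', h2]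
    · push_cast; ring
    · rintro ⟨_, h, _⟩; rw [zero hs] at h; norm_num at h
    · rintro ⟨_, h, _⟩; rw [zero hs] at h; norm_num at h
  by_cases hc : y = c
  · subst hc
    rw [ind_of_not, ind_of_not, zero hs, h3, h2']
    · push_cast; ring
    · rintro ⟨_, _, h⟩; rw [zero hs] at h; norm_num at h
    · rintro ⟨_, _, h⟩; rw [zero hs] at h; norm_num at h
  rcases hs.pm y a ha with p | p <;> rcases hs.pm y b hb with q | q <;>
    rcases hs.pm y c hc with r | r <;> rw [p, q, r] <;>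
    unfold Up Dn ind <;> rw [p, q, r] <;> norm_num

/-- `y` is homogeneous to the cyclic triangle `a, b, c`. -/
noncomputable def homR (s : V → V → ℤ) (y a b c : V) : ℝ :=
  ind (Cyc s a b c) * (ind (Up s y a b c) + ind (Dn s y a b c))

theorem homR_nonneg (s : V → V → ℤ) (y a b c : V) : 0 ≤ homR s y a b c :=
  mul_nonneg (ind_nonneg _) (add_nonneg (ind_nonneg _) (ind_nonneg _))

theorem homR_of {s : V → V → ℤ} {y a b c : V} (h : Cyc s a b c)
    (h' : Up s y a b c ∨ Dn s y a b c) : 1 ≤ homR s y a b c := by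
  unfold homR
  rw [ind_of h, one_mul]
  rcases h' with h' | h'
  · rw [ind_of h']; linarith [ind_nonneg (Dn s y a b c)]
  · rw [ind_of h']; linarith [ind_nonneg (Up s y a b c)]

theorem bad_cases {s : V → V → ℤ} (hs : IsT s) (x i j l : V) (h : Bad s x i j l) :
    (Cyc s i j l ∧ (Up s x i j l ∨ Dn s x i j l)) ∨ (Cyc s i l j ∧ (Up s x i l j ∨ Dn s x i l j)) ∨
    (Cyc s x j l ∧ (Up s i x j l ∨ Dn s i x j l)) ∨ (Cyc s x l j ∧ (Up s i x l j ∨ Dn s i x l j)) ∨
    (Cyc s x i l ∧ (Up s j x i l ∨ Dn s j x i l)) ∨ (Cyc s x l i ∧ (Up s j x l i ∨ Dn s j x l i)) ∨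
    (Cyc s x i j ∧ (Up s l x i j ∨ Dn s l x i j)) ∨
      (Cyc s x j i ∧ (Up s l x j i ∨ Dn s l x j i)) := by
  obtain ⟨h1, h2, h3⟩ := h
  have h4 : s x j * s x l * s j l ≠ 0 := by rw [← h1]; exact h3
  have h5 : s x l * s x i * s l i ≠ 0 := by rw [← h2]; exact h4
  have ne_of : ∀ a b : V, s a b ≠ 0 → s a b = 1 ∨ s a b = -1 := by
    intro a b hab
    refine hs.pm a b fun h => hab ?_
    rw [h]; exact zero hs b
  have hxi : s x i ≠ 0 := fun h => h3 (by rw [h]; ring)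
  have hxj : s x j ≠ 0 := fun h => h3 (by rw [h]; ring)
  have hij : s i j ≠ 0 := fun h => h3 (by rw [h]; ring)
  have hxl : s x l ≠ 0 := fun h => h4 (by rw [h]; ring)
  have hjl : s j l ≠ 0 := fun h => h4 (by rw [h]; ring)
  have hli : s l i ≠ 0 := fun h => h5 (by rw [h]; ring)
  have p := ne_of x i hxi
  have q := ne_of x j hxj
  have r := ne_of x l hxl
  have u := ne_of i j hij
  have v := ne_of j l hjl
  have w := ne_of l i hli
  unfold Cyc Up Dn
  rw [hs.skew x i, hs.skew x j, hs.skew x l, hs.skew i j, hs.skew j l, hs.skew l i]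
  clear h3 h4 h5 hxi hxj hij hxl hjl hli ne_of
  generalize s x i = P at *
  generalize s x j = Q at *
  generalize s x l = R at *
  generalize s i j = U at *
  generalize s j l = W at *
  generalize s l i = Z at *
  rcases p with rfl | rfl <;> rcases q with rfl | rfl <;> rcases r with rfl | rfl <;>
    rcases u with rfl | rfl <;> rcases v with rfl | rfl <;> rcases w with rfl | rfl <;>
    first | (exfalso; norm_num at h1; done) | (exfalso; norm_num at h2; done) | norm_num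

end five

section final

variable {V : Type*} [Fintype V]

/-- Average number of vertices beating a triple. -/
noncomputable def mup (s : V → V → ℤ) (a b c : V) : ℝ := avg (fun y => ind (Up s y a b c))

/-- Average number of vertices beaten by a triple. -/
noncomputable def mdn (s : V → V → ℤ) (a b c : V) : ℝ := avg (fun y => ind (Dn s y a b c))

theorem mup_nonneg (s : V → V → ℤ) (a b c : V) : 0 ≤ mup s a b c :=
  avg_nonneg fun _ => ind_nonneg _

theorem mdn_nonneg (s : V → V → ℤ) (a b c : V) : 0 ≤ mdn s a b c :=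
  avg_nonneg fun _ => ind_nonneg _

theorem avg_col {s : V → V → ℤ} (hs : IsT s) (a : V) : avg (fun y => (s y a : ℝ)) = - D s a := by
  unfold D
  rw [← avg_neg]
  refine avg_congr fun y => ?_
  rw [hs.skew a y]; push_cast; ring

theorem mup_sub_mdn {s : V → V → ℤ} (hs : IsT s) (a b c : V) (h : Cyc s a b c) :
    mup s a b c - mdn s a b c = (- D s a - D s b - D s c + h3 s a b c) / 4 := by
  unfold mup mdn
  rw [← avg_sub]
  have h1 : avg (fun y => ind (Up s y a b c) - ind (Dn s y a b c)) =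
      avg (fun y => ((s y a : ℝ) + (s y b : ℝ) + (s y c : ℝ) +
        (s y a : ℝ) * (s y b : ℝ) * (s y c : ℝ)) / 4) :=
    avg_congr fun y => diff_ind hs a b c h y
  rw [h1, avg_div_right, avg_add, avg_add, avg_add, avg_col hs, avg_col hs, avg_col hs]
  unfold h3
  ring

/-- Probability of (cyclic, beaten by y, beating z). -/
noncomputable def P1 (s : V → V → ℤ) : ℝ :=
  avg (fun a => avg (fun b => avg (fun c => ind (Cyc s a b c) * (mup s a b c * mdn s a b c))))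

theorem P1_le {s : V → V → ℤ} (hs : IsT s) :
    P1 s ≤ avg (fun Y : Fin 5 → V => ind (XX s Y 1)) + avg (fun Y : Fin 5 → V => ind (XX s Y (-1))) := by
  rw [← avg_add]
  refine le_trans (le_of_eq ?_) (avg_mono fun Y => split_XX hs Y)
  rw [avg_fin5]
  unfold P1
  refine avg_congr fun a => avg_congr fun b => avg_congr fun c => ?_
  have h1 : ∀ y z : V, ind (Cyc s (![a, b, c, y, z] 0) (![a, b, c, y, z] 1) (![a, b, c, y, z] 2)) *
      (ind (Up s (![a, b, c, y, z] 3) (![a, b, c, y, z] 0) (![a, b, c, y, z] 1)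
        (![a, b, c, y, z] 2)) *
      ind (Dn s (![a, b, c, y, z] 4) (![a, b, c, y, z] 0) (![a, b, c, y, z] 1)
        (![a, b, c, y, z] 2))) =
      ind (Cyc s a b c) * (ind (Up s y a b c) * ind (Dn s z a b c)) := fun y z => rfl
  simp only [h1]
  simp only [avg_mul_left, avg_mul_right]
  rfl

theorem P1_nonneg (s : V → V → ℤ) : 0 ≤ P1 s :=
  avg_nonneg fun _ => avg_nonneg fun _ => avg_nonneg fun _ =>
    mul_nonneg (ind_nonneg _) (mul_nonneg (mup_nonneg _ _ _ _) (mdn_nonneg _ _ _ _))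

/-- Second moment of the homogeneity. -/
noncomputable def T2 (s : V → V → ℤ) : ℝ :=
  avg (fun a => avg (fun b => avg (fun c => ind (Cyc s a b c) * (mup s a b c + mdn s a b c) ^ 2)))

theorem T2_le [Nonempty V] {s : V → V → ℤ} (hs : IsT s) :
    T2 s ≤ (3 * bal s + H2 s) / 4 + 4 * P1 s := by
  have h1 : ∀ a b c : V, ind (Cyc s a b c) * (mup s a b c + mdn s a b c) ^ 2 ≤
      ((D s a) ^ 2 + (D s b) ^ 2 + (D s c) ^ 2 + (h3 s a b c) ^ 2) / 4 +
        4 * (ind (Cyc s a b c) * (mup s a b c * mdn s a b c)) := by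
    intro a b c
    by_cases h : Cyc s a b c
    · rw [ind_of h]
      have h2 := mup_sub_mdn hs a b c h
      have h3' : (mup s a b c + mdn s a b c) ^ 2 = (mup s a b c - mdn s a b c) ^ 2 +
          4 * (mup s a b c * mdn s a b c) := by ring
      rw [one_mul, one_mul, h3', h2]
      have : ((- D s a - D s b - D s c + h3 s a b c) / 4) ^ 2 ≤
          ((D s a) ^ 2 + (D s b) ^ 2 + (D s c) ^ 2 + (h3 s a b c) ^ 2) / 4 := by
        nlinarith [sq_nonneg (D s a - D s b), sq_nonneg (D s a - D s c),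
          sq_nonneg (D s b - D s c), sq_nonneg (D s a + h3 s a b c),
          sq_nonneg (D s b + h3 s a b c), sq_nonneg (D s c + h3 s a b c)]
      linarith
    · rw [ind_of_not h]
      have := sq_nonneg (D s a)
      have := sq_nonneg (D s b)
      have := sq_nonneg (D s c)
      have := sq_nonneg (h3 s a b c)
      simp only [zero_mul, mul_zero, add_zero]
      positivity
  unfold T2
  refine (avg_mono fun a => avg_mono fun b => avg_mono fun c => h1 a b c).trans (le_of_eq ?_)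
  simp only [avg_add, avg_mul_left, avg_div_right, avg_const]
  rw [bal_eq]
  unfold H2 P1
  ring

/-- Probability of a homogeneous pair. -/
noncomputable def HH (s : V → V → ℤ) : ℝ :=
  avg (fun a => avg (fun b => avg (fun c => ind (Cyc s a b c) * (mup s a b c + mdn s a b c))))

theorem HH_nonneg (s : V → V → ℤ) : 0 ≤ HH s :=
  avg_nonneg fun _ => avg_nonneg fun _ => avg_nonneg fun _ =>
    mul_nonneg (ind_nonneg _) (add_nonneg (mup_nonneg _ _ _ _) (mdn_nonneg _ _ _ _))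

theorem HH_sq (s : V → V → ℤ) : (HH s) ^ 2 ≤ T2 s := by
  unfold HH T2
  refine (sq_avg_le _).trans (avg_mono fun a => (sq_avg_le _).trans (avg_mono fun b =>
    (sq_avg_le _).trans (avg_mono fun c => le_of_eq ?_)))
  have h : ind (Cyc s a b c) ^ 2 = ind (Cyc s a b c) := by
    by_cases h : Cyc s a b c
    · rw [ind_of h]; norm_num
    · rw [ind_of_not h]; norm_num
  rw [mul_pow, h]

theorem avg_homR [Nonempty V] (s : V → V → ℤ) (e : Fin 4 → Fin 4) (he : Function.Injective e) :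
    avg (fun Y : Fin 4 → V => homR s (Y (e 0)) (Y (e 1)) (Y (e 2)) (Y (e 3))) = HH s := by
  have h1 := avg_marginal (V := V) e he (fun Z => homR s (Z 0) (Z 1) (Z 2) (Z 3))
  have h2 := avg_marginal (V := V) (![3, 0, 1, 2] : Fin 4 → Fin 4) (by decide)
    (fun Z => homR s (Z 0) (Z 1) (Z 2) (Z 3))
  rw [h1, ← h2, avg_fin4]
  unfold HH
  refine avg_congr fun a => avg_congr fun b => avg_congr fun c => ?_
  have h3 : ∀ d : V, homR s (![a, b, c, d] ((![3, 0, 1, 2] : Fin 4 → Fin 4) 0))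
      (![a, b, c, d] ((![3, 0, 1, 2] : Fin 4 → Fin 4) 1))
      (![a, b, c, d] ((![3, 0, 1, 2] : Fin 4 → Fin 4) 2))
      (![a, b, c, d] ((![3, 0, 1, 2] : Fin 4 → Fin 4) 3)) = homR s d a b c := fun d => rfl
  simp only [h3]
  unfold homR mup mdn
  rw [avg_mul_left, avg_add]

theorem badP_le [Nonempty V] {s : V → V → ℤ} (hs : IsT s) : badP s ≤ 8 * HH s := by
  have h1 : ∀ Y : Fin 4 → V, ind (Bad s (Y 0) (Y 1) (Y 2) (Y 3)) ≤
      homR s (Y 0) (Y 1) (Y 2) (Y 3) + homR s (Y 0) (Y 1) (Y 3) (Y 2) +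
      homR s (Y 1) (Y 0) (Y 2) (Y 3) + homR s (Y 1) (Y 0) (Y 3) (Y 2) +
      homR s (Y 2) (Y 0) (Y 1) (Y 3) + homR s (Y 2) (Y 0) (Y 3) (Y 1) +
      homR s (Y 3) (Y 0) (Y 1) (Y 2) + homR s (Y 3) (Y 0) (Y 2) (Y 1) := by
    intro Y
    have e1 := homR_nonneg s (Y 0) (Y 1) (Y 2) (Y 3)
    have e2 := homR_nonneg s (Y 0) (Y 1) (Y 3) (Y 2)
    have e3 := homR_nonneg s (Y 1) (Y 0) (Y 2) (Y 3)
    have e4 := homR_nonneg s (Y 1) (Y 0) (Y 3) (Y 2)
    have e5 := homR_nonneg s (Y 2) (Y 0) (Y 1) (Y 3)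
    have e6 := homR_nonneg s (Y 2) (Y 0) (Y 3) (Y 1)
    have e7 := homR_nonneg s (Y 3) (Y 0) (Y 1) (Y 2)
    have e8 := homR_nonneg s (Y 3) (Y 0) (Y 2) (Y 1)
    by_cases h : Bad s (Y 0) (Y 1) (Y 2) (Y 3)
    · rw [ind_of h]
      rcases bad_cases hs _ _ _ _ h with h' | h' | h' | h' | h' | h' | h' | h' <;>
        · have := homR_of h'.1 h'.2
          linarith
    · rw [ind_of_not h]
      positivity
  unfold badP Pr
  refine (avg_mono h1).trans (le_of_eq ?_)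
  simp only [avg_add]
  have a1 := avg_homR (V := V) s ![0, 1, 2, 3] (by decide)
  have a2 := avg_homR (V := V) s ![0, 1, 3, 2] (by decide)
  have a3 := avg_homR (V := V) s ![1, 0, 2, 3] (by decide)
  have a4 := avg_homR (V := V) s ![1, 0, 3, 2] (by decide)
  have a5 := avg_homR (V := V) s ![2, 0, 1, 3] (by decide)
  have a6 := avg_homR (V := V) s ![2, 0, 3, 1] (by decide)
  have a7 := avg_homR (V := V) s ![3, 0, 1, 2] (by decide)
  have a8 := avg_homR (V := V) s ![3, 0, 2, 1] (by decide)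
  simp only [Matrix.cons_val] at a1 a2 a3 a4 a5 a6 a7 a8
  rw [a1, a2, a3, a4, a5, a6, a7, a8]
  ring

theorem carP_add_le [Nonempty V] {s : V → V → ℤ} (hs : IsT s) :
    16 * (carP s 5 + avg (fun Y : Fin 5 → V => ind (XX s Y 1))) + 10 * H2 s ≤
      1 + 5 * bal s + 410 / (Fintype.card V : ℝ) := by
  refine le_trans ?_ (avg_allOne hs)
  have h : carP s 5 + avg (fun Y : Fin 5 → V => ind (XX s Y 1)) ≤
      avg (fun Y : Fin 5 → V => ind (AllOne s Y)) := by
    unfold carP Pr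
    rw [← avg_add]
    refine avg_mono fun Y => ?_
    by_cases h1 : IsAlt (fun a b => s (Y a) (Y b))
    · rw [ind_of h1, ind_of (alt_allOne hs Y h1), ind_of_not]
      · norm_num
      · intro h2
        exact XX_not_alt hs Y 1 (Or.inl rfl) h2 h1
    · rw [ind_of_not h1, zero_add]
      exact ind_mono fun h2 => XX_allOne hs Y h2
  linarith

theorem XX_le_posNotAlt {s : V → V → ℤ} (hs : IsT s) :
    avg (fun Y : Fin 5 → V => ind (XX s Y (-1))) ≤ posNotAlt s 5 := by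
  unfold posNotAlt Pr
  exact avg_mono fun Y => ind_mono fun h =>
    ⟨XX_pos hs Y h, XX_not_alt hs Y (-1) (Or.inr rfl) h⟩

theorem H2_nonneg (s : V → V → ℤ) : 0 ≤ H2 s :=
  avg_nonneg fun _ => avg_nonneg fun _ => avg_nonneg fun _ => sq_nonneg _

theorem badP_final [Nonempty V] {s : V → V → ℤ} (hs : IsT s) :
    badP s ≤ 8 * Real.sqrt ((3 * bal s +
      (1 + 5 * bal s + 410 / (Fintype.card V : ℝ) - 16 * carP s 5) / 10) / 4 +
      4 * ((1 + 5 * bal s + 410 / (Fintype.card V : ℝ) - 16 * carP s 5) / 16 + posNotAlt s 5)) := by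
  have h1 := carP_add_le hs
  have h2 := XX_le_posNotAlt hs
  have h3 := T2_le hs
  have h4 := P1_le hs
  have h5 := HH_sq s
  have h6 := badP_le hs
  have h7 := H2_nonneg s
  have h8 : 0 ≤ avg (fun Y : Fin 5 → V => ind (XX s Y 1)) := avg_nonneg fun _ => ind_nonneg _
  have h9 : HH s ≤ Real.sqrt ((3 * bal s +
      (1 + 5 * bal s + 410 / (Fintype.card V : ℝ) - 16 * carP s 5) / 10) / 4 +
      4 * ((1 + 5 * bal s + 410 / (Fintype.card V : ℝ) - 16 * carP s 5) / 16 +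
        posNotAlt s 5)) := by
    refine Real.le_sqrt_of_sq_le ?_
    linarith
  linarith

end final

end P2a

/-- The case of five vertices. -/
theorem lt_of_five (n : ℕ → ℕ) (hn : Tendsto n atTop atTop)
    (s : ∀ m, Fin (n m) → Fin (n m) → ℤ) (hs : ∀ m, IsT (s m))
    (h5 : Tendsto (fun m => carP (s m) 5) atTop (𝓝 (1 / 16)))
    (hb : Tendsto (fun m => bal (s m)) atTop (𝓝 0))
    (hp : Tendsto (fun m => posNotAlt (s m) 5) atTop (𝓝 0)) :
    Tendsto (fun m => badP (s m)) atTop (𝓝 0) := by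
  have hn' : Tendsto (fun m => 410 / ((n m : ℕ) : ℝ)) atTop (𝓝 0) :=
    Tendsto.div_atTop tendsto_const_nhds (tendsto_natCast_atTop_atTop.comp hn)
  have hR : Tendsto (fun m => 1 + 5 * bal (s m) + 410 / ((n m : ℕ) : ℝ) - 16 * carP (s m) 5)
      atTop (𝓝 (1 + 5 * 0 + 0 - 16 * (1 / 16))) :=
    ((tendsto_const_nhds.add (hb.const_mul 5)).add hn').sub (h5.const_mul 16)
  have hE : Tendsto (fun m => 8 * Real.sqrt ((3 * bal (s m) +
      (1 + 5 * bal (s m) + 410 / ((n m : ℕ) : ℝ) - 16 * carP (s m) 5) / 10) / 4 +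
      4 * ((1 + 5 * bal (s m) + 410 / ((n m : ℕ) : ℝ) - 16 * carP (s m) 5) / 16 +
        posNotAlt (s m) 5))) atTop
      (𝓝 (8 * Real.sqrt ((3 * 0 + (1 + 5 * 0 + 0 - 16 * (1 / 16)) / 10) / 4 +
        4 * ((1 + 5 * 0 + 0 - 16 * (1 / 16)) / 16 + 0)))) := by
    refine Tendsto.const_mul 8 (Tendsto.sqrt ?_)
    exact (((hb.const_mul 3).add (hR.div_const 10)).div_const 4).add
      (((hR.div_const 16).add hp).const_mul 4)
  have h0 : 8 * Real.sqrt ((3 * 0 + (1 + 5 * 0 + 0 - 16 * (1 / 16)) / 10) / 4 +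
        4 * ((1 + 5 * 0 + 0 - 16 * (1 / 16)) / 16 + 0)) = 0 := by
    have : ((3 * 0 + (1 + 5 * 0 + 0 - 16 * (1 / 16)) / 10) / 4 +
        4 * ((1 + 5 * 0 + 0 - 16 * (1 / 16)) / 16 + 0) : ℝ) = 0 := by norm_num
    rw [this, Real.sqrt_zero, mul_zero]
  rw [h0] at hE
  refine tendsto_of_tendsto_of_tendsto_of_le_of_le' tendsto_const_nhds hE ?_ ?_
  · refine Eventually.of_forall fun m => ?_
    exact avg_nonneg fun _ => ind_nonneg _
  · filter_upwards [hn.eventually_ge_atTop 1] with m hm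
    have : Nonempty (Fin (n m)) := ⟨⟨0, hm⟩⟩
    have h := P2a.badP_final (hs m)
    rw [Fintype.card_fin] at h
    exact h

end H51.Car
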