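import Mathlib
import Pool.Agent.H51.Car.Core
import Pool.Agent.H52.Car.Avg

/-!
# Uniqueness of the balanced locally transitive limit
-/

open Finset Filter Topology

namespace H51.Car

open H52.CarAvg

namespace P2b

section transitive

variable {ι : Type*} [DecidableEq ι]

theorem exists_source (t : ι → ι → ℤ) (A : Finset ι)
    (hskew : ∀ i ∈ A, ∀ j ∈ A, t j i = - t i j)
    (hpm : ∀ i ∈ A, ∀ j ∈ A, i ≠ j → t i j = 1 ∨ t i j = -1)
    (hcyc : ∀ i ∈ A, ∀ j ∈ A, ∀ l ∈ A, ¬ (t i j = t j l ∧ t j l = t l i ∧ t i j ≠ 0))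
    (hA : A.Nonempty) : ∃ u ∈ A, ∀ w ∈ A, w ≠ u → t u w = 1 := by
  induction A using Finset.induction_on with
  | empty => exact absurd hA Finset.not_nonempty_empty
  | insert a A' ha ih =>
    by_cases hA' : A'.Nonempty
    · obtain ⟨u, hu, huw⟩ := ih
        (fun i hi j hj => hskew i (Finset.mem_insert_of_mem hi) j (Finset.mem_insert_of_mem hj))
        (fun i hi j hj => hpm i (Finset.mem_insert_of_mem hi) j (Finset.mem_insert_of_mem hj))
        (fun i hi j hj l hl => hcyc i (Finset.mem_insert_of_mem hi) j (Finset.mem_insert_of_mem hj)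
          l (Finset.mem_insert_of_mem hl)) hA'
      have hau : a ≠ u := fun h => ha (h ▸ hu)
      have haI : a ∈ insert a A' := Finset.mem_insert_self a A'
      have huI : u ∈ insert a A' := Finset.mem_insert_of_mem hu
      rcases hpm a haI u huI hau with h1 | h1
      · refine ⟨a, haI, fun w hw hwa => ?_⟩
        have hw' : w ∈ A' := Finset.mem_of_mem_insert_of_ne hw hwa
        by_cases hwu : w = u
        · rw [hwu]; exact h1
        · have h2 := huw w hw' hwu
          rcases hpm a haI w hw hwa.symm with h3 | h3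
          · exact h3
          · exfalso
            refine hcyc a haI u huI w hw ⟨by rw [h1, h2], ?_, by rw [h1]; norm_num⟩
            rw [h2, hskew a haI w hw, h3]; norm_num
      · refine ⟨u, huI, fun w hw hwu => ?_⟩
        rcases Finset.mem_insert.mp hw with h2 | h2
        · rw [h2, hskew a haI u huI, h1]; norm_num
        · exact huw w h2 hwu
    · rw [Finset.not_nonempty_iff_eq_empty] at hA'
      subst hA'
      refine ⟨a, Finset.mem_insert_self a _, fun w hw hwa => ?_⟩
      rcases Finset.mem_insert.mp hw with h | h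
      · exact absurd h hwa
      · exact absurd h (Finset.notMem_empty w)

theorem sum_prod_transitive (t : ι → ι → ℤ) : ∀ (m : ℕ) (A : Finset ι), A.card = m →
    (∀ i ∈ A, ∀ j ∈ A, t j i = - t i j) →
    (∀ i ∈ A, ∀ j ∈ A, i ≠ j → t i j = 1 ∨ t i j = -1) →
    (∀ i ∈ A, ∀ j ∈ A, ∀ l ∈ A, ¬ (t i j = t j l ∧ t j l = t l i ∧ t i j ≠ 0)) →
    ∑ v ∈ A, ∏ w ∈ A.erase v, t v w = if Odd m then 1 else 0 := by
  intro m
  induction m with
  | zero =>
    intro A hA _ _ _
    rw [Finset.card_eq_zero] at hA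
    subst hA
    simp
  | succ m ih =>
    intro A hA hskew hpm hcyc
    have hne : A.Nonempty := by
      rw [← Finset.card_pos, hA]; omega
    obtain ⟨u, hu, huw⟩ := exists_source t A hskew hpm hcyc hne
    have hsub : ∀ i ∈ A.erase u, i ∈ A := fun i hi => Finset.mem_of_mem_erase hi
    have h1 := ih (A.erase u) (by rw [Finset.card_erase_of_mem hu, hA]; rfl)
      (fun i hi j hj => hskew i (hsub i hi) j (hsub j hj))
      (fun i hi j hj => hpm i (hsub i hi) j (hsub j hj))
      (fun i hi j hj l hl => hcyc i (hsub i hi) j (hsub j hj) l (hsub l hl))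
    rw [← Finset.add_sum_erase A _ hu]
    have h2 : ∏ w ∈ A.erase u, t u w = 1 := by
      refine Finset.prod_eq_one fun w hw => ?_
      exact huw w (hsub w hw) (Finset.ne_of_mem_erase hw)
    have h3 : ∑ v ∈ A.erase u, ∏ w ∈ A.erase v, t v w =
        - ∑ v ∈ A.erase u, ∏ w ∈ (A.erase u).erase v, t v w := by
      rw [← Finset.sum_neg_distrib]
      refine Finset.sum_congr rfl fun v hv => ?_
      have hvu : v ≠ u := Finset.ne_of_mem_erase hv
      have hu' : u ∈ A.erase v := Finset.mem_erase.mpr ⟨hvu.symm, hu⟩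
      rw [← Finset.mul_prod_erase (A.erase v) _ hu', Finset.erase_right_comm]
      have h4 : t v u = -1 := by
        rw [hskew u hu v (hsub v hv), huw v (hsub v hv) hvu]
      rw [h4]; ring
    rw [h2, h3, h1]
    by_cases hm : Odd m
    · rw [if_pos hm, if_neg (by rw [Nat.not_odd_iff_even]; exact hm.add_one)]; norm_num
    · rw [if_neg hm, if_pos (by rw [Nat.not_odd_iff_even] at hm; exact hm.add_one)]; norm_num

end transitive

section pointwise

variable {V : Type*} {ι : Type*} [DecidableEq ι]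

theorem zero {s : V → V → ℤ} (hs : IsT s) (i : V) : s i i = 0 := by
  have := hs.skew i i
  omega

theorem abs_s_le {s : V → V → ℤ} (hs : IsT s) (i j : V) : |s i j| ≤ 1 := by
  by_cases h : i = j
  · subst h; rw [zero hs]; norm_num
  · rcases hs.pm i j h with h1 | h1 <;> rw [h1] <;> norm_num

theorem abs_s {s : V → V → ℤ} (hs : IsT s) (i j : V) : |(s i j : ℝ)| ≤ 1 := by
  have := abs_s_le hs i j
  exact_mod_cast this

/-- The bad event for the pair `(x, Y)`. -/
def BadEv (s : V → V → ℤ) (Y : ι → V) (x : V) : Prop :=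
  (∃ i, x = Y i) ∨ ¬ Function.Injective Y ∨
    ∃ i j l, i ≠ j ∧ j ≠ l ∧ l ≠ i ∧ Bad s x (Y i) (Y j) (Y l)

theorem bad_ne {s : V → V → ℤ} (hs : IsT s) {x i j l : V} (h : Bad s x i j l) :
    (x ≠ i ∧ x ≠ j ∧ x ≠ l) ∧ (i ≠ j ∧ j ≠ l ∧ l ≠ i) := by
  obtain ⟨h1, h2, h3⟩ := h
  have h4 : s x j * s x l * s j l ≠ 0 := by rw [← h1]; exact h3
  have h5 : s x l * s x i * s l i ≠ 0 := by rw [← h2]; exact h4
  refine ⟨⟨?_, ?_, ?_⟩, ?_, ?_, ?_⟩
  · rintro rfl; exact h3 (by rw [zero hs]; ring)
  · rintro rfl; exact h3 (by rw [zero hs x]; ring)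
  · rintro rfl; exact h4 (by rw [zero hs x]; ring)
  · rintro rfl; exact h3 (by rw [zero hs i]; ring)
  · rintro rfl; exact h4 (by rw [zero hs j]; ring)
  · rintro rfl; exact h5 (by rw [zero hs l]; ring)

theorem prod_eq_sum {s : V → V → ℤ} (hs : IsT s) (Y : ι → V) (A : Finset ι) (hA : Odd A.card)
    (x : V) (h : ¬ BadEv s Y x) :
    ∏ i ∈ A, s x (Y i) = ∑ v ∈ A, (∏ w ∈ A.erase v, s (Y v) (Y w)) * s x (Y v) := by
  unfold BadEv at h
  push Not at h
  obtain ⟨hx, hY, hb⟩ := h
  have hσ : ∀ i, s x (Y i) = 1 ∨ s x (Y i) = -1 := fun i => hs.pm _ _ (hx i)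
  have hσ2 : ∀ i, s x (Y i) * s x (Y i) = 1 := by
    intro i; rcases hσ i with h | h <;> rw [h] <;> norm_num
  have key := sum_prod_transitive (fun i j => s x (Y i) * s x (Y j) * s (Y i) (Y j)) A.card A rfl
    (by
      intro i _ j _
      rw [hs.skew (Y i) (Y j)]; ring)
    (by
      intro i _ j _ hij
      have h1 := hs.pm (Y i) (Y j) (fun h => hij (hY h))
      rcases hσ i with a | a <;> rcases hσ j with b | b <;> rcases h1 with c | c <;>
        rw [a, b, c] <;> norm_num)
    (by
      intro i _ j _ l _ hc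
      have hbad : Bad s x (Y i) (Y j) (Y l) := hc
      obtain ⟨_, h4, h5, h6⟩ := bad_ne hs hbad
      exact hb i j l (fun h => h4 (by rw [h])) (fun h => h5 (by rw [h])) (fun h => h6 (by rw [h]))
        hbad)
  rw [if_pos hA] at key
  set P := ∏ i ∈ A, s x (Y i) with hP
  have hP2 : P * P = 1 := by
    rw [hP, ← Finset.prod_mul_distrib]
    exact Finset.prod_eq_one fun i _ => hσ2 i
  have h1 : ∀ v ∈ A, ∏ w ∈ A.erase v, (s x (Y v) * s x (Y w) * s (Y v) (Y w)) =
      P * ((∏ w ∈ A.erase v, s (Y v) (Y w)) * s x (Y v)) := by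
    intro v hv
    rw [Finset.prod_mul_distrib, Finset.prod_mul_distrib, Finset.prod_const,
      Finset.card_erase_of_mem hv]
    have h2 : s x (Y v) ^ (A.card - 1) = 1 := by
      obtain ⟨r, hr⟩ := hA
      rw [hr, Nat.add_sub_cancel, pow_mul, sq, hσ2, one_pow]
    have h3 : ∏ w ∈ A.erase v, s x (Y w) = P * s x (Y v) := by
      rw [hP, ← Finset.mul_prod_erase A _ hv]
      have := hσ2 v
      linear_combination (-(∏ w ∈ A.erase v, s x (Y w))) * this
    rw [h2, h3]; ring
  rw [Finset.sum_congr rfl h1, ← Finset.mul_sum] at key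
  calc P = P * (P * ∑ v ∈ A, (∏ w ∈ A.erase v, s (Y v) (Y w)) * s x (Y v)) := by
        rw [key, mul_one]
    _ = (P * P) * ∑ v ∈ A, (∏ w ∈ A.erase v, s (Y v) (Y w)) * s x (Y v) := by ring
    _ = _ := by rw [hP2, one_mul]

end pointwise

section avgs

variable {V : Type*} [Fintype V] {ι : Type*} [Fintype ι] [DecidableEq ι]

/-- Normalised score difference. -/
noncomputable def D (s : V → V → ℤ) (x : V) : ℝ := avg (fun y : V => (s x y : ℝ))

theorem bal_eq (s : V → V → ℤ) : bal s = avg (fun x => (D s x) ^ 2) := rfl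

theorem avg_col {s : V → V → ℤ} (hs : IsT s) (a : V) : avg (fun y => (s y a : ℝ)) = - D s a := by
  unfold D
  rw [← avg_neg]
  refine avg_congr fun y => ?_
  rw [hs.skew a y]; push_cast; ring

/-- Correlation of the vertices of a tuple. -/
noncomputable def g (s : V → V → ℤ) (A : Finset ι) (Y : ι → V) : ℝ :=
  avg (fun x : V => ∏ i ∈ A, (s x (Y i) : ℝ))

omit [Fintype ι] in
theorem abs_g_le {s : V → V → ℤ} (hs : IsT s) (A : Finset ι) (hA : Odd A.card) (Y : ι → V) :
    |g s A Y| ≤ ∑ v ∈ A, |D s (Y v)| + (1 + A.card) * avg (fun x => ind (BadEv s Y x)) := by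
  have h1 : ∀ x : V, |(∏ i ∈ A, (s x (Y i) : ℝ)) -
      ∑ v ∈ A, ((∏ w ∈ A.erase v, s (Y v) (Y w) : ℤ) : ℝ) * (s x (Y v) : ℝ)| ≤
      (1 + A.card) * ind (BadEv s Y x) := by
    intro x
    by_cases hb : BadEv s Y x
    · rw [ind_of hb, mul_one]
      refine (abs_sub _ _).trans ?_
      have h2 : |∏ i ∈ A, (s x (Y i) : ℝ)| ≤ 1 := by
        rw [Finset.abs_prod]
        exact Finset.prod_le_one (fun _ _ => abs_nonneg _) fun i _ => abs_s hs _ _
      have h3 : |∑ v ∈ A, ((∏ w ∈ A.erase v, s (Y v) (Y w) : ℤ) : ℝ) * (s x (Y v) : ℝ)| ≤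
          A.card := by
        refine (Finset.abs_sum_le_sum_abs _ _).trans ?_
        calc ∑ v ∈ A, |((∏ w ∈ A.erase v, s (Y v) (Y w) : ℤ) : ℝ) * (s x (Y v) : ℝ)|
            ≤ ∑ _v ∈ A, (1 : ℝ) := by
              refine Finset.sum_le_sum fun v _ => ?_
              rw [abs_mul]
              refine mul_le_one₀ ?_ (abs_nonneg _) (abs_s hs _ _)
              push_cast
              rw [Finset.abs_prod]
              exact Finset.prod_le_one (fun _ _ => abs_nonneg _) fun i _ => abs_s hs _ _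
          _ = A.card := by simp
      linarith
    · rw [ind_of_not hb, mul_zero]
      have h2 := prod_eq_sum hs Y A hA x hb
      have h3 : (∏ i ∈ A, (s x (Y i) : ℝ)) =
          ∑ v ∈ A, ((∏ w ∈ A.erase v, s (Y v) (Y w) : ℤ) : ℝ) * (s x (Y v) : ℝ) := by
        have := congrArg (fun z : ℤ => (z : ℝ)) h2
        push_cast at this ⊢
        exact this
      rw [h3, sub_self, abs_zero]
  have h4 : g s A Y = avg (fun x => (∏ i ∈ A, (s x (Y i) : ℝ)) -
      ∑ v ∈ A, ((∏ w ∈ A.erase v, s (Y v) (Y w) : ℤ) : ℝ) * (s x (Y v) : ℝ)) +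
      ∑ v ∈ A, ((∏ w ∈ A.erase v, s (Y v) (Y w) : ℤ) : ℝ) * (- D s (Y v)) := by
    rw [avg_sub, avg_sum]
    simp only [avg_mul_left, avg_col hs]
    unfold g
    ring
  rw [h4]
  refine (abs_add_le _ _).trans ?_
  have h5 : |avg (fun x => (∏ i ∈ A, (s x (Y i) : ℝ)) -
      ∑ v ∈ A, ((∏ w ∈ A.erase v, s (Y v) (Y w) : ℤ) : ℝ) * (s x (Y v) : ℝ))| ≤
      (1 + A.card) * avg (fun x => ind (BadEv s Y x)) := by
    refine (abs_avg_le _).trans ?_
    rw [← avg_mul_left]
    exact avg_mono h1
  have h6 : |∑ v ∈ A, ((∏ w ∈ A.erase v, s (Y v) (Y w) : ℤ) : ℝ) * (- D s (Y v))| ≤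
      ∑ v ∈ A, |D s (Y v)| := by
    refine (Finset.abs_sum_le_sum_abs _ _).trans (Finset.sum_le_sum fun v _ => ?_)
    rw [abs_mul, abs_neg]
    refine mul_le_of_le_one_left (abs_nonneg _) ?_
    push_cast
    rw [Finset.abs_prod]
    exact Finset.prod_le_one (fun _ _ => abs_nonneg _) fun i _ => abs_s hs _ _
  linarith

theorem avg_abs_D_le [Nonempty V] (s : V → V → ℤ) (v : ι) :
    avg (fun Y : ι → V => |D s (Y v)|) ≤ Real.sqrt (bal s) := by
  rw [avg_one v (fun x => |D s x|)]
  refine Real.le_sqrt_of_sq_le ?_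
  refine (sq_avg_le _).trans (le_of_eq ?_)
  rw [bal_eq]
  exact avg_congr fun x => sq_abs _

theorem avg_bad [Nonempty V] (s : V → V → ℤ) (i j l : ι) (hij : i ≠ j) (hjl : j ≠ l)
    (hli : l ≠ i) :
    avg (fun Y : ι → V => avg (fun x => ind (Bad s x (Y i) (Y j) (Y l)))) = badP s := by
  rw [avg_comm]
  unfold badP Pr
  rw [avg_fin_succ]
  refine avg_congr fun x => ?_
  have hinj : Function.Injective (![i, j, l] : Fin 3 → ι) := by
    intro a b hab
    fin_cases a <;> fin_cases b <;> simp_all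
  exact avg_marginal (V := V) (![i, j, l] : Fin 3 → ι) hinj
    (fun Z => ind (Bad s x (Z 0) (Z 1) (Z 2)))

theorem badP_nonneg (s : V → V → ℤ) : 0 ≤ badP s := avg_nonneg fun _ => ind_nonneg _

theorem avg_badEv [Nonempty V] (s : V → V → ℤ) :
    avg (fun Y : ι → V => avg (fun x => ind (BadEv s Y x))) ≤
      (Fintype.card ι : ℝ) * (1 / (Fintype.card V : ℝ)) +
      ((Fintype.card ι : ℝ) ^ 2 / (Fintype.card V : ℝ)) + (Fintype.card ι : ℝ) ^ 3 * badP s := by
  have h1 : ∀ (Y : ι → V) (x : V), ind (BadEv s Y x) ≤ ∑ i : ι, ind (Y i = x) +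
      ind (¬ Function.Injective Y) + ∑ i : ι, ∑ j : ι, ∑ l : ι,
        (if i ≠ j ∧ j ≠ l ∧ l ≠ i then ind (Bad s x (Y i) (Y j) (Y l)) else 0) := by
    intro Y x
    have n1 : 0 ≤ ∑ i : ι, ind (Y i = x) := Finset.sum_nonneg fun _ _ => ind_nonneg _
    have n2 : 0 ≤ ind (¬ Function.Injective Y) := ind_nonneg _
    have n3 : ∀ i j l : ι,
        0 ≤ (if i ≠ j ∧ j ≠ l ∧ l ≠ i then ind (Bad s x (Y i) (Y j) (Y l)) else 0) := by
      intro i j l
      split_ifs
      · exact ind_nonneg _
      · exact le_rfl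
    have n4 : 0 ≤ ∑ i : ι, ∑ j : ι, ∑ l : ι,
        (if i ≠ j ∧ j ≠ l ∧ l ≠ i then ind (Bad s x (Y i) (Y j) (Y l)) else 0) :=
      Finset.sum_nonneg fun i _ => Finset.sum_nonneg fun j _ => Finset.sum_nonneg fun l _ =>
        n3 i j l
    by_cases hb : BadEv s Y x
    · rw [ind_of hb]
      rcases hb with ⟨i, hi⟩ | hY | ⟨i, j, l, hij, hjl, hli, hbad⟩
      · have : (1 : ℝ) ≤ ∑ i : ι, ind (Y i = x) := by
          calc (1 : ℝ) = ind (Y i = x) := (ind_of hi.symm).symm
            _ ≤ _ := Finset.single_le_sum (f := fun i => ind (Y i = x))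
              (fun _ _ => ind_nonneg _) (Finset.mem_univ i)
        linarith
      · rw [ind_of hY]; linarith
      · have : (1 : ℝ) ≤ ∑ i : ι, ∑ j : ι, ∑ l : ι,
            (if i ≠ j ∧ j ≠ l ∧ l ≠ i then ind (Bad s x (Y i) (Y j) (Y l)) else 0) := by
          calc (1 : ℝ) = (if i ≠ j ∧ j ≠ l ∧ l ≠ i then ind (Bad s x (Y i) (Y j) (Y l)) else 0) := by
                rw [if_pos ⟨hij, hjl, hli⟩, ind_of hbad]
            _ ≤ ∑ l : ι, (if i ≠ j ∧ j ≠ l ∧ l ≠ i then
                ind (Bad s x (Y i) (Y j) (Y l)) else 0) :=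
              Finset.single_le_sum (f := fun l => (if i ≠ j ∧ j ≠ l ∧ l ≠ i then
                ind (Bad s x (Y i) (Y j) (Y l)) else 0)) (fun l _ => n3 i j l) (Finset.mem_univ l)
            _ ≤ ∑ j : ι, ∑ l : ι, (if i ≠ j ∧ j ≠ l ∧ l ≠ i then
                ind (Bad s x (Y i) (Y j) (Y l)) else 0) :=
              Finset.single_le_sum (f := fun j => ∑ l : ι, (if i ≠ j ∧ j ≠ l ∧ l ≠ i then
                ind (Bad s x (Y i) (Y j) (Y l)) else 0))
                (fun j _ => Finset.sum_nonneg fun l _ => n3 i j l) (Finset.mem_univ j)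
            _ ≤ _ := Finset.single_le_sum (f := fun i => ∑ j : ι, ∑ l : ι,
                (if i ≠ j ∧ j ≠ l ∧ l ≠ i then ind (Bad s x (Y i) (Y j) (Y l)) else 0))
                (fun i _ => Finset.sum_nonneg fun j _ => Finset.sum_nonneg fun l _ => n3 i j l)
                (Finset.mem_univ i)
        linarith
    · rw [ind_of_not hb]; linarith
  refine (avg_mono fun Y => avg_mono fun x => h1 Y x).trans ?_
  simp only [avg_add, avg_sum, avg_ind_eq]
  have h2 : ∀ Y : ι → V, avg (fun _x : V => ind (¬ Function.Injective Y)) =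
      ind (¬ Function.Injective Y) := fun Y => avg_const _
  simp only [h2]
  have h3 := Pr_not_inj (V := V) (ι := ι)
  have h4 : ∑ i : ι, avg (fun _ : ι → V => 1 / (Fintype.card V : ℝ)) =
      (Fintype.card ι : ℝ) * (1 / (Fintype.card V : ℝ)) := by
    simp only [avg_const, Finset.sum_const, Finset.card_univ, nsmul_eq_mul]
  have h5 : ∑ i : ι, ∑ j : ι, ∑ l : ι, avg (fun Y : ι → V => avg (fun x : V =>
      (if i ≠ j ∧ j ≠ l ∧ l ≠ i then ind (Bad s x (Y i) (Y j) (Y l)) else 0))) ≤
      (Fintype.card ι : ℝ) ^ 3 * badP s := by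
    calc ∑ i : ι, ∑ j : ι, ∑ l : ι, avg (fun Y : ι → V => avg (fun x : V =>
        (if i ≠ j ∧ j ≠ l ∧ l ≠ i then ind (Bad s x (Y i) (Y j) (Y l)) else 0)))
        ≤ ∑ _i : ι, ∑ _j : ι, ∑ _l : ι, badP s := by
          refine Finset.sum_le_sum fun i _ => Finset.sum_le_sum fun j _ =>
            Finset.sum_le_sum fun l _ => ?_
          by_cases h : i ≠ j ∧ j ≠ l ∧ l ≠ i
          · simp only [if_pos h]
            exact le_of_eq (avg_bad s i j l h.1 h.2.1 h.2.2)
          · simp only [if_neg h, avg_zero]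
            exact badP_nonneg s
      _ = (Fintype.card ι : ℝ) ^ 3 * badP s := by
          simp only [Finset.sum_const, Finset.card_univ, nsmul_eq_mul]; ring
  rw [h4]
  linarith

theorem avg_abs_g [Nonempty V] {s : V → V → ℤ} (hs : IsT s) (A : Finset ι) (hA : Odd A.card) :
    avg (fun Y : ι → V => |g s A Y|) ≤ A.card * Real.sqrt (bal s) +
      (1 + A.card) * ((Fintype.card ι : ℝ) * (1 / (Fintype.card V : ℝ)) +
      ((Fintype.card ι : ℝ) ^ 2 / (Fintype.card V : ℝ)) + (Fintype.card ι : ℝ) ^ 3 * badP s) := by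
  refine (avg_mono fun Y => abs_g_le hs A hA Y).trans ?_
  rw [avg_add, avg_sum, avg_mul_left]
  have h1 : ∑ v ∈ A, avg (fun Y : ι → V => |D s (Y v)|) ≤ A.card * Real.sqrt (bal s) := by
    calc ∑ v ∈ A, avg (fun Y : ι → V => |D s (Y v)|) ≤ ∑ _v ∈ A, Real.sqrt (bal s) :=
          Finset.sum_le_sum fun v _ => avg_abs_D_le s v
      _ = A.card * Real.sqrt (bal s) := by rw [Finset.sum_const, nsmul_eq_mul]
  have h2 := mul_le_mul_of_nonneg_left (avg_badEv (ι := ι) s)
    (show (0 : ℝ) ≤ 1 + A.card by positivity)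
  linarith

end avgs

section switching

variable {ι : Type*} [DecidableEq ι]

/-- Switching at the vertices of `S`. -/
def sw (S : Finset ι) (B : ι → ι → ℤ) (i j : ι) : ℤ :=
  (if i ∈ S then -1 else 1) * (if j ∈ S then -1 else 1) * B i j

theorem sw_isT (S : Finset ι) {B : ι → ι → ℤ} (hB : IsT B) : IsT (sw S B) := by
  constructor
  · intro i j
    unfold sw
    rw [hB.skew i j]; ring
  · intro i j hij
    unfold sw
    rcases hB.pm i j hij with h | h <;> rw [h] <;> split_ifs <;> norm_num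

theorem sw_empty (B : ι → ι → ℤ) : sw ∅ B = B := by
  funext i j
  unfold sw
  simp

theorem sw_insert (v : ι) (S : Finset ι) (hv : v ∉ S) (B : ι → ι → ℤ) :
    sw (insert v S) B = sw {v} (sw S B) := by
  funext i j
  unfold sw
  simp only [Finset.mem_insert, Finset.mem_singleton]
  by_cases hi : i = v
  · subst hi
    by_cases hj : j = i
    · subst hj
      simp [hv]
    · by_cases hjS : j ∈ S <;> simp [hv, hj, hjS]
  · by_cases hj : j = v
    · subst hj
      by_cases hiS : i ∈ S <;> simp [hv, hi, hiS]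
    · simp [hi, hj]

variable {V : Type*}

theorem event_update (s : V → V → ℤ) (hs : IsT s) (B : ι → ι → ℤ) (hB : IsT B) (v : ι)
    (Y : ι → V) (x : V) :
    (∀ i j, s (Function.update Y v x i) (Function.update Y v x j) = B i j) ↔
      ((∀ i j, i ≠ v → j ≠ v → s (Y i) (Y j) = B i j) ∧ ∀ i, i ≠ v → s x (Y i) = B v i) := by
  constructor
  · intro h
    refine ⟨fun i j hi hj => ?_, fun i hi => ?_⟩
    · have := h i j
      rwa [Function.update_of_ne hi, Function.update_of_ne hj] at this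
    · have := h v i
      rwa [Function.update_self, Function.update_of_ne hi] at this
  · rintro ⟨h1, h2⟩ i j
    by_cases hi : i = v
    · subst hi
      rw [Function.update_self]
      by_cases hj : j = i
      · subst hj
        rw [Function.update_self, zero hs, zero hB]
      · rw [Function.update_of_ne hj]; exact h2 j hj
    · rw [Function.update_of_ne hi]
      by_cases hj : j = v
      · subst hj
        rw [Function.update_self, hs.skew x (Y i), h2 i hi, hB.skew i j, neg_neg]
      · rw [Function.update_of_ne hj]; exact h1 i j hi hj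

theorem sw_single_ne (v i j : ι) (hi : i ≠ v) (hj : j ≠ v) (B : ι → ι → ℤ) :
    sw {v} B i j = B i j := by
  unfold sw
  simp [hi, hj]

theorem sw_single_left (v i : ι) (hi : i ≠ v) (B : ι → ι → ℤ) :
    sw {v} B v i = - B v i := by
  unfold sw
  simp [hi]

theorem event_update_sw (s : V → V → ℤ) (hs : IsT s) (B : ι → ι → ℤ) (hB : IsT B) (v : ι)
    (Y : ι → V) (x : V) :
    (∀ i j, s (Function.update Y v x i) (Function.update Y v x j) = sw {v} B i j) ↔
      ((∀ i j, i ≠ v → j ≠ v → s (Y i) (Y j) = B i j) ∧ ∀ i, i ≠ v → s x (Y i) = - B v i) := by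
  rw [event_update s hs (sw {v} B) (sw_isT _ hB) v Y x]
  refine and_congr ?_ ?_
  · refine forall_congr' fun i => forall_congr' fun j => ?_
    refine imp_congr_right fun hi => imp_congr_right fun hj => ?_
    rw [sw_single_ne v i j hi hj]
  · refine forall_congr' fun i => imp_congr_right fun hi => ?_
    rw [sw_single_left v i hi]

/-- Product formula for the indicator of a pattern. -/
theorem ind_pattern {s : V → V → ℤ} (hs : IsT s) (R : Finset ι) (b : ι → ℤ)
    (hb : ∀ i ∈ R, b i = 1 ∨ b i = -1) (Y : ι → V) (x : V) :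
    |ind (∀ i ∈ R, s x (Y i) = b i) - ∏ i ∈ R, ((1 + (b i : ℝ) * (s x (Y i) : ℝ)) / 2)| ≤
      ind (∃ i, Y i = x) := by
  have hfac : ∀ i ∈ R, 0 ≤ (1 + (b i : ℝ) * (s x (Y i) : ℝ)) / 2 ∧
      (1 + (b i : ℝ) * (s x (Y i) : ℝ)) / 2 ≤ 1 := by
    intro i hi
    have h1 := abs_le.mp (abs_s hs x (Y i))
    rcases hb i hi with h | h <;> rw [h] <;> push_cast <;> constructor <;> linarith
  by_cases hx : ∃ i, Y i = x
  · rw [ind_of hx]
    have h1 : 0 ≤ ∏ i ∈ R, ((1 + (b i : ℝ) * (s x (Y i) : ℝ)) / 2) :=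
      Finset.prod_nonneg fun i hi => (hfac i hi).1
    have h2 : ∏ i ∈ R, ((1 + (b i : ℝ) * (s x (Y i) : ℝ)) / 2) ≤ 1 :=
      Finset.prod_le_one (fun i hi => (hfac i hi).1) fun i hi => (hfac i hi).2
    have h3 := ind_nonneg (∀ i ∈ R, s x (Y i) = b i)
    have h4 := ind_le_one (∀ i ∈ R, s x (Y i) = b i)
    rw [abs_le]
    constructor <;> linarith
  · rw [ind_of_not hx]
    push Not at hx
    have hv : ∀ i, s x (Y i) = 1 ∨ s x (Y i) = -1 := fun i => hs.pm _ _ (fun h => hx i h.symm)
    have h0 : ind (∀ i ∈ R, s x (Y i) = b i) =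
        ∏ i ∈ R, ((1 + (b i : ℝ) * (s x (Y i) : ℝ)) / 2) := by
      by_cases hall : ∀ i ∈ R, s x (Y i) = b i
      · rw [ind_of hall]
        symm
        refine Finset.prod_eq_one fun i hi => ?_
        rw [hall i hi]
        rcases hb i hi with h | h <;> rw [h] <;> norm_num
      · rw [ind_of_not hall]
        push Not at hall
        obtain ⟨i, hi, hne⟩ := hall
        symm
        refine Finset.prod_eq_zero hi ?_
        rcases hb i hi with h | h <;> rcases hv i with h' | h' <;>
          first | (rw [h, h']; push_cast; norm_num; done) | exact absurd (by rw [h, h']) hne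
    rw [h0, sub_self, abs_zero]

omit [DecidableEq ι] in
theorem prod_pattern (R : Finset ι) (b : ι → ℝ) (σ : ℝ) (s : ι → ℝ) :
    ∏ i ∈ R, ((1 + σ * b i * s i) / 2) =
      ∑ A ∈ R.powerset, (1 / 2) ^ R.card * (σ ^ A.card * (∏ i ∈ A, b i) * ∏ i ∈ A, s i) := by
  rw [Finset.prod_div_distrib, Finset.prod_const, Finset.prod_one_add, div_eq_mul_inv, mul_comm,
    Finset.mul_sum]
  refine Finset.sum_congr rfl fun A _ => ?_
  rw [Finset.prod_mul_distrib, Finset.prod_mul_distrib, Finset.prod_const, one_div, inv_pow]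

end switching

section flip

variable {V : Type*} [Fintype V] {k : ℕ}

theorem flip_inner [Nonempty V] {s : V → V → ℤ} (hs : IsT s) (B : Fin k → Fin k → ℤ)
    (hB : IsT B) (v : Fin k) (Y : Fin k → V) :
    |avg (fun x => ind (∀ i ∈ Finset.univ.erase v, s x (Y i) = B v i) -
      ind (∀ i ∈ Finset.univ.erase v, s x (Y i) = - B v i))| ≤
      ∑ A ∈ (Finset.univ.erase v).powerset, (if Odd A.card then 2 * |g s A Y| else 0) +
        2 * (k * (1 / (Fintype.card V : ℝ))) := by
  set R : Finset (Fin k) := Finset.univ.erase v with hR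
  have hb : ∀ i ∈ R, B v i = 1 ∨ B v i = -1 := fun i hi =>
    hB.pm v i (Finset.ne_of_mem_erase hi).symm
  have hb' : ∀ i ∈ R, - B v i = 1 ∨ - B v i = -1 := by
    intro i hi
    rcases hb i hi with h | h <;> rw [h] <;> norm_num
  have h1 : ∀ x : V, |(ind (∀ i ∈ R, s x (Y i) = B v i) - ind (∀ i ∈ R, s x (Y i) = - B v i)) -
      (∏ i ∈ R, ((1 + 1 * (B v i : ℝ) * (s x (Y i) : ℝ)) / 2) -
        ∏ i ∈ R, ((1 + (-1) * (B v i : ℝ) * (s x (Y i) : ℝ)) / 2))| ≤
      2 * ind (∃ i, Y i = x) := by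
    intro x
    have a1 := abs_le.mp (ind_pattern hs R (fun i => B v i) hb Y x)
    have a2 := abs_le.mp (ind_pattern hs R (fun i => - B v i) hb' Y x)
    have e1 : ∏ i ∈ R, ((1 + 1 * (B v i : ℝ) * (s x (Y i) : ℝ)) / 2) =
        ∏ i ∈ R, ((1 + (B v i : ℝ) * (s x (Y i) : ℝ)) / 2) :=
      Finset.prod_congr rfl fun i _ => by ring
    have e2 : ∏ i ∈ R, ((1 + (-1) * (B v i : ℝ) * (s x (Y i) : ℝ)) / 2) =
        ∏ i ∈ R, ((1 + ((- B v i : ℤ) : ℝ) * (s x (Y i) : ℝ)) / 2) :=
      Finset.prod_congr rfl fun i _ => by push_cast; ring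
    rw [e1, e2, abs_le]
    constructor <;> linarith [a1.1, a1.2, a2.1, a2.2]
  have h2 : avg (fun x : V => ∏ i ∈ R, ((1 + 1 * (B v i : ℝ) * (s x (Y i) : ℝ)) / 2) -
        ∏ i ∈ R, ((1 + (-1) * (B v i : ℝ) * (s x (Y i) : ℝ)) / 2)) =
      ∑ A ∈ R.powerset, (1 / 2) ^ R.card * ((1 - (-1) ^ A.card) * (∏ i ∈ A, (B v i : ℝ)) *
        g s A Y) := by
    have e3 : ∀ x : V, ∏ i ∈ R, ((1 + 1 * (B v i : ℝ) * (s x (Y i) : ℝ)) / 2) -
        ∏ i ∈ R, ((1 + (-1) * (B v i : ℝ) * (s x (Y i) : ℝ)) / 2) =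
        ∑ A ∈ R.powerset, ((1 / 2) ^ R.card * ((1 - (-1) ^ A.card) *
          (∏ i ∈ A, (B v i : ℝ)))) * ∏ i ∈ A, (s x (Y i) : ℝ) := by
      intro x
      rw [prod_pattern R (fun i => (B v i : ℝ)) 1 (fun i => (s x (Y i) : ℝ)),
        prod_pattern R (fun i => (B v i : ℝ)) (-1) (fun i => (s x (Y i) : ℝ)),
        ← Finset.sum_sub_distrib]
      refine Finset.sum_congr rfl fun A _ => ?_
      ring
    simp only [e3]
    rw [avg_sum]
    refine Finset.sum_congr rfl fun A _ => ?_
    rw [avg_mul_left]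
    unfold g
    ring
  have h3 : |∑ A ∈ R.powerset, (1 / 2 : ℝ) ^ R.card * ((1 - (-1) ^ A.card) *
      (∏ i ∈ A, (B v i : ℝ)) * g s A Y)| ≤
      ∑ A ∈ R.powerset, (if Odd A.card then 2 * |g s A Y| else 0) := by
    refine (Finset.abs_sum_le_sum_abs _ _).trans (Finset.sum_le_sum fun A _ => ?_)
    have e4 : |(1 / 2 : ℝ) ^ R.card| ≤ 1 := by
      rw [abs_of_nonneg (by positivity)]
      exact pow_le_one₀ (by norm_num) (by norm_num)
    have e5 : |∏ i ∈ A, (B v i : ℝ)| ≤ 1 := by
      rw [Finset.abs_prod]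
      exact Finset.prod_le_one (fun _ _ => abs_nonneg _) fun i _ => abs_s hB _ _
    by_cases hA : Odd A.card
    · rw [if_pos hA, hA.neg_one_pow, abs_mul, abs_mul, abs_mul]
      have e6 : |(1 : ℝ) - -1| = 2 := by norm_num
      rw [e6]
      calc |(1 / 2 : ℝ) ^ R.card| * (2 * |∏ i ∈ A, (B v i : ℝ)| * |g s A Y|)
          ≤ 1 * (2 * 1 * |g s A Y|) := by
            refine mul_le_mul e4 ?_ (by positivity) (by norm_num)
            refine mul_le_mul_of_nonneg_right ?_ (abs_nonneg _)
            linarith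
        _ = 2 * |g s A Y| := by ring
    · rw [if_neg hA]
      rw [Nat.not_odd_iff_even] at hA
      rw [hA.neg_one_pow, sub_self, zero_mul, zero_mul, mul_zero, abs_zero]
  have h4 : avg (fun x : V => ind (∃ i, Y i = x)) ≤ k * (1 / (Fintype.card V : ℝ)) := by
    have e7 : ∀ x : V, ind (∃ i, Y i = x) ≤ ∑ i : Fin k, ind (Y i = x) := by
      intro x
      by_cases h : ∃ i, Y i = x
      · obtain ⟨i, hi⟩ := h
        calc ind (∃ i, Y i = x) ≤ 1 := ind_le_one _
          _ = ind (Y i = x) := (ind_of hi).symm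
          _ ≤ _ := Finset.single_le_sum (f := fun i => ind (Y i = x))
            (fun _ _ => ind_nonneg _) (Finset.mem_univ i)
      · rw [ind_of_not h]
        exact Finset.sum_nonneg fun _ _ => ind_nonneg _
    refine (avg_mono e7).trans (le_of_eq ?_)
    rw [avg_sum]
    simp only [avg_ind_eq, Finset.sum_const, Finset.card_univ, Fintype.card_fin, nsmul_eq_mul]
  have h5 : avg (fun x => ind (∀ i ∈ R, s x (Y i) = B v i) - ind (∀ i ∈ R, s x (Y i) = - B v i)) =
      avg (fun x => (ind (∀ i ∈ R, s x (Y i) = B v i) - ind (∀ i ∈ R, s x (Y i) = - B v i)) -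
      (∏ i ∈ R, ((1 + 1 * (B v i : ℝ) * (s x (Y i) : ℝ)) / 2) -
        ∏ i ∈ R, ((1 + (-1) * (B v i : ℝ) * (s x (Y i) : ℝ)) / 2))) +
      avg (fun x : V => ∏ i ∈ R, ((1 + 1 * (B v i : ℝ) * (s x (Y i) : ℝ)) / 2) -
        ∏ i ∈ R, ((1 + (-1) * (B v i : ℝ) * (s x (Y i) : ℝ)) / 2)) := by
    rw [← avg_add]
    exact avg_congr fun x => by ring
  rw [h5, h2]
  refine (abs_add_le _ _).trans ?_
  have h6 := (abs_avg_le (fun x => (ind (∀ i ∈ R, s x (Y i) = B v i) -
      ind (∀ i ∈ R, s x (Y i) = - B v i)) -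
      (∏ i ∈ R, ((1 + 1 * (B v i : ℝ) * (s x (Y i) : ℝ)) / 2) -
        ∏ i ∈ R, ((1 + (-1) * (B v i : ℝ) * (s x (Y i) : ℝ)) / 2)))).trans (avg_mono h1)
  rw [avg_mul_left] at h6
  linarith

theorem flip_bound [Nonempty V] {s : V → V → ℤ} (hs : IsT s) (B : Fin k → Fin k → ℤ)
    (hB : IsT B) (v : Fin k) :
    |lab s B - lab s (sw {v} B)| ≤
      ∑ A ∈ (Finset.univ.erase v).powerset, (if Odd A.card then
        2 * avg (fun Y : Fin k → V => |g s A Y|) else 0) + 2 * (k * (1 / (Fintype.card V : ℝ))) := by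
  have e1 : lab s B = avg (fun Y : Fin k → V => avg (fun x =>
      ind (∀ i j, i ≠ v → j ≠ v → s (Y i) (Y j) = B i j) *
        ind (∀ i ∈ Finset.univ.erase v, s x (Y i) = B v i))) := by
    unfold lab Pr
    rw [avg_update v]
    refine avg_congr fun Y => avg_congr fun x => ?_
    rw [← ind_and]
    refine ind_congr ((event_update s hs B hB v Y x).trans ?_)
    simp only [Finset.mem_erase, Finset.mem_univ, and_true]
  have e2 : lab s (sw {v} B) = avg (fun Y : Fin k → V => avg (fun x =>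
      ind (∀ i j, i ≠ v → j ≠ v → s (Y i) (Y j) = B i j) *
        ind (∀ i ∈ Finset.univ.erase v, s x (Y i) = - B v i))) := by
    unfold lab Pr
    rw [avg_update v]
    refine avg_congr fun Y => avg_congr fun x => ?_
    rw [← ind_and]
    refine ind_congr ((event_update_sw s hs B hB v Y x).trans ?_)
    simp only [Finset.mem_erase, Finset.mem_univ, and_true]
  rw [e1, e2, ← avg_sub]
  refine (abs_avg_le _).trans ?_
  have e3 : ∀ Y : Fin k → V, |avg (fun x => ind (∀ i j, i ≠ v → j ≠ v → s (Y i) (Y j) = B i j) *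
        ind (∀ i ∈ Finset.univ.erase v, s x (Y i) = B v i)) -
      avg (fun x => ind (∀ i j, i ≠ v → j ≠ v → s (Y i) (Y j) = B i j) *
        ind (∀ i ∈ Finset.univ.erase v, s x (Y i) = - B v i))| ≤
      ∑ A ∈ (Finset.univ.erase v).powerset, (if Odd A.card then 2 * |g s A Y| else 0) +
        2 * (k * (1 / (Fintype.card V : ℝ))) := by
    intro Y
    rw [avg_mul_left, avg_mul_left, ← mul_sub, ← avg_sub, abs_mul]
    have e4 : |ind (∀ i j, i ≠ v → j ≠ v → s (Y i) (Y j) = B i j)| ≤ 1 := by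
      rw [abs_of_nonneg (ind_nonneg _)]
      exact ind_le_one _
    refine (mul_le_of_le_one_left (abs_nonneg _) e4).trans ?_
    exact flip_inner hs B hB v Y
  refine (avg_mono e3).trans (le_of_eq ?_)
  rw [avg_add, avg_sum, avg_const]
  congr 1
  refine Finset.sum_congr rfl fun A _ => ?_
  by_cases hA : Odd A.card
  · simp only [if_pos hA, avg_mul_left]
  · simp only [if_neg hA, avg_zero]

theorem lab_perm (s : V → V → ℤ) (B : Fin k → Fin k → ℤ) (r : Equiv.Perm (Fin k)) :
    lab s (fun i j => B (r i) (r j)) = lab s B := by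
  unfold lab Pr
  rw [← avg_perm r (fun Y : Fin k → V => ind (∀ i j, s (Y i) (Y j) = B (r i) (r j)))]
  refine avg_congr fun Y => ind_congr ?_
  constructor
  · intro h i j
    have := h (r.symm i) (r.symm j)
    simpa using this
  · intro h i j
    exact h (r i) (r j)

end flip

section std

variable {k : ℕ}

/-- The standard transitive tournament. -/
def std (k : ℕ) (i j : Fin k) : ℤ := if i < j then 1 else if j < i then -1 else 0

/-- Transitive labelled tournaments. -/
def TR (B : Fin k → Fin k → ℤ) : Prop :=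
  IsT B ∧ ∀ i j l, ¬ (B i j = B j l ∧ B j l = B l i ∧ B i j ≠ 0)

theorem LT_to_TR {k : ℕ} (B : Fin (k + 1) → Fin (k + 1) → ℤ) (h : LT B) :
    TR (sw (Finset.univ.filter fun i => B 0 i = -1) B) := by
  obtain ⟨hB, hbad⟩ := h
  set S := Finset.univ.filter (fun i => B 0 i = -1) with hS
  have hmem : ∀ i, i ∈ S ↔ B 0 i = -1 := by intro i; simp [hS]
  have h00 : (0 : Fin (k + 1)) ∉ S := by
    rw [hmem, zero hB]; norm_num
  have hε : ∀ i, i ≠ 0 → (if i ∈ S then (-1 : ℤ) else 1) = B 0 i := by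
    intro i hi
    rcases hB.pm 0 i hi.symm with h | h
    · rw [if_neg (by rw [hmem, h]; norm_num), h]
    · rw [if_pos ((hmem i).mpr h), h]
  have hrow : ∀ i, i ≠ 0 → sw S B 0 i = 1 := by
    intro i hi
    unfold sw
    rw [if_neg h00, hε i hi, one_mul]
    rcases hB.pm 0 i hi.symm with h | h <;> rw [h] <;> norm_num
  have hT := sw_isT S hB
  refine ⟨hT, fun i j l hc => ?_⟩
  obtain ⟨h1, h2, h3⟩ := hc
  have hij : i ≠ j := by
    rintro rfl; exact h3 (zero hT i)
  have hjl : j ≠ l := by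
    rintro rfl; exact h3 (by rw [h1]; exact zero hT j)
  have hli : l ≠ i := by
    rintro rfl; exact h3 (by rw [h1, h2]; exact zero hT l)
  by_cases hi : i = 0
  · subst hi
    have a1 := hrow j hij.symm
    have a2 := hrow l hli
    rw [← h1, a1, hT.skew 0 l, a2] at h2
    norm_num at h2
  by_cases hj : j = 0
  · subst hj
    have a1 := hrow i hi
    have a2 := hrow l hjl.symm
    rw [hT.skew 0 i, a1, a2] at h1
    norm_num at h1
  by_cases hl : l = 0
  · subst hl
    have a1 := hrow i hi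
    have a2 := hrow j hj
    rw [hT.skew 0 j, a2, a1] at h2
    norm_num at h2
  · refine hbad 0 i j l ⟨?_, ?_, ?_⟩
    · have := h1
      unfold sw at this
      rw [hε i hi, hε j hj, hε l hl] at this
      exact this
    · have := h2
      unfold sw at this
      rw [hε i hi, hε j hj, hε l hl] at this
      exact this
    · have := h3
      unfold sw at this
      rw [hε i hi, hε j hj] at this
      exact this

theorem TR_to_std (B : Fin k → Fin k → ℤ) (h : TR B) :
    ∃ r : Equiv.Perm (Fin k), ∀ i j, B i j = std k (r i) (r j) := by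
  obtain ⟨hB, hcyc⟩ := h
  have htrans : ∀ l i j, B l i = 1 → B i j = 1 → B l j = 1 := by
    intro l i j h1 h2
    have hlj : l ≠ j := by
      rintro rfl
      rw [hB.skew l i, h1] at h2
      norm_num at h2
    rcases hB.pm l j hlj with h3 | h3
    · exact h3
    · exfalso
      refine hcyc l i j ⟨by rw [h1, h2], ?_, by rw [h1]; norm_num⟩
      rw [h2, hB.skew l j, h3]; norm_num
  set rk : Fin k → ℕ := fun i => (Finset.univ.filter fun j => B j i = 1).card with hrk
  have hlt : ∀ i j, B i j = 1 → rk i < rk j := by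
    intro i j hij
    simp only [hrk]
    apply Finset.card_lt_card
    rw [Finset.ssubset_iff_of_subset]
    · refine ⟨i, by simp [hij], ?_⟩
      simp [zero hB]
    · intro l hl
      simp only [Finset.mem_filter, Finset.mem_univ, true_and] at hl ⊢
      exact htrans l i j hl hij
  have hbound : ∀ i, rk i < k := by
    intro i
    simp only [hrk]
    calc (Finset.univ.filter fun j => B j i = 1).card < (Finset.univ : Finset (Fin k)).card := by
          apply Finset.card_lt_card
          rw [Finset.ssubset_univ_iff]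
          intro h
          have : i ∈ (Finset.univ.filter fun j => B j i = 1) := by rw [h]; exact Finset.mem_univ i
          simp [zero hB] at this
      _ = k := by simp
  let f : Fin k → Fin k := fun i => ⟨rk i, hbound i⟩
  have hf : Function.Injective f := by
    intro i j hij
    by_contra hne
    have h1 : rk i = rk j := congrArg Fin.val hij
    rcases hB.pm i j hne with h | h
    · exact absurd h1 (hlt i j h).ne
    · have h' : B j i = 1 := by rw [hB.skew i j, h]; norm_num
      exact absurd h1 (hlt j i h').ne'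
  let r : Equiv.Perm (Fin k) := Equiv.ofBijective f (Finite.injective_iff_bijective.mp hf)
  refine ⟨r, fun i j => ?_⟩
  have hr : ∀ i, (r i).val = rk i := fun i => rfl
  unfold std
  by_cases hij : i = j
  · subst hij
    rw [zero hB, if_neg (lt_irrefl _), if_neg (lt_irrefl _)]
  · rcases hB.pm i j hij with h | h
    · rw [h, if_pos]
      exact hlt i j h
    · have h' : B j i = 1 := by rw [hB.skew i j, h]; norm_num
      have h2 : rk j < rk i := hlt j i h'
      rw [h, if_neg, if_pos]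
      · exact h2
      · show ¬ (rk i < rk j)
        omega

end std

section seq

variable {k : ℕ} (n : ℕ → ℕ) (hn : Tendsto n atTop atTop)
  (s : ∀ m, Fin (n m) → Fin (n m) → ℤ) (hs : ∀ m, IsT (s m))
  (hb : Tendsto (fun m => bal (s m)) atTop (𝓝 0))
  (hbad : Tendsto (fun m => badP (s m)) atTop (𝓝 0))

include hn in
theorem inv_tendsto : Tendsto (fun m => 1 / ((n m : ℕ) : ℝ)) atTop (𝓝 0) :=
  Tendsto.div_atTop tendsto_const_nhds (tendsto_natCast_atTop_atTop.comp hn)

include hn hs hb hbad in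
theorem g_tendsto (A : Finset (Fin k)) (hA : Odd A.card) :
    Tendsto (fun m => avg (fun Y : Fin k → Fin (n m) => |g (s m) A Y|)) atTop (𝓝 0) := by
  have hinv := inv_tendsto n hn
  have h1 : Tendsto (fun m => A.card * Real.sqrt (bal (s m)) +
      (1 + A.card) * ((k : ℝ) * (1 / ((n m : ℕ) : ℝ)) +
      ((k : ℝ) ^ 2 * (1 / ((n m : ℕ) : ℝ))) + (k : ℝ) ^ 3 * badP (s m))) atTop
      (𝓝 (A.card * Real.sqrt 0 + (1 + A.card) * ((k : ℝ) * 0 + ((k : ℝ) ^ 2 * 0) +
        (k : ℝ) ^ 3 * 0))) :=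
    ((hb.sqrt).const_mul _).add
      ((((hinv.const_mul _).add (hinv.const_mul _)).add (hbad.const_mul _)).const_mul _)
  have h0 : (A.card * Real.sqrt 0 + (1 + A.card) * ((k : ℝ) * 0 + ((k : ℝ) ^ 2 * 0) +
        (k : ℝ) ^ 3 * 0)) = 0 := by
    rw [Real.sqrt_zero]; ring
  rw [h0] at h1
  refine tendsto_of_tendsto_of_tendsto_of_le_of_le' tendsto_const_nhds h1 ?_ ?_
  · exact Eventually.of_forall fun m => avg_nonneg fun _ => abs_nonneg _
  · filter_upwards [hn.eventually_ge_atTop 1] with m hm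
    have : Nonempty (Fin (n m)) := ⟨⟨0, hm⟩⟩
    have h2 := avg_abs_g (ι := Fin k) (hs m) A hA
    simp only [Fintype.card_fin] at h2
    refine h2.trans (le_of_eq ?_)
    ring

include hn hs hb hbad in
theorem flip_tendsto (B : Fin k → Fin k → ℤ) (hB : IsT B) (v : Fin k) :
    Tendsto (fun m => lab (s m) B - lab (s m) (sw {v} B)) atTop (𝓝 0) := by
  have hinv := inv_tendsto n hn
  have h1 : Tendsto (fun m => ∑ A ∈ (Finset.univ.erase v).powerset, (if Odd A.card then
        2 * avg (fun Y : Fin k → Fin (n m) => |g (s m) A Y|) else 0) +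
        2 * (k * (1 / ((n m : ℕ) : ℝ)))) atTop
      (𝓝 (∑ _A ∈ (Finset.univ.erase v).powerset, 0 + 2 * (k * 0))) := by
    refine Tendsto.add (tendsto_finsetSum _ fun A _ => ?_) ((hinv.const_mul _).const_mul _)
    by_cases hA : Odd A.card
    · simp only [if_pos hA]
      have := (g_tendsto n hn s hs hb hbad A hA).const_mul 2
      simpa using this
    · simp only [if_neg hA]
      exact tendsto_const_nhds
  have h0 : (∑ _A ∈ (Finset.univ.erase v).powerset, (0 : ℝ) + 2 * (k * 0)) = 0 := by simp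
  rw [h0] at h1
  refine squeeze_zero_norm' ?_ h1
  filter_upwards [hn.eventually_ge_atTop 1] with m hm
  have : Nonempty (Fin (n m)) := ⟨⟨0, hm⟩⟩
  have h2 := flip_bound (hs m) B hB v
  rw [Fintype.card_fin] at h2
  rw [Real.norm_eq_abs]
  exact h2

include hn hs hb hbad in
theorem sw_tendsto (B : Fin k → Fin k → ℤ) (hB : IsT B) (S : Finset (Fin k)) :
    Tendsto (fun m => lab (s m) B - lab (s m) (sw S B)) atTop (𝓝 0) := by
  induction S using Finset.induction_on with
  | empty =>
    rw [sw_empty]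
    simp only [sub_self]
    exact tendsto_const_nhds
  | insert v S hv ih =>
    rw [sw_insert v S hv]
    have h := ih.add (flip_tendsto n hn s hs hb hbad (sw S B) (sw_isT S hB) v)
    rw [add_zero] at h
    refine h.congr fun m => ?_
    ring

include hn hs hb hbad in
theorem LT_tendsto (B : Fin k → Fin k → ℤ) (hB : LT B) :
    Tendsto (fun m => lab (s m) B - lab (s m) (std k)) atTop (𝓝 0) := by
  rcases k with _ | k
  · have : B = std 0 := Subsingleton.elim _ _
    rw [this]
    simp only [sub_self]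
    exact tendsto_const_nhds
  · obtain ⟨r, hr⟩ := TR_to_std _ (LT_to_TR B hB)
    have h1 := sw_tendsto n hn s hs hb hbad B hB.1 (Finset.univ.filter fun i => B 0 i = -1)
    refine h1.congr fun m => ?_
    congr 1
    rw [← lab_perm (s m) (std (k + 1)) r]
    congr 1
    funext i j
    exact hr i j

/-- The finite set of all patterns. -/
def pats (k : ℕ) : Finset (Fin k → Fin k → ℤ) :=
  Fintype.piFinset fun _ => Fintype.piFinset fun _ => ({-1, 0, 1} : Finset ℤ)

theorem mem_pats {B : Fin k → Fin k → ℤ} (hB : IsT B) : B ∈ pats k := by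
  unfold pats
  rw [Fintype.mem_piFinset]
  intro i
  rw [Fintype.mem_piFinset]
  intro j
  by_cases hij : i = j
  · subst hij
    rw [zero hB]; simp
  · rcases hB.pm i j hij with h | h <;> rw [h] <;> simp

theorem pat_mem {V : Type*} {t : V → V → ℤ} (ht : IsT t) (Y : Fin k → V) :
    (fun i j => t (Y i) (Y j)) ∈ pats k := by
  unfold pats
  rw [Fintype.mem_piFinset]
  intro i
  rw [Fintype.mem_piFinset]
  intro j
  by_cases hij : Y i = Y j
  · rw [hij, zero ht]; simp
  · rcases ht.pm _ _ hij with h | h <;> rw [h] <;> simp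

theorem sum_lab {V : Type*} [Fintype V] [Nonempty V] {t : V → V → ℤ} (ht : IsT t) :
    ∑ B ∈ pats k, lab t B = 1 := by
  unfold lab Pr
  rw [← avg_sum]
  have h1 : ∀ Y : Fin k → V, ∑ B ∈ pats k, ind (∀ i j, t (Y i) (Y j) = B i j) = 1 := by
    intro Y
    rw [Finset.sum_eq_single (fun i j => t (Y i) (Y j))]
    · exact ind_of fun i j => rfl
    · intro B _ hB
      refine ind_of_not fun h => hB ?_
      funext i j
      exact (h i j).symm
    · intro h
      exact absurd (pat_mem ht Y) h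
  simp only [h1]
  exact avg_const _

include hn hs hbad in
theorem notLT_tendsto (B : Fin k → Fin k → ℤ) (hB : ¬ LT B) :
    Tendsto (fun m => lab (s m) B) atTop (𝓝 0) := by
  have hnn : ∀ m, 0 ≤ lab (s m) B := fun m => avg_nonneg fun _ => ind_nonneg _
  by_cases hT : IsT B
  · have : ∃ x i j l, Bad B x i j l := by
      by_contra h
      push Not at h
      exact hB ⟨hT, h⟩
    obtain ⟨x, i, j, l, hbd⟩ := this
    obtain ⟨⟨hxi, hxj, hxl⟩, hij, hjl, hli⟩ := bad_ne hT hbd
    refine tendsto_of_tendsto_of_tendsto_of_le_of_le' tendsto_const_nhds hbad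
      (Eventually.of_forall hnn) ?_
    filter_upwards [hn.eventually_ge_atTop 1] with m hm
    have : Nonempty (Fin (n m)) := ⟨⟨0, hm⟩⟩
    have hinj : Function.Injective (![x, i, j, l] : Fin 4 → Fin k) := by
      intro a b hab
      fin_cases a <;> fin_cases b <;> simp_all
    have h1 := avg_marginal (V := Fin (n m)) (![x, i, j, l] : Fin 4 → Fin k) hinj
      (fun Z => ind (Bad (s m) (Z 0) (Z 1) (Z 2) (Z 3)))
    unfold badP Pr
    rw [← h1]
    unfold lab Pr
    refine avg_mono fun Y => ind_mono fun hY => ?_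
    have h2 : Bad (s m) (Y x) (Y i) (Y j) (Y l) := by
      unfold Bad at hbd ⊢
      simp only [hY]
      exact hbd
    exact h2
  · by_cases hsk : ∀ i j, B j i = - B i j
    · have : ∃ i j, i ≠ j ∧ B i j ≠ 1 ∧ B i j ≠ -1 := by
        by_contra h
        push Not at h
        refine hT ⟨hsk, fun i j hij => ?_⟩
        by_cases h1 : B i j = 1
        · exact Or.inl h1
        · exact Or.inr (h i j hij h1)
      obtain ⟨i, j, hij, h1, h2⟩ := this
      refine tendsto_of_tendsto_of_tendsto_of_le_of_le' tendsto_const_nhds (inv_tendsto n hn)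
        (Eventually.of_forall hnn) ?_
      filter_upwards [hn.eventually_ge_atTop 1] with m hm
      have : Nonempty (Fin (n m)) := ⟨⟨0, hm⟩⟩
      have h3 := Pr_eq (V := Fin (n m)) i j hij
      rw [Fintype.card_fin] at h3
      rw [← h3]
      unfold lab Pr
      refine avg_mono fun Y => ind_mono fun hY => ?_
      by_contra hne
      rcases (hs m).pm _ _ hne with h4 | h4
      · exact h1 (by rw [← hY i j, h4])
      · exact h2 (by rw [← hY i j, h4])
    · push Not at hsk
      obtain ⟨i, j, hij⟩ := hsk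
      have h0 : ∀ m, lab (s m) B = 0 := by
        intro m
        unfold lab Pr
        have : ∀ Y : Fin k → Fin (n m), ind (∀ i j, s m (Y i) (Y j) = B i j) = 0 := by
          intro Y
          refine ind_of_not fun hY => hij ?_
          rw [← hY j i, ← hY i j]
          exact (hs m).skew _ _
        simp only [this]
        exact avg_zero
      simp only [h0]
      exact tendsto_const_nhds

end seq

end P2b

theorem lab_tendsto (n : ℕ → ℕ) (hn : Tendsto n atTop atTop)
    (s : ∀ m, Fin (n m) → Fin (n m) → ℤ) (hs : ∀ m, IsT (s m))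
    (hb : Tendsto (fun m => bal (s m)) atTop (𝓝 0))
    (hbad : Tendsto (fun m => badP (s m)) atTop (𝓝 0)) (k : ℕ) (B : Fin k → Fin k → ℤ) :
    Tendsto (fun m => lab (s m) B) atTop (𝓝 (cst B)) := by
  classical
  by_cases hB : LT B
  · set F : Finset (Fin k → Fin k → ℤ) := (P2b.pats k).filter LT with hF
    have hcard : Nat.card {B' : Fin k → Fin k → ℤ // LT B'} = F.card := by
      refine Nat.subtype_card F fun B' => ?_
      rw [hF, Finset.mem_filter]
      exact ⟨fun h => h.2, fun h => ⟨P2b.mem_pats h.1, h⟩⟩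
    have hcst : cst B = 1 / (F.card : ℝ) := by
      unfold cst
      rw [if_pos hB, hcard]
    have hpos : (0 : ℝ) < F.card := by
      have : 0 < F.card := Finset.card_pos.mpr ⟨B, by
        rw [hF, Finset.mem_filter]; exact ⟨P2b.mem_pats hB.1, hB⟩⟩
      exact_mod_cast this
    -- the frequency of the standard tournament
    have h1 : Tendsto (fun m => 1 - ∑ B' ∈ (P2b.pats k).filter (fun B' => ¬ LT B'), lab (s m) B' -
        ∑ B' ∈ F, (lab (s m) B' - lab (s m) (P2b.std k))) atTop
        (𝓝 (1 - ∑ _B' ∈ (P2b.pats k).filter (fun B' => ¬ LT B'), 0 - ∑ _B' ∈ F, 0)) := by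
      refine (tendsto_const_nhds.sub (tendsto_finsetSum _ fun B' hB' => ?_)).sub
        (tendsto_finsetSum _ fun B' hB' => ?_)
      · exact P2b.notLT_tendsto n hn s hs hbad B' (Finset.mem_filter.mp hB').2
      · exact P2b.LT_tendsto n hn s hs hb hbad B' (Finset.mem_filter.mp hB').2
    simp only [Finset.sum_const_zero, sub_zero] at h1
    have h2 : ∀ᶠ m in atTop, 1 - ∑ B' ∈ (P2b.pats k).filter (fun B' => ¬ LT B'), lab (s m) B' -
        ∑ B' ∈ F, (lab (s m) B' - lab (s m) (P2b.std k)) = F.card * lab (s m) (P2b.std k) := by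
      filter_upwards [hn.eventually_ge_atTop 1] with m hm
      have : Nonempty (Fin (n m)) := ⟨⟨0, hm⟩⟩
      have h3 := P2b.sum_lab (k := k) (hs m)
      rw [← Finset.sum_filter_add_sum_filter_not (P2b.pats k) LT] at h3
      rw [Finset.sum_sub_distrib, Finset.sum_const, nsmul_eq_mul]
      rw [← hF] at h3
      linarith
    have h4 : Tendsto (fun m => F.card * lab (s m) (P2b.std k)) atTop (𝓝 1) :=
      h1.congr' h2
    have h5 : Tendsto (fun m => (lab (s m) B - lab (s m) (P2b.std k)) +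
        (F.card * lab (s m) (P2b.std k)) / F.card) atTop (𝓝 (0 + 1 / F.card)) :=
      (P2b.LT_tendsto n hn s hs hb hbad B hB).add (h4.div_const _)
    rw [zero_add] at h5
    rw [hcst]
    refine h5.congr fun m => ?_
    field_simp
    ring
  · have : cst B = 0 := by
      unfold cst
      rw [if_neg hB]
    rw [this]
    exact P2b.notLT_tendsto n hn s hs hbad B hB

end H51.Car
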