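import Mathlib
import Pool.Agent.H51.Car.Base
import Pool.Agent.H36.Car.Flip
import Pool.Agent.H11.Car.P1b
import Pool.Agent.H94.Car.P0d

/-!
# The step from `k + 2` to `k`
-/

open Finset Filter Topology

namespace H51.Car

namespace Step

/-- The index type of the perturbed host. -/
abbrev K (k : ℕ) : Type := Fin (k + 2) ⊕ Bool

/-- The ordinary twin. -/
abbrev xx {k : ℕ} : K k := Sum.inr false

/-- The virtual twin. -/
abbrev xi {k : ℕ} : K k := Sum.inr true

variable {k n : ℕ}

/-- Sign matrix in which `xi` is an exact twin of `xx`. -/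
def sB (s : Fin n → Fin n → ℤ) (Y : K k → Fin n × Fin 3) (i j : K k) : ℤ :=
  if i = xi then (if j = xi then 0 else if j = xx then -1 else s (Y xx).1 (Y j).1)
  else if j = xi then (if i = xx then 1 else s (Y i).1 (Y xx).1)
  else s (Y i).1 (Y j).1

theorem sB_ne (s : Fin n → Fin n → ℤ) (Y : K k → Fin n × Fin 3) {i j : K k} (hi : i ≠ xi)
    (hj : j ≠ xi) : sB s Y i j = s (Y i).1 (Y j).1 := by
  unfold sB
  rw [if_neg hi, if_neg hj]

theorem sB_xi (s : Fin n → Fin n → ℤ) (Y : K k → Fin n × Fin 3) {j : K k}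
    (hj : j ≠ xi) (hx : j ≠ xx) : sB s Y xi j = s (Y xx).1 (Y j).1 := by
  unfold sB
  rw [if_pos rfl, if_neg hj, if_neg hx]

theorem sB_xi' (s : Fin n → Fin n → ℤ) (Y : K k → Fin n × Fin 3) {j : K k}
    (hj : j ≠ xi) (hx : j ≠ xx) : sB s Y j xi = s (Y j).1 (Y xx).1 := by
  unfold sB
  rw [if_neg hj, if_pos rfl, if_neg hx]

theorem xx_ne_xi : (xx : K k) ≠ xi := by
  intro h; simp at h

theorem sB_isT {s : Fin n → Fin n → ℤ} (hs : IsT s) {Y : K k → Fin n × Fin 3}
    (hY : Function.Injective (fun i => (Y i).1)) : IsT (sB s Y) := by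
  constructor
  · intro i j
    unfold sB
    by_cases hi : i = xi
    · by_cases hj : j = xi
      · rw [if_pos hj, if_pos hi, if_pos hi, if_pos hj]; rfl
      · rw [if_neg hj, if_pos hi, if_pos hi, if_neg hj]
        by_cases hx : j = xx
        · rw [if_pos hx, if_pos hx]; rfl
        · rw [if_neg hx, if_neg hx]; exact hs.skew _ _
    · by_cases hj : j = xi
      · rw [if_pos hj, if_neg hi, if_neg hi, if_pos hj]
        by_cases hx : i = xx
        · rw [if_pos hx, if_pos hx]
        · rw [if_neg hx, if_neg hx]; exact hs.skew _ _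
      · rw [if_neg hj, if_neg hi, if_neg hi, if_neg hj]; exact hs.skew _ _
  · intro i j hij
    unfold sB
    by_cases hi : i = xi
    · by_cases hj : j = xi
      · exact absurd (hi.trans hj.symm) hij
      · rw [if_pos hi, if_neg hj]
        by_cases hx : j = xx
        · rw [if_pos hx]; right; rfl
        · rw [if_neg hx]; exact hs.pm _ _ (fun h => hx (hY h).symm)
    · by_cases hj : j = xi
      · rw [if_neg hi, if_pos hj]
        by_cases hx : i = xx
        · rw [if_pos hx]; left; rfl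
        · rw [if_neg hx]; exact hs.pm _ _ (fun h => hx (hY h))
      · rw [if_neg hi, if_neg hj]; exact hs.pm _ _ (fun h => hij (hY h))

theorem sB_twin (s : Fin n → Fin n → ℤ) (Y : K k → Fin n × Fin 3) :
    Twin xx xi (sB s Y) := by
  refine ⟨?_, fun i hx hi => ?_⟩
  · unfold sB
    rw [if_neg xx_ne_xi, if_pos rfl, if_pos rfl]
  · rw [sB_xi' s Y hi hx, sB_ne s Y hi xx_ne_xi]

/-- The columns. -/
noncomputable def sC (s : Fin n → Fin n → ℤ) (δ θ : ℝ) (Y : K k → Fin n × Fin 3)
    (v : Fin n × Fin 3) (i : K k) : ℝ :=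
  if i = xx then (s (Y xx).1 v.1 : ℝ)
  else if i = xi then (s (Y xx).1 v.1 : ℝ) - θ
  else (s (Y i).1 v.1 : ℝ) - δ * hmk (Y i).2 v.2 *
    ((s (Y xx).1 (Y i).1 : ℝ) * (s (Y xx).1 v.1 : ℝ) * (s (Y i).1 v.1 : ℝ))

/-- The payoff matrix. -/
noncomputable def sM (s : Fin n → Fin n → ℤ) (δ θ : ℝ) (Y : K k → Fin n × Fin 3) :
    K k → K k → ℝ := DM xx xi (sB s Y) (fun i => (Y i).2) δ θ

theorem sM_h1 (s : Fin n → Fin n → ℤ) (δ θ : ℝ) (Y : K k → Fin n × Fin 3) (z : Fin (k + 2))
    (i : K k) : sM s δ θ Y i (Sum.inl z) = sC s δ θ Y (Y (Sum.inl z)) i := by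
  have hz1 : (Sum.inl z : K k) ≠ xx := by intro h; simp at h
  have hz2 : (Sum.inl z : K k) ≠ xi := by intro h; simp at h
  unfold sM DM sC
  by_cases hx : i = xx
  · rw [if_pos (Or.inl hx), if_pos hx, hx, sB_ne s Y xx_ne_xi hz2]
  · by_cases hξ : i = xi
    · rw [if_neg (by rintro (h | h); exacts [hx h, hz1 h]), if_neg (fun h => hz2 h.2),
        if_neg hz2, if_pos hξ, if_neg hx, if_pos hξ, hξ, sB_xi s Y hz2 hz1]
    · rw [if_neg (by rintro (h | h); exacts [hx h, hz1 h]), if_neg (fun h => hz2 h.2),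
        if_neg hz2, if_neg hξ, if_neg hx, if_neg hξ, sB_ne s Y hξ hz2,
        sB_ne s Y xx_ne_xi hz2, sB_ne s Y xx_ne_xi hξ]

theorem sB_update (s : Fin n → Fin n → ℤ) (Y : K k → Fin n × Fin 3) (z : Fin (k + 2))
    (v : Fin n × Fin 3) {i j : K k} (hi : i ≠ Sum.inl z) (hj : j ≠ Sum.inl z) :
    sB s (Function.update Y (Sum.inl z) v) i j = sB s Y i j := by
  have hx : (xx : K k) ≠ Sum.inl z := by intro h; simp at h
  unfold sB
  rw [Function.update_of_ne hi, Function.update_of_ne hj, Function.update_of_ne hx]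

theorem sM_h2 (s : Fin n → Fin n → ℤ) (δ θ : ℝ) (Y : K k → Fin n × Fin 3) (z : Fin (k + 2))
    (v : Fin n × Fin 3) (i j : K k) (hi : i ≠ Sum.inl z) (hj : j ≠ Sum.inl z) :
    sM s δ θ (Function.update Y (Sum.inl z) v) i j = sM s δ θ Y i j := by
  have hx : (xx : K k) ≠ Sum.inl z := by intro h; simp at h
  unfold sM DM
  rw [sB_update s Y z v hi hj, sB_update s Y z v hx hi, sB_update s Y z v hx hj]
  beta_reduce
  rw [Function.update_of_ne hi, Function.update_of_ne hj]

theorem sC_h3 (s : Fin n → Fin n → ℤ) (δ θ : ℝ) (Y : K k → Fin n × Fin 3) (z : Fin (k + 2))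
    (v u : Fin n × Fin 3) (i : K k) (hi : i ≠ Sum.inl z) :
    sC s δ θ (Function.update Y (Sum.inl z) v) u i = sC s δ θ Y u i := by
  have hx : (xx : K k) ≠ Sum.inl z := by intro h; simp at h
  unfold sC
  rw [Function.update_of_ne hi, Function.update_of_ne hx]

/-! ### Index sets -/

/-- The first `r` ordinary indices. -/
def J {k : ℕ} (r : ℕ) (h : r ≤ k + 2) : Finset (K k) :=
  univ.image (fun a : Fin r => (Sum.inl (Fin.castLE h a) : K k))

theorem inl_inj {r : ℕ} (h : r ≤ k + 2) :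
    Function.Injective (fun a : Fin r => (Sum.inl (Fin.castLE h a) : K k)) := by
  intro a b hab
  exact Fin.castLE_injective h (Sum.inl_injective hab)

theorem card_J {r : ℕ} (h : r ≤ k + 2) : (J r h : Finset (K k)).card = r := by
  unfold J
  rw [Finset.card_image_of_injective _ (inl_inj h), Finset.card_univ, Fintype.card_fin]

theorem mem_J {r : ℕ} (h : r ≤ k + 2) (a : Fin (k + 2)) :
    (Sum.inl a : K k) ∈ J r h ↔ a.val < r := by
  unfold J
  rw [Finset.mem_image]
  constructor
  · rintro ⟨b, _, hb⟩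
    have := Sum.inl_injective hb
    rw [← this]; exact b.isLt
  · intro ha
    exact ⟨⟨a.val, ha⟩, Finset.mem_univ _, rfl⟩

theorem notMem_J {r : ℕ} (h : r ≤ k + 2) (b : Bool) : (Sum.inr b : K k) ∉ J r h := by
  unfold J
  rw [Finset.mem_image]
  rintro ⟨a, _, ha⟩
  simp at ha

theorem J_sub {r r' : ℕ} (h : r ≤ k + 2) (h' : r' ≤ k + 2) (hrr : r ≤ r') :
    (J r h : Finset (K k)) ⊆ J r' h' := by
  intro y hy
  rcases y with a | b
  · rw [mem_J] at hy ⊢; omega
  · exact absurd hy (notMem_J h b)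

theorem J_ssub {r r' : ℕ} (h : r ≤ k + 2) (h' : r' ≤ k + 2) (hrr : r < r') :
    (J r h : Finset (K k)) ⊂ J r' h' := by
  refine Finset.ssubset_iff_subset_ne.2 ⟨J_sub h h' hrr.le, fun he => ?_⟩
  have := congrArg Finset.card he
  rw [card_J, card_J] at this
  omega

/-! ### Carousels inside index sets -/

theorem altOn_of_isAlt {κ : Type*} [DecidableEq κ] {r : ℕ} (B : κ → κ → ℤ) (f : Fin r → κ)
    (hf : Function.Injective f) (h : IsAlt (fun a b => B (f a) (f b))) :
    AltOn r B (univ.image f) := by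
  obtain ⟨σ, hσ⟩ := h
  refine ⟨f ∘ σ, ⟨hf.comp σ.injective, fun a b => hσ a b⟩, ?_⟩
  ext y
  simp only [Finset.mem_image, Finset.mem_univ, true_and, Function.comp]
  constructor
  · rintro ⟨a, rfl⟩; exact ⟨_, rfl⟩
  · rintro ⟨a, rfl⟩; exact ⟨σ.symm a, by simp⟩

theorem Pr_pull (s : Fin n → Fin n → ℤ) (hn : 0 < n) {κ : Type*} [Fintype κ] [DecidableEq κ]
    {r : ℕ} (f : Fin r → κ) (hf : Function.Injective f) :
    Pr (fun Y : κ → Fin n × Fin 3 => IsAlt (fun a b => s (Y (f a)).1 (Y (f b)).1)) =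
      carP s r := by
  have : Nonempty (Fin n) := ⟨⟨0, hn⟩⟩
  unfold Pr
  rw [avg_pull f hf (fun Z : Fin r → Fin n × Fin 3 => ind (IsAlt (fun a b => s (Z a).1 (Z b).1)))]
  rw [avg_arrow_prod (fun (Z : Fin r → Fin n) (_ : Fin r → Fin 3) =>
    ind (IsAlt (fun a b => s (Z a) (Z b))))]
  unfold carP Pr
  congr 1
  funext Z
  exact avg_const _

/-- Probability that the vertices are not distinct. -/
noncomputable def ni (k n : ℕ) : ℝ :=
  Pr (fun Y : K k → Fin n × Fin 3 => ¬ Function.Injective (fun i => (Y i).1))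

theorem ni_le (k n : ℕ) : ni k n ≤ (Fintype.card (K k) : ℝ) ^ 2 / n := by
  have h6 := Pr_notInj (κ := K k) (V := Fin n)
  rw [Fintype.card_fin] at h6
  refine le_trans (le_of_eq ?_) h6
  unfold ni Pr
  rw [avg_arrow_prod (fun (Z : K k → Fin n) (_ : K k → Fin 3) => ind (¬ Function.Injective Z))]
  congr 1
  funext Z
  exact avg_const _

/-! ### The perturbed host -/

section host
variable (k : ℕ) (n : ℕ → ℕ) (hn : Tendsto n atTop atTop)
  (s : ∀ m, Fin (n m) → Fin (n m) → ℤ) (δ θ : ℝ)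

/-- The perturbed host. -/
noncomputable def host : Host (K k) where
  V m := Fin (n m) × Fin 3
  fV m := inferInstance
  neV := by
    filter_upwards [hn.eventually_gt_atTop 0] with m hm
    exact ⟨⟨⟨0, hm⟩, 0⟩⟩
  I := univ.image Sum.inl
  Mat m Y := sM (s m) δ θ Y
  col m Y v := sC (s m) δ θ Y v
  h1 := fun m Y z hz i _ => by
    obtain ⟨a, _, rfl⟩ := Finset.mem_image.1 hz
    exact sM_h1 (s m) δ θ Y a i
  h2 := fun m Y z hz v i j hi hj => by
    obtain ⟨a, _, rfl⟩ := Finset.mem_image.1 hz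
    exact sM_h2 (s m) δ θ Y a v i j hi hj
  h3 := fun m Y z hz v u i hi => by
    obtain ⟨a, _, rfl⟩ := Finset.mem_image.1 hz
    exact sC_h3 (s m) δ θ Y a v u i hi

theorem mem_I (a : Fin (k + 2)) : (Sum.inl a : K k) ∈ (host k n hn s δ θ).I :=
  Finset.mem_image_of_mem _ (Finset.mem_univ _)

theorem notMem_I (b : Bool) : (Sum.inr b : K k) ∉ (host k n hn s δ θ).I := by
  intro h
  obtain ⟨a, _, ha⟩ := Finset.mem_image.1 h
  simp at ha

theorem J_sub_I {r : ℕ} (h : r ≤ k + 2) : J r h ⊆ (host k n hn s δ θ).I := by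
  intro y hy
  rcases y with a | b
  · exact mem_I k n hn s δ θ a
  · exact absurd hy (notMem_J h b)

theorem ni_tendsto (hn : Tendsto n atTop atTop) :
    Tendsto (fun m => ni k (n m)) atTop (𝓝 0) :=
  tendsto_of_tendsto_of_tendsto_of_le_of_le tendsto_const_nhds
    (card_div_tendsto ((Fintype.card (K k) : ℝ) ^ 2) hn) (fun _ => Pr_nonneg _)
    (fun _ => ni_le k _)

/-- All properties of the perturbation that are used. -/
structure Good (k : ℕ) (δ θ : ℝ) : Prop where
  pos : 0 < θ
  gen : ∀ B : K k → K k → ℤ, IsT B → Twin xx xi B → ∀ l : K k → Fin 3,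
      Gen (DM xx xi B l δ θ) univ
  alt : ∀ B : K k → K k → ℤ, IsT B → Twin xx xi B → ∀ l : K k → Fin 3,
      ∀ S : Finset (K k), xx ∉ S → xi ∉ S → AltOn (k + 2) B S → Pos (DM xx xi B l δ θ) S
  altx : ∀ B : K k → K k → ℤ, IsT B → Twin xx xi B → ∀ l : K k → Fin 3,
      ∀ S : Finset (K k), xx ∉ S → xi ∉ S → AltOn (k + 2) B (insert xx S) →
        Pos (DM xx xi B l δ θ) (insert xx S) ∧ Pos (DM xx xi B l δ θ) (insert xi S)
  flip : ∀ B₀ : Fin k → Fin k → ℤ, IsT B₀ →
      Pos (fun i j => (B₀ i j : ℝ)) univ → ¬ IsAlt B₀ →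
      ∃ (u : Fin k) (l₀ : Fin k → Fin 3), ∀ B : K k → K k → ℤ, IsT B → Twin xx xi B →
        ∀ l : K k → Fin 3, ∀ e : Fin k → K k, Function.Injective e →
        (∀ i, e i ≠ xx ∧ e i ≠ xi) →
        (∀ i j, B (e i) (e j) = B₀ i j) → (∀ i, l (e i) = l₀ i) →
        (∀ i, i ≠ u → B (e i) xx = B₀ i u) → B xx (e u) = 1 →
        Pos (DM xx xi B l δ θ) (univ.image e) ∧
        sg (DM xx xi B l δ θ) (univ.image e) (fun i => DM xx xi B l δ θ i xx) = -1 ∧
        sg (DM xx xi B l δ θ) (univ.image e) (fun i => DM xx xi B l δ θ i xi) = 1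

theorem exists_good (k : ℕ) (h5 : 5 ≤ k) (hodd : Odd k) : ∃ δ θ : ℝ, Good k δ θ := by
  have h1 := ev_gen (κ := K k) k h5 xx xi xx_ne_xi
  have h2 := ev_alt (κ := K k) k h5 hodd xx xi xx_ne_xi
  have h3 := ev_altx (κ := K k) k h5 hodd xx xi xx_ne_xi
  have h4 := ev_flip (κ := K k) k h5 hodd xx xi xx_ne_xi
  have h := (h1.and h2).and (h3.and h4)
  obtain ⟨δ, hδ⟩ := Filter.Eventually.exists h
  have hk : (0 : ℝ) < 1 / (k : ℝ) := by
    have : (0 : ℝ) < (k : ℝ) := by
      have : 0 < k := by omega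
      exact_mod_cast this
    positivity
  have hpos : ∀ᶠ θ in 𝓝[<] (1 / (k : ℝ)), 0 < θ :=
    (lt_mem_nhds hk).filter_mono nhdsWithin_le_nhds
  obtain ⟨θ, hθ, hθ0⟩ := (hδ.and hpos).exists
  exact ⟨δ, θ, hθ0, hθ.1.1, hθ.1.2, hθ.2.1, hθ.2.2⟩

variable (hs : ∀ m, IsT (s m)) (hG : Good k δ θ)
include hs hG

theorem g_tendsto (U : Finset (K k)) :
    Tendsto ((host k n hn s δ θ).g U) atTop (𝓝 0) := by
  refine tendsto_of_tendsto_of_tendsto_of_le_of_le tendsto_const_nhds (ni_tendsto k n hn)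
    (fun m => Pr_nonneg _) (fun m => ?_)
  refine Pr_mono fun Y hY hinj => hY ?_
  exact (hG.gen _ (sB_isT (hs m) hinj) (sB_twin _ _) _).mono (Finset.subset_univ _)

/-- (A) -/
theorem stepA (hodd : Odd k)
    (h : Tendsto (fun m => carP (s m) (k + 2)) atTop (𝓝 ((1 / 2) ^ (k + 1)))) (S : Finset (K k))
    (hS : S ⊂ J (k + 2) le_rfl) (ho : Odd S.card) :
    Tendsto ((host k n hn s δ θ).E S) atTop (𝓝 0) := by
  set H := host k n hn s δ θ with hH
  have hcard : (J (k + 2) le_rfl : Finset (K k)).card = k + 2 := card_J _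
  have hU : Odd (J (k + 2) le_rfl : Finset (K k)).card := by
    rw [hcard]; exact hodd.add_even (by decide)
  have hI := J_sub_I k n hn s δ θ (le_refl (k + 2))
  have hIS : ∀ S : Finset (K k), J (k + 2) le_rfl \ S ⊆ H.I := fun S =>
    Finset.sdiff_subset.trans hI
  have he : Tendsto (fun m => carP (s m) (k + 2) - ni k (n m)) atTop
      (𝓝 ((1 / 2) ^ ((J (k + 2) le_rfl : Finset (K k)).card - 1))) := by
    have := h.sub (ni_tendsto k n hn)
    rw [sub_zero] at this
    rw [hcard]
    exact this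
  have h1 := H.conclude (J (k + 2) le_rfl) hU (g_tendsto k n hn s δ θ hs hG _)
    (fun S hS ho => Or.inr fun _ => H.t_nonneg _ S (hIS S) hU ho hS.1 _)
    (fun m => carP (s m) (k + 2) - ni k (n m)) he ?_ S hS ho
  · exact H.E_of_t _ S (hIS S) hU ho hS h1
  · filter_upwards [hn.eventually_gt_atTop 0] with m hm
    rw [← Pr_pull (s m) hm (fun a : Fin (k + 2) => (Sum.inl a : K k)) Sum.inl_injective]
    rw [sub_le_iff_le_add]
    refine le_trans ?_ (Pr_or_le _ _)
    refine Pr_mono fun Y hY => ?_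
    by_cases hinj : Function.Injective (fun i => (Y i).1)
    · left
      refine hG.alt _ (sB_isT (hs m) hinj) (sB_twin _ _) _ _ (notMem_J _ _) (notMem_J _ _) ?_
      refine altOn_of_isAlt _ _ (inl_inj _) ?_
      have e1 : (fun a b : Fin (k + 2) => sB (s m) Y (Sum.inl (Fin.castLE (le_refl (k + 2)) a))
          (Sum.inl (Fin.castLE (le_refl (k + 2)) b))) =
          fun a b => s m (Y (Sum.inl a)).1 (Y (Sum.inl b)).1 := by
        funext a b
        rw [sB_ne _ _ (by intro h; simp at h) (by intro h; simp at h)]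
        rfl
      rw [e1]
      exact hY
    · right; exact hinj

omit hs hG in
/-- Index sets with one of the twins. -/
theorem card_insert {r : ℕ} (h : r ≤ k + 2) (b : Bool) :
    (insert (Sum.inr b) (J r h) : Finset (K k)).card = r + 1 := by
  rw [Finset.card_insert_of_notMem (notMem_J h b), card_J]

/-- (B) -/
theorem stepB (hodd : Odd k)
    (h : Tendsto (fun m => carP (s m) (k + 2)) atTop (𝓝 ((1 / 2) ^ (k + 1)))) (b : Bool)
    (S : Finset (K k)) (hS : S ⊂ insert (Sum.inr b) (J (k + 1) (by omega))) (hb : Sum.inr b ∈ S)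
    (ho : Odd S.card) :
    Tendsto ((host k n hn s δ θ).E S) atTop (𝓝 0) := by
  set H := host k n hn s δ θ with hH
  have hk1 : k + 1 ≤ k + 2 := by omega
  set U : Finset (K k) := insert (Sum.inr b) (J (k + 1) hk1) with hUdef
  have hcard : U.card = k + 2 := card_insert k hk1 b
  have hU : Odd U.card := by
    rw [hcard]; exact hodd.add_even (by decide)
  have hIS : ∀ S : Finset (K k), Sum.inr b ∈ S → U \ S ⊆ H.I := by
    intro S hbS y hy
    rw [Finset.mem_sdiff, hUdef, Finset.mem_insert] at hy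
    rcases hy.1 with h1 | h1
    · exact absurd (h1 ▸ hbS) hy.2
    · exact J_sub_I k n hn s δ θ hk1 h1
  have he : Tendsto (fun m => carP (s m) (k + 2) - ni k (n m)) atTop
      (𝓝 ((1 / 2) ^ (U.card - 1))) := by
    have := h.sub (ni_tendsto k n hn)
    rw [sub_zero] at this
    rw [hcard]
    exact this
  have h1 := H.conclude U hU (g_tendsto k n hn s δ θ hs hG _) ?_
    (fun m => carP (s m) (k + 2) - ni k (n m)) he ?_ S hS ho
  · exact H.E_of_t _ S (hIS S hb) hU ho hS h1
  · intro S hS ho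
    by_cases hbS : Sum.inr b ∈ S
    · right
      intro m
      exact H.t_nonneg _ S (hIS S hbS) hU ho hS.1 m
    · left
      have hSJ : S ⊆ J (k + 1) hk1 := by
        intro y hy
        have := hS.1 hy
        rw [hUdef, Finset.mem_insert] at this
        rcases this with h2 | h2
        · exact absurd (h2 ▸ hy) hbS
        · exact h2
      have hne : S ≠ J (k + 1) hk1 := by
        intro he
        have hc := congrArg Finset.card he
        rw [card_J] at hc
        rw [hc] at ho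
        obtain ⟨a, ha⟩ := ho
        obtain ⟨c, hc⟩ := hodd
        omega
      have hSS : S ⊂ J (k + 1) hk1 := Finset.ssubset_iff_subset_ne.2 ⟨hSJ, hne⟩
      obtain ⟨y, hy, hyS⟩ := Finset.exists_of_ssubset hSS
      refine H.t_tendsto_of_E U S ⟨y, ?_⟩
        (stepA k n hn s δ θ hs hG hodd h S (hSS.trans (J_ssub _ _ (by omega))) ho)
      rw [Finset.mem_inter, Finset.mem_sdiff]
      exact ⟨⟨Finset.mem_insert_of_mem hy, hyS⟩, J_sub_I k n hn s δ θ hk1 hy⟩
  · filter_upwards [hn.eventually_gt_atTop 0] with m hm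
    set f : Fin (k + 2) → K k := fun a => if a.val < k + 1 then Sum.inl a else xx with hf
    have hfinj : Function.Injective f := by
      intro a c hac
      simp only [hf] at hac
      by_cases h1 : a.val < k + 1
      · by_cases h2 : c.val < k + 1
        · rw [if_pos h1, if_pos h2] at hac; exact Sum.inl_injective hac
        · rw [if_pos h1, if_neg h2] at hac; simp at hac
      · by_cases h2 : c.val < k + 1
        · rw [if_neg h1, if_pos h2] at hac; simp at hac
        · apply Fin.ext; have := a.isLt; have := c.isLt; omega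
    have himg : univ.image f = insert xx (J (k + 1) hk1) := by
      ext y
      simp only [Finset.mem_image, Finset.mem_univ, true_and, Finset.mem_insert]
      constructor
      · rintro ⟨a, rfl⟩
        simp only [hf]
        by_cases h1 : a.val < k + 1
        · rw [if_pos h1]; right; exact (mem_J hk1 a).2 h1
        · rw [if_neg h1]; left; rfl
      · rintro (rfl | hy)
        · refine ⟨Fin.last (k + 1), ?_⟩
          simp [hf]
        · rcases y with a | c
          · rw [mem_J] at hy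
            exact ⟨a, by simp only [hf]; rw [if_pos hy]⟩
          · exact absurd hy (notMem_J hk1 c)
    have hfne : ∀ a, f a ≠ xi := by
      intro a
      simp only [hf]
      split_ifs
      · intro h; simp at h
      · exact xx_ne_xi
    rw [← Pr_pull (s m) hm f hfinj]
    rw [sub_le_iff_le_add]
    refine le_trans ?_ (Pr_or_le _ _)
    refine Pr_mono fun Y hY => ?_
    by_cases hinj : Function.Injective (fun i => (Y i).1)
    · left
      have h2 := hG.altx _ (sB_isT (hs m) hinj) (sB_twin _ _) (fun i => (Y i).2)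
        (J (k + 1) hk1) (notMem_J _ _) (notMem_J _ _) (by
          rw [← himg]
          refine altOn_of_isAlt _ _ hfinj ?_
          have e1 : (fun a c : Fin (k + 2) => sB (s m) Y (f a) (f c)) =
              fun a c => s m (Y (f a)).1 (Y (f c)).1 := by
            funext a c
            rw [sB_ne _ _ (hfne a) (hfne c)]
          rw [e1]
          exact hY)
      rcases b with _ | _
      · exact h2.1
      · exact h2.2
    · right; exact hinj

/-- (C), terms. -/
theorem stepC_t (hodd : Odd k)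
    (h : Tendsto (fun m => carP (s m) (k + 2)) atTop (𝓝 ((1 / 2) ^ (k + 1)))) :
    Tendsto (fun m => 2 ^ k * (host k n hn s δ θ).t (insert xx (insert xi (J k (by omega))))
      (J k (by omega)) m) atTop (𝓝 2) := by
  set H := host k n hn s δ θ with hH
  have hk0 : k ≤ k + 2 := by omega
  have hk1 : k + 1 ≤ k + 2 := by omega
  set U : Finset (K k) := insert xx (insert xi (J k hk0)) with hUdef
  have hxn : (xx : K k) ∉ insert xi (J k hk0) := by
    rw [Finset.mem_insert]
    rintro (h | h)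
    · exact xx_ne_xi h
    · exact notMem_J hk0 _ h
  have hcard : U.card = k + 2 := by
    rw [hUdef, Finset.card_insert_of_notMem hxn, card_insert]
  have hU : Odd U.card := by
    rw [hcard]; exact hodd.add_even (by decide)
  have h1 := H.single U (J k hk0) hU (g_tendsto k n hn s δ θ hs hG _)
    (fun y hy => Finset.mem_insert_of_mem (Finset.mem_insert_of_mem hy)) ?_
  · rwa [card_J] at h1
  · intro S hS hne ho
    -- the part of `S` in `J`
    have hpart : ∀ y ∈ S, y = xx ∨ y = xi ∨ y ∈ J k hk0 := by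
      intro y hy
      have := hS hy
      rw [hUdef, Finset.mem_insert, Finset.mem_insert] at this
      exact this
    -- terms with exactly one twin
    have hone : ∀ b : Bool, Sum.inr b ∈ S → Sum.inr (!b) ∉ S → Tendsto (H.t U S) atTop (𝓝 0) := by
      intro b hb hnb
      have hSJ : S ⊆ insert (Sum.inr b) (J k hk0) := by
        intro y hy
        rw [Finset.mem_insert]
        rcases hpart y hy with h1 | h1 | h1
        · left
          rcases b with _ | _
          · exact h1
          · exact absurd (by rw [h1] at hy; exact hy) hnb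
        · left
          rcases b with _ | _
          · exact absurd (by rw [h1] at hy; exact hy) hnb
          · exact h1
        · right; exact h1
      have hSne : S ≠ insert (Sum.inr b) (J k hk0) := by
        intro he
        have hc := congrArg Finset.card he
        rw [card_insert] at hc
        rw [hc] at ho
        obtain ⟨a, ha⟩ := ho
        obtain ⟨c, hc⟩ := hodd
        omega
      obtain ⟨y, hy, hyS⟩ := Finset.exists_of_ssubset (Finset.ssubset_iff_subset_ne.2 ⟨hSJ, hSne⟩)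
      have hyJ : y ∈ J k hk0 := by
        rcases Finset.mem_insert.1 hy with h1 | h1
        · exact absurd (h1 ▸ hb) hyS
        · exact h1
      have hsub : insert (Sum.inr b) (J k hk0) ⊆
          (insert (Sum.inr b) (J (k + 1) hk1) : Finset (K k)) :=
        Finset.insert_subset_insert _ (J_sub _ _ (by omega))
      refine H.t_tendsto_of_E U S ⟨y, ?_⟩
        (stepB k n hn s δ θ hs hG hodd h b S
          (lt_of_lt_of_le (Finset.ssubset_iff_subset_ne.2 ⟨hSJ, hSne⟩) hsub) hb ho)
      rw [Finset.mem_inter, Finset.mem_sdiff]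
      exact ⟨⟨Finset.mem_insert_of_mem (Finset.mem_insert_of_mem hyJ), hyS⟩,
        J_sub_I k n hn s δ θ hk0 hyJ⟩
    by_cases hx : xx ∈ S
    · by_cases hξ : xi ∈ S
      · refine H.t_tendsto_of_P U S ?_
        refine tendsto_of_tendsto_of_tendsto_of_le_of_le tendsto_const_nhds (ni_tendsto k n hn)
          (fun m => Pr_nonneg _) (fun m => ?_)
        refine Pr_mono fun Y hY hinj => ?_
        exact not_pos_both xx xi xx_ne_xi _ (sB_isT (hs m) hinj) (sB_twin _ _) _ δ θ hG.pos S hx hξ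
          hY
      · exact hone false hx hξ
    · by_cases hξ : xi ∈ S
      · exact hone true hξ hx
      · have hSJ : S ⊆ J k hk0 := by
          intro y hy
          rcases hpart y hy with h1 | h1 | h1
          · exact absurd (h1 ▸ hy) hx
          · exact absurd (h1 ▸ hy) hξ
          · exact h1
        have hSS : S ⊂ J k hk0 := Finset.ssubset_iff_subset_ne.2 ⟨hSJ, hne⟩
        obtain ⟨y, hy, hyS⟩ := Finset.exists_of_ssubset hSS
        refine H.t_tendsto_of_E U S ⟨y, ?_⟩
          (stepA k n hn s δ θ hs hG hodd h S (hSS.trans (J_ssub _ _ (by omega))) ho)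
        rw [Finset.mem_inter, Finset.mem_sdiff]
        exact ⟨⟨Finset.mem_insert_of_mem (Finset.mem_insert_of_mem hy), hyS⟩,
          J_sub_I k n hn s δ θ hk0 hy⟩

/-- (C), probability of positivity. -/
theorem stepC_P (hodd : Odd k)
    (h : Tendsto (fun m => carP (s m) (k + 2)) atTop (𝓝 ((1 / 2) ^ (k + 1)))) :
    Tendsto ((host k n hn s δ θ).P (J k (by omega))) atTop (𝓝 ((1 / 2) ^ (k - 1))) := by
  set H := host k n hn s δ θ with hH
  have hk0 : k ≤ k + 2 := by omega
  have hU : Odd (J k hk0 : Finset (K k)).card := by rwa [card_J]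
  have h1 := H.P_tendsto (J k hk0) hU (g_tendsto k n hn s δ θ hs hG _) ?_
  · rwa [card_J] at h1
  · intro S hSS ho
    obtain ⟨y, hy, hyS⟩ := Finset.exists_of_ssubset hSS
    refine H.t_tendsto_of_E (J k hk0) S ⟨y, ?_⟩
      (stepA k n hn s δ θ hs hG hodd h S (hSS.trans (J_ssub _ _ (by omega))) ho)
    rw [Finset.mem_inter, Finset.mem_sdiff]
    exact ⟨⟨hy, hyS⟩, J_sub_I k n hn s δ θ hk0 hy⟩

include hn

/-- (C), conclusion. -/
theorem stepC (hodd : Odd k)
    (h : Tendsto (fun m => carP (s m) (k + 2)) atTop (𝓝 ((1 / 2) ^ (k + 1)))) :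
    Tendsto (fun m => avg (fun Y : K k → Fin (n m) × Fin 3 =>
      ind (Pos (sM (s m) δ θ Y) (J k (by omega))) *
        (1 - sg (sM (s m) δ θ Y) (J k (by omega)) (fun i => sM (s m) δ θ Y i xx) *
          sg (sM (s m) δ θ Y) (J k (by omega)) (fun i => sM (s m) δ θ Y i xi)))) atTop (𝓝 0) := by
  set H := host k n hn s δ θ with hH
  have hk0 : k ≤ k + 2 := by omega
  have h1 := (stepC_t k n hn s δ θ hs hG hodd h).const_mul ((1 / 2 : ℝ) ^ k)
  have h2 := stepC_P k n hn s δ θ hs hG hodd h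
  have e1 : (1 / 2 : ℝ) ^ k * 2 = (1 / 2) ^ (k - 1) := by
    have : k = (k - 1) + 1 := by have := hodd.pos; omega
    conv_lhs => rw [this, pow_succ]
    ring
  rw [e1] at h1
  have h3 := h2.sub h1
  rw [sub_self] at h3
  refine h3.congr fun m => ?_
  have e2 : (1 / 2 : ℝ) ^ k * (2 ^ k * H.t (insert xx (insert xi (J k hk0))) (J k hk0) m) =
      H.t (insert xx (insert xi (J k hk0))) (J k hk0) m := by
    rw [← mul_assoc, ← mul_pow]; norm_num
  rw [e2]
  have e3 : (insert xx (insert xi (J k hk0)) : Finset (K k)) \ J k hk0 = {xx, xi} := by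
    ext y
    rw [Finset.mem_sdiff, Finset.mem_insert, Finset.mem_insert, Finset.mem_insert,
      Finset.mem_singleton]
    constructor
    · rintro ⟨h1 | h1 | h1, h2⟩
      · left; exact h1
      · right; exact h1
      · exact absurd h1 h2
    · rintro (h1 | h1)
      · exact ⟨Or.inl h1, by rw [h1]; exact notMem_J _ _⟩
      · exact ⟨Or.inr (Or.inl h1), by rw [h1]; exact notMem_J _ _⟩
  have e4 : ({xx, xi} : Finset (K k)) \ H.I = {xx, xi} := by
    rw [Finset.sdiff_eq_self_iff_disjoint, Finset.disjoint_left]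
    intro y hy
    rw [Finset.mem_insert, Finset.mem_singleton] at hy
    rcases hy with h1 | h1
    · rw [h1]; exact notMem_I k n hn s δ θ _
    · rw [h1]; exact notMem_I k n hn s δ θ _
  have e5 : ({xx, xi} : Finset (K k)) ∩ H.I = ∅ := by
    rw [← Finset.disjoint_iff_inter_eq_empty, ← Finset.sdiff_eq_self_iff_disjoint]
    exact e4
  have e6 : H.t (insert xx (insert xi (J k hk0))) (J k hk0) m =
      avg (fun Y : K k → Fin (n m) × Fin 3 => ind (Pos (sM (s m) δ θ Y) (J k hk0)) *
        (sg (sM (s m) δ θ Y) (J k hk0) (fun i => sM (s m) δ θ Y i xx) *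
          sg (sM (s m) δ θ Y) (J k hk0) (fun i => sM (s m) δ θ Y i xi))) := by
    unfold Host.t term
    rw [e3, e4, e5, Finset.card_empty]
    congr 1
    funext Y
    rw [pow_zero, mul_one, Finset.prod_pair xx_ne_xi]
    rfl
  have e7 : (host k n hn s δ θ).P (J k hk0) m =
      avg (fun Y : K k → Fin (n m) × Fin 3 => ind (Pos (sM (s m) δ θ Y) (J k hk0))) := rfl
  rw [e6, e7, ← avg_sub]
  congr 1
  funext Y
  rw [mul_sub, mul_one]

/-- (D), flips. -/
theorem stepD (hodd : Odd k)
    (h : Tendsto (fun m => carP (s m) (k + 2)) atTop (𝓝 ((1 / 2) ^ (k + 1))))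
    (B₀ : Fin k → Fin k → ℤ) (hB₀ : IsT B₀) (hpos : Pos (fun i j => (B₀ i j : ℝ)) univ)
    (halt : ¬ IsAlt B₀) : ∃ (u : Fin k) (l₀ : Fin k → Fin 3),
      Tendsto (fun m => Pr (Fl (s m) B₀ u l₀)) atTop (𝓝 0) := by
  obtain ⟨u, l₀, hul⟩ := hG.flip B₀ hB₀ hpos halt
  refine ⟨u, l₀, ?_⟩
  have hk0 : k ≤ k + 2 := by omega
  refine tendsto_of_tendsto_of_tendsto_of_le_of_le tendsto_const_nhds
    (stepC k n hn s δ θ hs hG hodd h) (fun m => Pr_nonneg _) (fun m => ?_)
  refine avg_mono fun Y => ?_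
  have hnn : 0 ≤ 1 - sg (sM (s m) δ θ Y) (J k hk0) (fun i => sM (s m) δ θ Y i xx) *
          sg (sM (s m) δ θ Y) (J k hk0) (fun i => sM (s m) δ θ Y i xi) := by
    have h1 := sg_abs_le (sM (s m) δ θ Y) (J k hk0) (fun i => sM (s m) δ θ Y i xx)
    have h2 := sg_abs_le (sM (s m) δ θ Y) (J k hk0) (fun i => sM (s m) δ θ Y i xi)
    have h3 : |sg (sM (s m) δ θ Y) (J k hk0) (fun i => sM (s m) δ θ Y i xx) *
          sg (sM (s m) δ θ Y) (J k hk0) (fun i => sM (s m) δ θ Y i xi)| ≤ 1 := by
      rw [abs_mul]; exact mul_le_one₀ h1 (abs_nonneg _) h2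
    have := (abs_le.1 h3).2
    linarith
  by_cases hF : Fl (s m) B₀ u l₀ Y
  · obtain ⟨hinj, hB, hl, hxu, hux⟩ := hF
    have e1 : ∀ a : Fin k, (Sum.inl (Fin.castLE hk0 a) : K k) ≠ xx ∧
        (Sum.inl (Fin.castLE hk0 a) : K k) ≠ xi := by
      intro a
      constructor
      · intro h; simp at h
      · intro h; simp at h
    obtain ⟨h1, h2, h3⟩ := hul (sB (s m) Y) (sB_isT (hs m) hinj) (sB_twin _ _) (fun i => (Y i).2)
      (fun a : Fin k => (Sum.inl (Fin.castLE hk0 a) : K k)) (inl_inj hk0) e1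
      (fun i j => by
        rw [sB_ne _ _ (e1 i).2 (e1 j).2]
        exact hB i j)
      (fun i => hl i)
      (fun i hi => by
        rw [sB_ne _ _ (e1 i).2 xx_ne_xi]
        exact hxu i hi)
      (by
        rw [sB_ne _ _ xx_ne_xi (e1 u).2]
        exact hux)
    have g1 : Pos (sM (s m) δ θ Y) (J k hk0) := h1
    have g2 : sg (sM (s m) δ θ Y) (J k hk0) (fun i => sM (s m) δ θ Y i xx) = -1 := h2
    have g3 : sg (sM (s m) δ θ Y) (J k hk0) (fun i => sM (s m) δ θ Y i xi) = 1 := h3
    rw [g2, g3, ind_pos_iff g1]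
    have := ind_le_one (Fl (s m) B₀ u l₀ Y)
    linarith
  · rw [ind_neg hF]
    exact mul_nonneg (ind_nonneg _) hnn

/-- (D), labelled frequencies. -/
theorem stepD_lab (hodd : Odd k)
    (h : Tendsto (fun m => carP (s m) (k + 2)) atTop (𝓝 ((1 / 2) ^ (k + 1))))
    (B₀ : Fin k → Fin k → ℤ) (hB₀ : IsT B₀) (hpos : Pos (fun i j => (B₀ i j : ℝ)) univ)
    (halt : ¬ IsAlt B₀) : Tendsto (fun m => lab (s m) B₀) atTop (𝓝 0) := by
  obtain ⟨u, l₀, hFl⟩ := stepD k n hn s δ θ hs hG hodd h B₀ hB₀ hpos halt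
  obtain ⟨C, hC⟩ := Fl_lower k
  have h1 : Tendsto (fun m => 2 * 3 ^ k * Pr (Fl (s m) B₀ u l₀) + C / (n m : ℝ)) atTop (𝓝 0) := by
    have h2 := (hFl.const_mul (2 * 3 ^ k : ℝ)).add (card_div_tendsto C hn)
    rwa [mul_zero, add_zero] at h2
  have h3 : Tendsto (fun m => (lab (s m) B₀) ^ 2) atTop (𝓝 0) := by
    refine tendsto_of_tendsto_of_tendsto_of_le_of_le' tendsto_const_nhds h1
      (Filter.Eventually.of_forall fun m => sq_nonneg _) ?_
    filter_upwards [hn.eventually_gt_atTop 0] with m hm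
    exact hC (n m) (s m) hm (hs m) B₀ u l₀ hB₀
  have h4 := h3.sqrt
  rw [Real.sqrt_zero] at h4
  refine h4.congr fun m => ?_
  exact Real.sqrt_sq (Pr_nonneg _)

end host

end Step

section seq
variable (n : ℕ → ℕ) (hn : Tendsto n atTop atTop) (s : ∀ m, Fin (n m) → Fin (n m) → ℤ)
  (hs : ∀ m, IsT (s m))

include hn hs

theorem step (k : ℕ) (hodd : Odd k) (h5 : 5 ≤ k)
    (h : Tendsto (fun m => carP (s m) (k + 2)) atTop (𝓝 ((1 / 2) ^ (k + 1)))) :
    Tendsto (fun m => carP (s m) k) atTop (𝓝 ((1 / 2) ^ (k - 1))) := by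
  obtain ⟨δ, θ, hG⟩ := Step.exists_good k h5 hodd
  have h1 := posP_tendsto_lower n hn s hs (k + 2) (hodd.add_even (by decide)) h k hodd (by omega)
  have h2 : Tendsto (fun m => posNotAlt (s m) k) atTop (𝓝 0) :=
    posNotAlt_tendsto k n hn s hs fun B₀ hB₀ hpos halt =>
      Step.stepD_lab k n hn s δ θ hs hG hodd h B₀ hB₀ hpos halt
  have h3 := h1.sub h2
  rw [sub_zero] at h3
  refine h3.congr fun m => ?_
  rw [posNotAlt_eq _ hodd]
  ring

end seq

end H51.Car
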